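import Mathlib

/-!
# Sets of integers in which every shape occurs only a few times; pairs of algebraically
independent numbers; powers of a transcendental number
-/

set_option autoImplicit false

namespace Pool.Agent.W242.GG

open Finset

theorem algInd_pair {a b : ℂ} (ha : Transcendental ℚ a)
    (hb : Transcendental (IntermediateField.adjoin ℚ {a}) b) : AlgebraicIndependent ℚ ![a, b] := by
  rw [AlgebraicIndependent.iff_transcendental_adjoin_image (1 : Fin 2)]
  refine ⟨?_, ?_⟩
  · let _ : Unique {j : Fin 2 // j ≠ 1} := ⟨⟨⟨0, by decide⟩⟩, by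
      rintro ⟨j, hj⟩
      apply Subtype.ext
      show j = 0
      omega⟩
    rw [algebraicIndependent_unique_type_iff]
    exact ha
  · have h1 : (![a, b] '' ({1}ᶜ : Set (Fin 2))) = {a} := by
      ext z
      simp only [Set.mem_image, Set.mem_compl_iff, Set.mem_singleton_iff]
      constructor
      · rintro ⟨i, hi, rfl⟩
        fin_cases i
        · rfl
        · exact absurd rfl hi
      · rintro rfl
        exact ⟨0, by decide, rfl⟩
    rw [h1]
    show Transcendental _ b
    exact (IntermediateField.transcendental_adjoin_iff).1 hb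

theorem li_powers {t : ℂ} (ht : Transcendental ℚ t) : LinearIndependent ℚ (fun n : ℕ => t ^ n) := by
  have h1 := (Polynomial.basisMonomials ℚ).linearIndependent
  have h2 := h1.map' (Polynomial.aeval t).toLinearMap (by
    rw [LinearMap.ker_eq_bot]
    exact transcendental_iff_injective.1 ht)
  have h3 : (fun n : ℕ => t ^ n) = (Polynomial.aeval t).toLinearMap ∘
      (Polynomial.basisMonomials ℚ) := by
    funext n
    simp
  rw [h3]
  exact h2

/-- A set of integers in which no shape of `s` elements occurs more than `r` times. -/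
theorem shape_count (E : Finset ℕ) (K s r : ℕ) (hs : 1 ≤ s) (hE : E ⊆ Icc 1 K)
    (h : ∀ D : Finset ℕ, D.card = s → 0 ∈ D →
      ((Icc 1 K).filter (fun b => ∀ d ∈ D, b + d ∈ E)).card ≤ r) :
    E.card.choose s ≤ r * (K - 1).choose (s - 1) := by
  classical
  -- the shape of a set
  let f : Finset ℕ → Finset ℕ := fun A => if hA : A.Nonempty then A.image (fun a => a - A.min' hA)
    else ∅
  have hprop : ∀ A ∈ powersetCard s E, ∃ hA : A.Nonempty, (f A).card = s ∧ 0 ∈ f A ∧
      f A ⊆ range K ∧ A.min' hA ∈ (Icc 1 K).filter (fun b => ∀ d ∈ f A, b + d ∈ E) ∧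
      A = (f A).image (fun d => A.min' hA + d) := by
    intro A hA
    rw [mem_powersetCard] at hA
    have hne : A.Nonempty := by
      rw [← card_pos]; omega
    have hfA : f A = A.image (fun a => a - A.min' hne) := by
      simp only [f, dif_pos hne]
    have hmin : ∀ a ∈ A, A.min' hne ≤ a := fun a ha => min'_le _ _ ha
    have hmem := A.min'_mem hne
    have hback : A = (f A).image (fun d => A.min' hne + d) := by
      rw [hfA, image_image]
      ext a
      rw [mem_image]
      constructor
      · intro ha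
        exact ⟨a, ha, by have := hmin a ha; simp only [Function.comp]; omega⟩
      · rintro ⟨b, hb, hab⟩
        have := hmin b hb
        simp only [Function.comp] at hab
        have : a = b := by omega
        rw [this]; exact hb
    refine ⟨hne, ?_, ?_, ?_, ?_, hback⟩
    · rw [hfA, card_image_of_injOn]
      · exact hA.2
      · intro a ha b hb hab
        have h1 := hmin a ha
        have h2 := hmin b hb
        simp only at hab
        omega
    · rw [hfA, mem_image]
      exact ⟨_, hmem, by omega⟩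
    · rw [hfA]
      intro d hd
      obtain ⟨a, ha, rfl⟩ := mem_image.1 hd
      have h1 := mem_Icc.1 (hE (hA.1 ha))
      have h2 := mem_Icc.1 (hE (hA.1 hmem))
      rw [mem_range]
      omega
    · rw [mem_filter]
      refine ⟨hE (hA.1 hmem), ?_⟩
      intro d hd
      apply hA.1
      have h3 : A.min' hne + d ∈ (f A).image (fun d => A.min' hne + d) := mem_image_of_mem _ hd
      rw [← hback] at h3
      exact h3
  have h1 : (powersetCard s E).card ≤ r * ((powersetCard s E).image f).card := by
    apply card_le_mul_card_image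
    intro D hD
    obtain ⟨A0, hA0, hfA0⟩ := mem_image.1 hD
    obtain ⟨_, hc, h0, _, _, _⟩ := hprop A0 hA0
    rw [hfA0] at hc h0
    refine le_trans ?_ (h D hc h0)
    apply card_le_card_of_injOn (fun A => if hA : A.Nonempty then A.min' hA else 0)
    · intro A hA
      rw [mem_coe, mem_filter] at hA
      obtain ⟨hne, _, _, _, hm, _⟩ := hprop A hA.1
      simp only [dif_pos hne]
      rw [hA.2] at hm
      exact hm
    · intro A hA B hB hAB
      rw [mem_coe, mem_filter] at hA hB
      obtain ⟨hne, _, _, _, _, hb⟩ := hprop A hA.1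
      obtain ⟨hne', _, _, _, _, hb'⟩ := hprop B hB.1
      simp only [dif_pos hne, dif_pos hne'] at hAB
      rw [hb, hb', hA.2, hB.2, hAB]
  have h2 : ((powersetCard s E).image f).card ≤ (K - 1).choose (s - 1) := by
    have h3 : ((powersetCard s E).image f).card ≤ (powersetCard (s - 1) (Icc 1 (K - 1))).card := by
      apply card_le_card_of_injOn (fun D => D.erase 0)
      · intro D hD
        obtain ⟨A, hA, rfl⟩ := mem_image.1 (mem_coe.1 hD)
        obtain ⟨_, hc, h0, hr, _, _⟩ := hprop A hA
        rw [mem_coe, mem_powersetCard]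
        refine ⟨?_, by rw [card_erase_of_mem h0, hc]⟩
        intro d hd
        rw [mem_erase] at hd
        have := mem_range.1 (hr hd.2)
        rw [mem_Icc]
        omega
      · intro D hD D' hD' hDD
        obtain ⟨A, hA, rfl⟩ := mem_image.1 (mem_coe.1 hD)
        obtain ⟨_, _, h0, _, _, _⟩ := hprop A hA
        obtain ⟨A', hA', rfl⟩ := mem_image.1 (mem_coe.1 hD')
        obtain ⟨_, _, h0', _, _, _⟩ := hprop A' hA'
        simp only at hDD
        rw [← insert_erase h0, ← insert_erase h0', hDD]
    rw [card_powersetCard, Nat.card_Icc] at h3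
    exact h3
  rw [card_powersetCard] at h1
  exact h1.trans (Nat.mul_le_mul_left _ h2)

/-- The numerical consequence. -/
theorem shape_bound (E : Finset ℕ) (K s r : ℕ) (hs : 1 ≤ s) (hE : E ⊆ Icc 1 K)
    (h : ∀ D : Finset ℕ, D.card = s → 0 ∈ D →
      ((Icc 1 K).filter (fun b => ∀ d ∈ D, b + d ∈ E)).card ≤ r) :
    (E.card + 1 - s) ^ s ≤ s * r * K ^ (s - 1) := by
  have h1 := shape_count E K s r hs hE h
  have h2 := Nat.pow_sub_le_descFactorial E.card s
  rw [Nat.descFactorial_eq_factorial_mul_choose] at h2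
  have h3 : (s - 1).factorial * (K - 1).choose (s - 1) ≤ K ^ (s - 1) := by
    rw [← Nat.descFactorial_eq_factorial_mul_choose]
    exact (Nat.descFactorial_le_pow _ _).trans (Nat.pow_le_pow_left (Nat.sub_le _ _) _)
  have h4 : s.factorial = s * (s - 1).factorial := (Nat.mul_factorial_pred (by omega)).symm
  calc (E.card + 1 - s) ^ s ≤ s.factorial * E.card.choose s := h2
    _ ≤ s.factorial * (r * (K - 1).choose (s - 1)) := Nat.mul_le_mul_left _ h1
    _ = s * r * ((s - 1).factorial * (K - 1).choose (s - 1)) := by rw [h4]; ring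
    _ ≤ s * r * K ^ (s - 1) := Nat.mul_le_mul_left _ h3

open Classical in
/-- A set of integers without a grid `a_i + b_j`, `i ≤ s`, `j ≤ r + 1`. -/
theorem grid_bound (P : ℕ → Prop) (K s r : ℕ) (hs : 1 ≤ s)
    (h : ∀ (a : Fin s → ℕ) (b : Fin (r + 1) → ℕ), Function.Injective a → Function.Injective b →
      (∀ i j, P (a i + b j)) → False) :
    (((Icc 1 K).filter P).card + 1 - s) ^ s ≤ s * r * K ^ (s - 1) := by
  apply shape_bound _ K s r hs (filter_subset _ _)
  intro D hD _
  by_contra hcon
  push Not at hcon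
  obtain ⟨B, hB, hBc⟩ := exists_subset_card_eq (Nat.succ_le_of_lt hcon)
  refine h (fun i => D.orderEmbOfFin hD i) (fun j => B.orderEmbOfFin hBc j)
    (D.orderEmbOfFin hD).injective (B.orderEmbOfFin hBc).injective ?_
  intro i j
  have h1 := D.orderEmbOfFin_mem hD i
  have h2 := hB (B.orderEmbOfFin_mem hBc j)
  rw [mem_filter] at h2
  have h3 := h2.2 _ h1
  rw [mem_filter] at h3
  rw [add_comm]
  exact h3.2

/-- real form of the bound -/
theorem real_bound {m K s r : ℕ} (hs : 1 ≤ s) (h : (m + 1 - s) ^ s ≤ s * r * K ^ (s - 1)) (C : ℝ)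
    (hC : 0 ≤ C) (hC2 : ((s * r : ℕ) : ℝ) ≤ C ^ s) :
    (m : ℝ) ≤ C * (K : ℝ) ^ (1 - 1 / (s : ℝ)) + (s - 1 : ℕ) := by
  have hs0 : (0 : ℝ) < s := by exact_mod_cast hs
  have hK : (0 : ℝ) ≤ (K : ℝ) ^ (1 - 1 / (s : ℝ)) := Real.rpow_nonneg (Nat.cast_nonneg _) _
  have h1 : ((m + 1 - s : ℕ) : ℝ) ^ s ≤ (C * (K : ℝ) ^ (1 - 1 / (s : ℝ))) ^ s := by
    have h2 : ((K : ℝ) ^ (1 - 1 / (s : ℝ))) ^ s = (K : ℝ) ^ (s - 1) := by
      rw [← Real.rpow_natCast, ← Real.rpow_mul (Nat.cast_nonneg _), ← Real.rpow_natCast]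
      congr 1
      rw [Nat.cast_sub hs]
      field_simp
      ring
    rw [mul_pow, h2]
    calc ((m + 1 - s : ℕ) : ℝ) ^ s = (((m + 1 - s) ^ s : ℕ) : ℝ) := by push_cast; rfl
      _ ≤ ((s * r * K ^ (s - 1) : ℕ) : ℝ) := by exact_mod_cast h
      _ = ((s * r : ℕ) : ℝ) * (K : ℝ) ^ (s - 1) := by push_cast; ring
      _ ≤ C ^ s * (K : ℝ) ^ (s - 1) := mul_le_mul_of_nonneg_right hC2 (by positivity)
  have h3 : ((m + 1 - s : ℕ) : ℝ) ≤ C * (K : ℝ) ^ (1 - 1 / (s : ℝ)) :=
    le_of_pow_le_pow_left₀ (by omega) (by positivity) h1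
  have h4 : (m : ℝ) ≤ ((m + 1 - s : ℕ) : ℝ) + (s - 1 : ℕ) := by
    have : m ≤ (m + 1 - s) + (s - 1) := by omega
    exact_mod_cast this
  linarith

end Pool.Agent.W242.GG
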