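import Pool.Agent.W242.GG.Gen
import Pool.Agent.W242.GG.Count
import Pool.Agent.W252.GelFinal

/-!
# The numbers `e^{L t^k}`
-/

set_option autoImplicit false

namespace Pool.Agent.W242.GG

open Finset

theorem li_pow {t : ℂ} (ht : Transcendental ℚ t) {m : ℕ} (a : Fin m → ℕ)
    (ha : Function.Injective a) (u : ℂ) (hu : u ≠ 0) :
    LinearIndependent ℚ (fun i => u * t ^ a i) := by
  have h1 := (li_powers ht).comp a ha
  exact h1.map' (LinearMap.mulLeft ℚ u) (LinearMap.ker_eq_bot.2 (mul_right_injective₀ hu))

theorem mem_base {t : ℂ} (k : ℕ) : IsAlgebraic (IntermediateField.adjoin ℚ {t}) (t ^ k) := by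
  have h1 : t ∈ IntermediateField.adjoin ℚ {t} :=
    IntermediateField.subset_adjoin _ _ (Set.mem_singleton t)
  have h2 : IsAlgebraic (IntermediateField.adjoin ℚ {t}) t :=
    isAlgebraic_algebraMap (⟨t, h1⟩ : IntermediateField.adjoin ℚ {t})
  exact h2.pow k

open Classical in
/-- over any field of transcendence degree one -/
theorem pow_any {θ t L : ℂ} (hθ : Transcendental ℚ θ) (ht : Transcendental ℚ t) (hL : L ≠ 0)
    (K : ℕ) : ((((Icc 1 K).filter (fun k : ℕ => IsAlgebraic (IntermediateField.adjoin ℚ {θ})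
      (Complex.exp (L * t ^ k)))).card : ℕ) : ℝ) ≤ 2 * (K : ℝ) ^ (3 / 4 : ℝ) + 3 := by
  have h := grid_bound (fun k : ℕ => IsAlgebraic (IntermediateField.adjoin ℚ {θ})
      (Complex.exp (L * t ^ k))) K 4 4 (by norm_num) (by
    intro a b ha hb h
    refine gelK1 hθ (fun i => 1 * t ^ a i) (fun j => L * t ^ b j) (li_pow ht a ha 1 one_ne_zero)
      (li_pow ht b hb L hL) (by norm_num) (fun i j => ?_)
    have := h i j
    rw [pow_add] at this
    convert this using 2
    ring)
  have := real_bound (by norm_num) h 2 (by norm_num) (by norm_num)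
  norm_num at this ⊢
  exact this

open Classical in
/-- over the field generated by `t` -/
theorem pow_self {t L : ℂ} (ht : Transcendental ℚ t) (hL : L ≠ 0)
    (K : ℕ) : ((((Icc 1 K).filter (fun k : ℕ => IsAlgebraic (IntermediateField.adjoin ℚ {t})
      (Complex.exp (L * t ^ k)))).card : ℕ) : ℝ) ≤ 3 * (K : ℝ) ^ (2 / 3 : ℝ) + 2 := by
  have h := grid_bound (fun k : ℕ => IsAlgebraic (IntermediateField.adjoin ℚ {t})
      (Complex.exp (L * t ^ k))) K 3 3 (by norm_num) (by
    intro a b ha hb h
    refine gelK2 ht (fun i => 1 * t ^ a i) (fun j => L * t ^ b j) (li_pow ht a ha 1 one_ne_zero)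
      (li_pow ht b hb L hL) (by norm_num) (fun i => ?_) (fun i j => ?_)
    · rw [one_mul]; exact mem_base _
    · have := h i j
      rw [pow_add] at this
      convert this using 2
      ring)
  have := real_bound (by norm_num) h 3 (by norm_num) (by norm_num)
  norm_num at this ⊢
  exact this

open Classical in
/-- over the field generated by `t`, when `L` is in this field -/
theorem pow_self' {t L : ℂ} (ht : Transcendental ℚ t) (hL : L ≠ 0)
    (hLt : IsAlgebraic (IntermediateField.adjoin ℚ {t}) L)
    (K : ℕ) : ((((Icc 1 K).filter (fun k : ℕ => IsAlgebraic (IntermediateField.adjoin ℚ {t})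
      (Complex.exp (L * t ^ k)))).card : ℕ) : ℝ) ≤ 2 * Real.sqrt K + 1 := by
  have h := grid_bound (fun k : ℕ => IsAlgebraic (IntermediateField.adjoin ℚ {t})
      (Complex.exp (L * t ^ k))) K 2 2 (by norm_num) (by
    intro a b ha hb h
    refine Pool.Agent.W252.gelG 2 3 (by norm_num) t ht (fun i => 1 * t ^ a i)
      (fun j => L * t ^ b j) (li_pow ht a ha 1 one_ne_zero)
      (li_pow ht b hb L hL) (fun i => ?_) (fun j => ?_) (fun i j => ?_)
    · rw [one_mul]; exact mem_base _
    · exact hLt.mul (mem_base _)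
    · have := h i j
      rw [pow_add] at this
      convert this using 2
      ring)
  have := real_bound (by norm_num) h 2 (by norm_num) (by norm_num)
  rw [Real.sqrt_eq_rpow]
  norm_num at this ⊢
  exact this

end Pool.Agent.W242.GG
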