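import Pool.Agent.W242.GG.Dens
import Pool.Agent.W242.GG.Pow

/-!
# Pairs, and the version over all fields
-/

set_option autoImplicit false

namespace Pool.Agent.W242.GG

open Finset

/-- every number can be replaced by a transcendental one -/
theorem exists_tr (θ : ℂ) : ∃ θ' : ℂ, Transcendental ℚ θ' ∧ ∀ z : ℂ,
    IsAlgebraic (IntermediateField.adjoin ℚ {θ}) z →
      IsAlgebraic (IntermediateField.adjoin ℚ {θ'}) z := by
  by_cases hθ : IsAlgebraic ℚ θ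
  · exact ⟨(Real.pi : ℂ), Pool.Agent.H335R2.piC_transcendental, fun z hz =>
      alg_adjoin_any _ (alg_adjoin_of_alg hθ hz)⟩
  · exact ⟨θ, hθ, fun z hz => hz⟩

open Classical in
/-- powers, over all fields generated by one number -/
theorem pow_all {t L : ℂ} (θ : ℂ) (ht : Transcendental ℚ t) (hL : L ≠ 0)
    (K : ℕ) : ((((Icc 1 K).filter (fun k : ℕ => IsAlgebraic (IntermediateField.adjoin ℚ {θ})
      (Complex.exp (L * t ^ k)))).card : ℕ) : ℝ) ≤ 2 * (K : ℝ) ^ (3 / 4 : ℝ) + 3 := by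
  obtain ⟨θ', hθ', h⟩ := exists_tr θ
  refine le_trans ?_ (pow_any hθ' ht hL K)
  have : (Icc 1 K).filter (fun k : ℕ => IsAlgebraic (IntermediateField.adjoin ℚ {θ})
      (Complex.exp (L * t ^ k))) ⊆ (Icc 1 K).filter (fun k : ℕ => IsAlgebraic
      (IntermediateField.adjoin ℚ {θ'}) (Complex.exp (L * t ^ k))) := by
    intro n hn
    rw [Finset.mem_filter] at hn ⊢
    exact ⟨hn.1, h _ hn.2⟩
  exact_mod_cast Finset.card_le_card this

/-- a number which is algebraic over the rationals is algebraic over the field generated by `0` -/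
theorem excN_of_alg {c : ℝ} {L : ℂ} {n : ℕ}
    (h : IsAlgebraic ℚ (Complex.exp (L * (((n : ℝ) ^ c : ℝ) : ℂ)))) : ExcN c L 0 n :=
  alg_adjoin_any 0 h

open Classical in
/-- Almost all pairs. -/
theorem pairs (ε : ℝ) (hε : 0 < ε) : ∃ N₀ : ℕ, ∀ N ≥ N₀, ∀ c c' : ℝ, Irrational c →
    Irrational c' → ∀ L L' : ℂ, L ≠ 0 → L' ≠ 0 →
      (((Icc 1 N ×ˢ Icc 1 N).filter (fun p : ℕ × ℕ => ¬ AlgebraicIndependent ℚ
        ![Complex.exp (L * (((p.1 : ℝ) ^ c : ℝ) : ℂ)),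
          Complex.exp (L' * (((p.2 : ℝ) ^ c' : ℝ) : ℂ))])).card : ℝ) ≤ ε * N ^ 2 := by
  obtain ⟨N0, h0⟩ := dens (ε / 2) (by positivity)
  refine ⟨N0, fun N hN c c' hc hc' L L' hL hL' => ?_⟩
  set A := (Icc 1 N).filter (fun m : ℕ => ExcN c L 0 m) with hA
  let B : ℕ → Finset ℕ := fun m => (Icc 1 N).filter
    (fun n : ℕ => ExcN c' L' (Complex.exp (L * (((m : ℝ) ^ c : ℝ) : ℂ))) n)
  have h1 : (A.card : ℝ) ≤ ε / 2 * N := h0 N hN c hc L 0 hL
  have h2 : ∀ m, ((B m).card : ℝ) ≤ ε / 2 * N := fun m => h0 N hN c' hc' L' _ hL'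
  have hsub : (Icc 1 N ×ˢ Icc 1 N).filter (fun p : ℕ × ℕ => ¬ AlgebraicIndependent ℚ
        ![Complex.exp (L * (((p.1 : ℝ) ^ c : ℝ) : ℂ)),
          Complex.exp (L' * (((p.2 : ℝ) ^ c' : ℝ) : ℂ))]) ⊆
      (A ×ˢ Icc 1 N) ∪ (Icc 1 N).biUnion (fun m => {m} ×ˢ B m) := by
    rintro ⟨m, n⟩ hp
    rw [mem_filter, mem_product] at hp
    rw [mem_union, mem_product, mem_biUnion]
    by_cases hm : IsAlgebraic ℚ (Complex.exp (L * (((m : ℝ) ^ c : ℝ) : ℂ)))
    · left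
      exact ⟨mem_filter.2 ⟨hp.1.1, excN_of_alg hm⟩, hp.1.2⟩
    · right
      refine ⟨m, hp.1.1, ?_⟩
      rw [mem_product, mem_singleton]
      refine ⟨rfl, mem_filter.2 ⟨hp.1.2, ?_⟩⟩
      by_contra hcon
      exact hp.2 (algInd_pair hm hcon)
  have h3 := Finset.card_le_card hsub
  have h4 : ((A ×ˢ Icc 1 N) ∪ (Icc 1 N).biUnion (fun m => {m} ×ˢ B m)).card ≤
      A.card * N + ∑ m ∈ Icc 1 N, (B m).card := by
    refine (Finset.card_union_le _ _).trans ?_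
    apply Nat.add_le_add
    · rw [card_product, Nat.card_Icc]
      simp
    · refine Finset.card_biUnion_le.trans ?_
      apply Finset.sum_le_sum
      intro m _
      rw [card_product, card_singleton, one_mul]
  have h5 : ((A.card * N + ∑ m ∈ Icc 1 N, (B m).card : ℕ) : ℝ) ≤ ε * N ^ 2 := by
    push_cast
    have h6 : (∑ m ∈ Icc 1 N, ((B m).card : ℝ)) ≤ N * (ε / 2 * N) := by
      calc (∑ m ∈ Icc 1 N, ((B m).card : ℝ)) ≤ ∑ _m ∈ Icc 1 N, (ε / 2 * N) :=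
            Finset.sum_le_sum (fun m _ => h2 m)
        _ = N * (ε / 2 * N) := by simp
    have h7 : (A.card : ℝ) * N ≤ (ε / 2 * N) * N :=
      mul_le_mul_of_nonneg_right h1 (Nat.cast_nonneg _)
    nlinarith
  calc _ ≤ (((A ×ˢ Icc 1 N) ∪ (Icc 1 N).biUnion (fun m => {m} ×ˢ B m)).card : ℝ) := by
        exact_mod_cast h3
    _ ≤ ((A.card * N + ∑ m ∈ Icc 1 N, (B m).card : ℕ) : ℝ) := by exact_mod_cast h4
    _ ≤ _ := h5

end Pool.Agent.W242.GG
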