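import Pool.Agent.W242.GG.Fam

/-!
# Conics through the origin
-/

set_option autoImplicit false

namespace Pool.Agent.W242.GG

open Pool.Agent.H301R2.SSE Pool.Agent.H335R2 Pool.Agent.H137R5.Tow

theorem exp_rat {F : Type*} [Field F] [Algebra F ℂ] {w : ℂ}
    (h : IsAlgebraic F (Complex.exp w)) (q : ℚ) : IsAlgebraic F (Complex.exp (q * w)) := by
  have hden : (q.den : ℂ) ≠ 0 := by exact_mod_cast q.den_nz
  have h1 : Complex.exp (q * w) ^ q.den = Complex.exp w ^ q.num := by
    rw [← Complex.exp_nat_mul, ← Complex.exp_int_mul]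
    congr 1
    have h2 : (q : ℂ) = q.num / q.den := by
      exact_mod_cast (Rat.num_div_den q).symm
    rw [h2]
    field_simp
  have h3 : IsAlgebraic F (Complex.exp (q * w) ^ q.den) := by
    rw [h1]
    obtain ⟨n, hn | hn⟩ := q.num.eq_nat_or_neg
    · rw [hn, zpow_natCast]; exact h.pow n
    · rw [hn, zpow_neg, zpow_natCast]; exact (h.pow n).inv
  exact h3.of_pow q.den_pos

theorem exp_add_alg {F : Type*} [Field F] [Algebra F ℂ] {v w : ℂ}
    (hv : IsAlgebraic F (Complex.exp v)) (hw : IsAlgebraic F (Complex.exp w)) :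
    IsAlgebraic F (Complex.exp (v + w)) := by
  rw [Complex.exp_add]
  exact hv.mul hw

theorem alg_rat {F : Type*} [Field F] [CharZero F] [Algebra F ℂ] (q : ℚ) :
    IsAlgebraic F (q : ℂ) := by
  have : (q : ℂ) = algebraMap F ℂ (q : F) := by simp
  rw [this]
  exact isAlgebraic_algebraMap _

/-- the pair `1, x` -/
theorem li_one_x {x : ℂ} (hx : ∀ q : ℚ, x ≠ q) : LinearIndependent ℚ ![(1 : ℂ), x] := by
  rw [LinearIndependent.pair_iff]
  intro s t hst
  simp only [Rat.smul_def, mul_one] at hst
  by_cases ht : t = 0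
  · subst ht
    simp only [Rat.cast_zero, zero_mul, add_zero] at hst
    exact ⟨by exact_mod_cast hst, rfl⟩
  · exfalso
    have ht' : (t : ℂ) ≠ 0 := by exact_mod_cast ht
    apply hx (-s / t)
    push_cast
    field_simp
    linear_combination hst

/-- Brownawell-Waldschmidt, in the form in which it is used here: `e^u, e^v` algebraic,
`e^{x u}, e^{x v}` and `u, v, x` algebraic over `ℚ(θ)`. -/
theorem bw' {θ : ℂ} (hθ : Transcendental ℚ θ) {u v x : ℂ}
    (huv : LinearIndependent ℚ ![u, v]) (hx : ∀ q : ℚ, x ≠ q)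
    (hu : IsAlgebraic (IntermediateField.adjoin ℚ {θ}) u)
    (hv : IsAlgebraic (IntermediateField.adjoin ℚ {θ}) v)
    (hxa : IsAlgebraic (IntermediateField.adjoin ℚ {θ}) x)
    (eu : IsAlgebraic ℚ (Complex.exp u)) (ev : IsAlgebraic ℚ (Complex.exp v))
    (exu : IsAlgebraic (IntermediateField.adjoin ℚ {θ}) (Complex.exp (x * u)))
    (exv : IsAlgebraic (IntermediateField.adjoin ℚ {θ}) (Complex.exp (x * v))) : False := by
  refine Pool.Agent.W252.bw hθ ![u, v] ![1, x] huv (li_one_x hx) ?_ ?_ ?_ ?_
  · intro i; fin_cases i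
    · exact hu
    · exact hv
  · intro j; fin_cases j
    · exact isAlgebraic_one
    · exact hxa
  · intro i; fin_cases i
    · simpa using eu
    · simpa using ev
  · intro i; fin_cases i
    · simpa [mul_comm] using exu
    · simpa [mul_comm] using exv

/-- **Conics**: `u, v` linearly independent with `e^u, e^v` algebraic, `ω` with `e^ω` algebraic
over `ℚ(θ)` but not over `ℚ`, all three algebraic over `ℚ(θ)`. -/
theorem conic {θ : ℂ} (hθ : Transcendental ℚ θ) {ω u v : ℂ}
    (hω : IsAlgebraic (IntermediateField.adjoin ℚ {θ}) ω)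
    (hu : IsAlgebraic (IntermediateField.adjoin ℚ {θ}) u)
    (hv : IsAlgebraic (IntermediateField.adjoin ℚ {θ}) v)
    (eω : IsAlgebraic (IntermediateField.adjoin ℚ {θ}) (Complex.exp ω))
    (eω' : Transcendental ℚ (Complex.exp ω))
    (eu : IsAlgebraic ℚ (Complex.exp u)) (ev : IsAlgebraic ℚ (Complex.exp v))
    (huv : LinearIndependent ℚ ![u, v]) (a b c d f : ℚ)
    (h : a * u ^ 2 + b * (u * v) + c * v ^ 2 + ω * (d * u + f * v) = 0) :
    a = 0 ∧ b = 0 ∧ c = 0 ∧ d = 0 ∧ f = 0 := by
  have huv' := LinearIndependent.pair_iff.1 huv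
  -- `ω` is not a rational combination of `u` and `v`
  have hind : ∀ p q r : ℚ, (p : ℂ) * u + q * v + r * ω = 0 → p = 0 ∧ q = 0 ∧ r = 0 := by
    intro p q r hr
    by_cases hr0 : r = 0
    · subst hr0
      have := huv' p q (by simpa [Rat.smul_def] using hr)
      exact ⟨this.1, this.2, rfl⟩
    · exfalso
      apply eω'
      have hr' : (r : ℂ) ≠ 0 := by exact_mod_cast hr0
      have : ω = ((-p / r : ℚ) : ℂ) * u + ((-q / r : ℚ) : ℂ) * v := by
        push_cast
        field_simp
        linear_combination hr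
      rw [this]
      exact exp_add_alg (exp_rat eu _) (exp_rat ev _)
  have hu0 : u ≠ 0 := by
    intro h0
    have := (hind 1 0 0 (by rw [h0]; simp)).1
    exact one_ne_zero this
  have hv0 : v ≠ 0 := by
    intro h0
    have := (hind 0 1 0 (by rw [h0]; simp)).2.1
    exact one_ne_zero this
  set P : ℂ := a * u + b * v + d * ω with hP
  set Q : ℂ := c * v + f * ω with hQ
  have hPQ : u * P + v * Q = 0 := by
    rw [hP, hQ]; linear_combination h
  by_cases hQ0 : Q = 0
  · have hP0 : P = 0 := by
      rw [hQ0, mul_zero, add_zero] at hPQ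
      exact (mul_eq_zero.1 hPQ).resolve_left hu0
    have h1 := hind a b d hP0
    have h2 := hind 0 c f (by rw [← hQ0, hQ]; simp)
    exact ⟨h1.1, h1.2.1, h2.2.1, h1.2.2, h2.2.2⟩
  · exfalso
    have e1 : Q / u * u = Q := div_mul_cancel₀ Q hu0
    have e2 : Q / u * v = -P := by
      field_simp
      linear_combination hPQ
    have hexp : ∀ p q r : ℚ, IsAlgebraic (IntermediateField.adjoin ℚ {θ})
        (Complex.exp ((p : ℂ) * u + q * v + r * ω)) := by
      intro p q r
      exact exp_add_alg (exp_add_alg ((exp_rat eu p).tower_top _) ((exp_rat ev q).tower_top _))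
        (exp_rat eω r)
    refine bw' hθ huv (x := Q / u) ?_ hu hv ?_ eu ev ?_ ?_
    · intro q hq
      have : ((-q : ℚ) : ℂ) * u + c * v + f * ω = 0 := by
        rw [hq] at e1
        push_cast
        rw [hQ] at e1
        linear_combination -e1
      obtain ⟨_, h3, h4⟩ := hind (-q) c f this
      apply hQ0
      rw [hQ, h3, h4]; simp
    · have hQa : IsAlgebraic (IntermediateField.adjoin ℚ {θ}) Q :=
        ((alg_rat c).mul hv).add ((alg_rat f).mul hω)
      exact hQa.mul hu.inv
    · rw [e1]
      have := hexp 0 c f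
      convert this using 2
      rw [hQ]; simp
    · rw [e2]
      have := hexp (-a) (-b) (-d)
      convert this using 2
      rw [hP]; push_cast; ring

end Pool.Agent.W242.GG
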