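import Pool.Agent.W242.GG.Gen
import Pool.Agent.H137R5.TowMain

/-!
# Multiplicative cubes and Gel'fond's theorem for exponentials
-/

set_option autoImplicit false

namespace Pool.Agent.W242.GG

open Finset

/-- The span of all subset products of `t_1, ..., t_k`. -/
noncomputable def spn {k : ℕ} (t : Fin k → ℂ) : Submodule ℚ ℂ :=
  Submodule.span ℚ (Set.range (fun A : Finset (Fin k) => ∏ i ∈ A, t i))

instance {k : ℕ} (t : Fin k → ℂ) : FiniteDimensional ℚ (spn t) :=
  FiniteDimensional.span_of_finite ℚ (Set.finite_range _)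

theorem one_mem_spn {k : ℕ} (t : Fin k → ℂ) : (1 : ℂ) ∈ spn t :=
  Submodule.subset_span ⟨∅, by simp⟩

theorem spn_rank {k : ℕ} (t : Fin k → ℂ) (ht : ∀ i, Transcendental ℚ (t i)) :
    k + 1 ≤ Module.finrank ℚ (spn t) := by
  induction k with
  | zero =>
    have h1 : spn t ≠ ⊥ := by
      intro h
      have := one_mem_spn t
      rw [h, Submodule.mem_bot] at this
      exact one_ne_zero this
    have := Submodule.one_le_finrank_iff.2 h1
    omega
  | succ k ih =>
    have ih' := ih (fun i => t i.castSucc) (fun i => ht _)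
    set V := spn (fun i : Fin k => t i.castSucc) with hV
    set u := t (Fin.last k) with hu
    -- V ≤ V'
    have hprod : ∀ A : Finset (Fin k), ∏ i ∈ A, t i.castSucc = ∏ i ∈ A.map Fin.castSuccEmb, t i := by
      intro A
      rw [Finset.prod_map]
      rfl
    have h1 : V ≤ spn t := by
      apply Submodule.span_le.2
      rintro _ ⟨A, rfl⟩
      refine Submodule.subset_span ⟨A.map Fin.castSuccEmb, ?_⟩
      exact (hprod A).symm
    have h2 : ∀ v ∈ V, u * v ∈ spn t := by
      intro v hv
      induction hv using Submodule.span_induction with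
      | mem v hv =>
        obtain ⟨A, rfl⟩ := hv
        refine Submodule.subset_span ⟨insert (Fin.last k) (A.map Fin.castSuccEmb), ?_⟩
        have hnot : Fin.last k ∉ A.map Fin.castSuccEmb := by
          rw [Finset.mem_map]
          rintro ⟨i, _, hi⟩
          exact (Fin.castSucc_lt_last i).ne hi
        show ∏ i ∈ insert (Fin.last k) (A.map Fin.castSuccEmb), t i = u * ∏ i ∈ A, t i.castSucc
        rw [Finset.prod_insert hnot, hprod A]
      | zero => rw [mul_zero]; exact Submodule.zero_mem _
      | add a b _ _ ha hb => rw [mul_add]; exact Submodule.add_mem _ ha hb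
      | smul c a _ ha =>
        rw [mul_smul_comm]
        exact Submodule.smul_mem _ c ha
    by_contra hcon
    push Not at hcon
    have h3 : V = spn t := by
      apply Submodule.eq_of_le_of_finrank_le h1
      omega
    apply ht (Fin.last k)
    have h4 : IsIntegral ℚ u := by
      refine isIntegral_of_smul_mem_submodule (N := V) ?_ ?_ u ?_
      · intro h
        have := one_mem_spn (fun i : Fin k => t i.castSucc)
        rw [← hV, h, Submodule.mem_bot] at this
        exact one_ne_zero this
      · exact (Submodule.fg_iff_finiteDimensional V).2 (by rw [hV]; infer_instance)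
      · intro v hv
        rw [smul_eq_mul, h3]
        exact h2 v hv
    exact h4.isAlgebraic

/-- `k + 1` linearly independent subset products. -/
theorem exists_prods {k : ℕ} (t : Fin k → ℂ) (ht : ∀ i, Transcendental ℚ (t i)) :
    ∃ A : Fin (k + 1) → Finset (Fin k), LinearIndependent ℚ (fun j => ∏ i ∈ A j, t i) := by
  have h1 := spn_rank t ht
  unfold spn at h1
  have hfd : Module.Finite ℚ ↥(Submodule.span ℚ
      (Set.range (fun A : Finset (Fin k) => ∏ i ∈ A, t i))) :=
    FiniteDimensional.span_of_finite ℚ (Set.finite_range _)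
  obtain ⟨f, hf, hspan, hli⟩ := Submodule.exists_fun_fin_finrank_span_eq ℚ
    (Set.range (fun A : Finset (Fin k) => ∏ i ∈ A, t i))
  choose A hA using hf
  let g : Fin (k + 1) → Fin (Module.finrank ℚ (Submodule.span ℚ
    (Set.range (fun A : Finset (Fin k) => ∏ i ∈ A, t i)))) := Fin.castLE h1
  refine ⟨fun j => A (g j), ?_⟩
  have h2 : (fun j => ∏ i ∈ A (g j), t i) = f ∘ g := by
    funext j
    exact hA (g j)
  rw [h2]
  exact hli.comp g (Fin.castLE_injective h1)

/-- The cube argument. -/
theorem cube_false {θ : ℂ} (hθ : Transcendental ℚ θ) (s : Fin 3 → ℂ) (r : Fin 4 → ℂ)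
    (hs : ∀ i, Transcendental ℚ (s i)) (hr : ∀ i, Transcendental ℚ (r i)) (u : ℂ) (hu : u ≠ 0)
    (h : ∀ (A : Finset (Fin 3)) (B : Finset (Fin 4)), IsAlgebraic (IntermediateField.adjoin ℚ {θ})
      (Complex.exp ((∏ i ∈ A, s i) * (u * ∏ i ∈ B, r i)))) : False := by
  obtain ⟨A, hA⟩ := exists_prods s hs
  obtain ⟨B, hB⟩ := exists_prods r hr
  refine gelK1 hθ (fun j => ∏ i ∈ A j, s i) (fun j => u * ∏ i ∈ B j, r i) hA ?_ (by norm_num)
    (fun i j => h (A i) (B j))
  have := hB.map' (LinearMap.mulLeft ℚ u) (LinearMap.ker_eq_bot.2 (mul_right_injective₀ hu))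
  exact this

end Pool.Agent.W242.GG
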