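import Pool.Agent.W242.GG.Cube
import Pool.Agent.H297R2.Density
import Pool.Agent.H335R2.MThm

/-!
# Exponentials of `L n ^ c`: almost all are transcendental over `ℚ(θ)`
-/

set_option autoImplicit false

namespace Pool.Agent.W242.GG

open Finset Pool.Agent.H301R2.SSE Pool.Agent.H340R2 Pool.Agent.H462R2.PiE Pool.Agent.H137R5.Tow

/-- logarithms of three ratios of different primes are independent over the rationals -/
theorem ratios_indep {ι : Type} (p q : ι → ℕ)
    (hp : ∀ i, (p i).Prime) (hq : ∀ i, (q i).Prime)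
    (hinj : Function.Injective (Sum.elim p q)) (i j k : ι) (hij : i ≠ j) (hik : i ≠ k)
    (hjk : j ≠ k) (a b e : ℚ)
    (h : (a : ℝ) * Real.log ((q i : ℝ) / p i) + b * Real.log ((q j : ℝ) / p j) +
        e * Real.log ((q k : ℝ) / p k) = 0) : a = 0 ∧ b = 0 ∧ e = 0 := by
  have hp0 : ∀ i, (p i : ℝ) ≠ 0 := fun i => by exact_mod_cast (hp i).pos.ne'
  have hq0 : ∀ i, (q i : ℝ) ≠ 0 := fun i => by exact_mod_cast (hq i).pos.ne'
  rw [Real.log_div (hq0 i) (hp0 i), Real.log_div (hq0 j) (hp0 j), Real.log_div (hq0 k) (hp0 k)] at h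
  let f : Fin 6 → ι ⊕ ι := ![Sum.inl i, Sum.inl j, Sum.inl k, Sum.inr i, Sum.inr j, Sum.inr k]
  have hf : Function.Injective f := by
    intro u v huv
    fin_cases u <;> fin_cases v <;> simp_all [f, hij.symm, hik.symm, hjk.symm]
  have h1 := Pool.Agent.H297R2.linearIndependent_log_prime (fun u => Sum.elim p q (f u)) (by
    intro u
    show (Sum.elim p q (f u)).Prime
    cases f u with
    | inl i => exact hp i
    | inr i => exact hq i) (hinj.comp hf)
  have h2 := Fintype.linearIndependent_iff.1 h1 ![-a, -b, -e, a, b, e] (by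
    simp only [Fin.sum_univ_six, f, Matrix.cons_val_zero, Matrix.cons_val_one, Matrix.cons_val,
      Sum.elim_inl, Sum.elim_inr, Rat.smul_def]
    have h3 : (((a : ℝ) * (Real.log (q i) - Real.log (p i)) + b * (Real.log (q j) - Real.log (p j)) +
        e * (Real.log (q k) - Real.log (p k)) : ℝ) : ℂ) = 0 := by rw [h]; simp
    push_cast at h3 ⊢
    linear_combination h3)
  exact ⟨by simpa using h2 3, by simpa using h2 4, by simpa using h2 5⟩

/-- the ratio of two different primes to an irrational power: at most two of them are algebraic -/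
theorem three_ratios {c : ℝ} (hc : Irrational c) {ι : Type} (p q : ι → ℕ)
    (hp : ∀ i, (p i).Prime) (hq : ∀ i, (q i).Prime)
    (hinj : Function.Injective (Sum.elim p q)) (i j k : ι) (hij : i ≠ j) (hik : i ≠ k)
    (hjk : j ≠ k)
    (hi : IsAlgebraic ℚ (((q i : ℝ) / p i) ^ c)) (hj : IsAlgebraic ℚ (((q j : ℝ) / p j) ^ c))
    (hk : IsAlgebraic ℚ (((q k : ℝ) / p k) ^ c)) : False := by
  have hpos : ∀ i, (0 : ℝ) < (q i : ℝ) / p i := fun i =>
    div_pos (by exact_mod_cast (hq i).pos) (by exact_mod_cast (hp i).pos)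
  have hrat : ∀ i, IsAlgebraic ℚ ((q i : ℝ) / p i) := by
    intro i
    have : (q i : ℝ) / (p i : ℝ) = algebraMap ℚ ℝ ((q i : ℚ) / (p i : ℚ)) := by simp
    rw [this]
    exact isAlgebraic_algebraMap _
  have hqp : ∀ i, q i ≠ p i := by
    intro i h
    have := hinj (a₁ := Sum.inl i) (a₂ := Sum.inr i) (by simp [h])
    exact absurd this (by simp)
  by_cases hca : IsAlgebraic ℚ c
  · refine gs (hpos i) ?_ (hrat i) hca hc hi
    intro h
    rw [div_eq_one_iff_eq (by exact_mod_cast (hp i).pos.ne')] at h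
    exact hqp i (by exact_mod_cast h)
  · have hexp : ∀ i, Real.exp (Real.log ((q i : ℝ) / p i)) = (q i : ℝ) / p i := fun i =>
      Real.exp_log (hpos i)
    have hexpc : ∀ i, Real.exp (c * Real.log ((q i : ℝ) / p i)) = ((q i : ℝ) / p i) ^ c := by
      intro i
      rw [mul_comm, ← Real.rpow_def_of_pos (hpos i)]
    -- multiplicative independence
    have hmul : ∀ a b e : ℚ, (a : ℝ) * Real.log ((q i : ℝ) / p i) + b * Real.log ((q j : ℝ) / p j) +
        e * Real.log ((q k : ℝ) / p k) = 0 → a = 0 ∧ b = 0 ∧ e = 0 := by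
      intro a b e h
      exact ratios_indep p q hp hq hinj i j k hij hik hjk a b e h
    refine core c hca ((Real.log ((q i : ℝ) / p i) : ℝ) : ℂ) ((Real.log ((q j : ℝ) / p j) : ℝ) : ℂ)
      ((Real.log ((q k : ℝ) / p k) : ℝ) : ℂ) ?_ (lt_of (by rw [hexp]; exact hrat i))
      (lt_of (by rw [hexp]; exact hrat j)) (lt_of (by rw [hexp]; exact hrat k)) ?_ ?_ ?_
    · intro a b e ha hb he h
      have := bk3 _ _ _ (by rw [hexp]; exact hrat i) (by rw [hexp]; exact hrat j)
        (by rw [hexp]; exact hrat k) hmul 0 a b e 0 isAlgebraic_zero ha hb he isAlgebraic_zero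
        (by linear_combination h)
      exact ⟨this.2.1, this.2.2.1, this.2.2.2.1⟩
    · rw [← Complex.ofReal_mul]; exact lt_of (by rw [hexpc]; exact hi)
    · rw [← Complex.ofReal_mul]; exact lt_of (by rw [hexpc]; exact hj)
    · rw [← Complex.ofReal_mul]; exact lt_of (by rw [hexpc]; exact hk)

/-- the exceptional integers -/
def ExcN (c : ℝ) (L θ : ℂ) (n : ℕ) : Prop :=
  IsAlgebraic (IntermediateField.adjoin ℚ {θ}) (Complex.exp (L * (((n : ℝ) ^ c : ℝ) : ℂ)))

open Classical in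
theorem dens_tr (ε : ℝ) (hε : 0 < ε) : ∃ N₀ : ℕ, ∀ N ≥ N₀, ∀ c : ℝ, Irrational c →
    ∀ L θ : ℂ, L ≠ 0 → Transcendental ℚ θ →
      (((Finset.Icc 1 N).filter (fun n : ℕ => ExcN c L θ n)).card : ℝ) ≤ ε * N := by
  obtain ⟨x0, hx0⟩ := Pool.Agent.H297R2.dense_cube 9 ε hε 1
  refine ⟨x0, fun N hN c hc L θ hL hθ => ?_⟩
  by_contra hcon
  push Not at hcon
  obtain ⟨a0, p, q, ha0, hp, hq, hinj, hcube⟩ := hx0 N hN
    ((Finset.Icc 1 N).filter (fun n : ℕ => ExcN c L θ n)) (by
      intro n hn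
      rw [Finset.mem_filter, Finset.mem_Icc] at hn
      rw [Finset.mem_Ioc]
      omega) hcon.le
  have hpp : ∀ i, (0 : ℝ) < p i := fun i => by exact_mod_cast (hp i).1.pos
  have hqp : ∀ i, (0 : ℝ) < q i := fun i => by exact_mod_cast (hq i).1.pos
  have ha0' : (0 : ℝ) < a0 := by exact_mod_cast ha0
  let t : Fin 9 → ℝ := fun i => ((q i : ℝ) / p i) ^ c
  have ht0 : ∀ i, 0 < t i := fun i => Real.rpow_pos_of_pos (div_pos (hqp i) (hpp i)) c
  -- the base point
  let v : ℝ := (a0 : ℝ) ^ c * ∏ i, (p i : ℝ) ^ c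
  have hv : 0 < v := mul_pos (Real.rpow_pos_of_pos ha0' c)
    (Finset.prod_pos (fun i _ => Real.rpow_pos_of_pos (hpp i) c))
  have hval : ∀ S : Finset (Fin 9),
      ((a0 * ∏ i, (if i ∈ S then q i else p i) : ℕ) : ℝ) ^ c = v * ∏ i ∈ S, t i := by
    intro S
    have e1 : ∀ i, (0 : ℝ) ≤ ((if i ∈ S then q i else p i : ℕ) : ℝ) := fun i => Nat.cast_nonneg _
    rw [Nat.cast_mul, Nat.cast_prod, Real.mul_rpow ha0'.le (Finset.prod_nonneg (fun i _ => e1 i)),
      ← Real.finset_prod_rpow _ _ (fun i _ => e1 i)]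
    show _ = (a0 : ℝ) ^ c * (∏ i, (p i : ℝ) ^ c) * ∏ i ∈ S, t i
    rw [mul_assoc]
    congr 1
    have e2 : ∏ i ∈ S, t i = ∏ i, (if i ∈ S then t i else 1) := by
      rw [Finset.prod_ite_mem, Finset.univ_inter]
    rw [e2, ← Finset.prod_mul_distrib]
    apply Finset.prod_congr rfl
    intro i _
    split_ifs
    · show (q i : ℝ) ^ c = (p i : ℝ) ^ c * ((q i : ℝ) / p i) ^ c
      rw [← Real.mul_rpow (hpp i).le (div_pos (hqp i) (hpp i)).le, mul_div_cancel₀ _ (hpp i).ne']
    · rw [mul_one]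
  have hexc : ∀ S : Finset (Fin 9), IsAlgebraic (IntermediateField.adjoin ℚ {θ})
      (Complex.exp (L * ((v : ℂ) * ∏ i ∈ S, (t i : ℂ)))) := by
    intro S
    have h1 := (Finset.mem_filter.mp (hcube S)).2
    unfold ExcN at h1
    rw [hval S] at h1
    push_cast at h1
    exact h1
  -- at most two of the `t i` are algebraic
  let I : Finset (Fin 9) := Finset.univ.filter (fun i => IsAlgebraic ℚ (t i))
  have hI : I.card ≤ 2 := by
    by_contra h3
    push Not at h3
    obtain ⟨i, hi, j, hj, k, hk, hij, hik, hjk⟩ := Finset.two_lt_card.mp h3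
    rw [Finset.mem_filter] at hi hj hk
    exact three_ratios hc p q (fun i => (hp i).1) (fun i => (hq i).1) hinj i j k hij hik hjk
      hi.2 hj.2 hk.2
  have hIc : 7 ≤ (Iᶜ).card := by
    rw [Finset.card_compl, Fintype.card_fin]
    omega
  obtain ⟨J, hJsub, hJcard⟩ := Finset.exists_subset_card_eq hIc
  let e : Fin 7 ↪ Fin 9 := (J.orderEmbOfFin hJcard).toEmbedding
  have he : ∀ i, Transcendental ℚ (t (e i)) := by
    intro i
    have h1 : e i ∈ J := Finset.orderEmbOfFin_mem J hJcard i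
    have h2 := hJsub h1
    rw [Finset.mem_compl, Finset.mem_filter] at h2
    intro h3
    exact h2 ⟨Finset.mem_univ _, h3⟩
  refine cube_false hθ (fun i : Fin 3 => (t (e (Fin.castAdd 4 i)) : ℂ))
    (fun i : Fin 4 => (t (e (Fin.natAdd 3 i)) : ℂ)) (fun i => trC (he _)) (fun i => trC (he _))
    (L * v) (mul_ne_zero hL (by exact_mod_cast hv.ne')) ?_
  intro A B
  let S : Finset (Fin 9) := (A.map ((Fin.castAddEmb 4).trans e)) ∪
    (B.map ((Fin.natAddEmb 3).trans e))
  have hdisj : Disjoint (A.map ((Fin.castAddEmb 4).trans e)) (B.map ((Fin.natAddEmb 3).trans e)) := by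
    rw [Finset.disjoint_left]
    intro x hx hy
    rw [Finset.mem_map] at hx hy
    obtain ⟨i, _, hi⟩ := hx
    obtain ⟨j, _, hj⟩ := hy
    rw [← hj] at hi
    have h1 := e.injective hi
    have h2 := congrArg Fin.val h1
    simp only [Fin.castAddEmb_apply, Fin.natAddEmb_apply, Fin.val_castAdd, Fin.val_natAdd] at h2
    omega
  have h1 := hexc S
  rw [Finset.prod_union hdisj, Finset.prod_map, Finset.prod_map] at h1
  have h2 : L * ((v : ℂ) * ((∏ i ∈ A, (t (((Fin.castAddEmb 4).trans e) i) : ℂ)) *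
      ∏ i ∈ B, (t (((Fin.natAddEmb 3).trans e) i) : ℂ))) =
      (∏ i ∈ A, (t (e (Fin.castAdd 4 i)) : ℂ)) * (L * v * ∏ i ∈ B, (t (e (Fin.natAdd 3 i)) : ℂ)) := by
    show L * ((v : ℂ) * ((∏ i ∈ A, (t (e (Fin.castAdd 4 i)) : ℂ)) *
      ∏ i ∈ B, (t (e (Fin.natAdd 3 i)) : ℂ))) = _
    ring
  rw [h2] at h1
  exact h1

/-- over an algebraic number the notion is ordinary algebraicity -/
theorem alg_adjoin_of_alg {θ z : ℂ} (hθ : IsAlgebraic ℚ θ)
    (hz : IsAlgebraic (IntermediateField.adjoin ℚ {θ}) z) : IsAlgebraic ℚ z := by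
  haveI : Algebra.IsAlgebraic ℚ (IntermediateField.adjoin ℚ {θ}) :=
    IntermediateField.isAlgebraic_adjoin_simple hθ.isIntegral
  exact hz.restrictScalars ℚ

theorem alg_adjoin_any {z : ℂ} (θ : ℂ) (hz : IsAlgebraic ℚ z) :
    IsAlgebraic (IntermediateField.adjoin ℚ {θ}) z :=
  hz.tower_top _

open Classical in
/-- **Main theorem**, with a threshold which does not depend on `c`, `L` and `θ`. -/
theorem dens (ε : ℝ) (hε : 0 < ε) : ∃ N₀ : ℕ, ∀ N ≥ N₀, ∀ c : ℝ, Irrational c →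
    ∀ L θ : ℂ, L ≠ 0 →
      (((Finset.Icc 1 N).filter (fun n : ℕ => ExcN c L θ n)).card : ℝ) ≤ ε * N := by
  obtain ⟨N0, h0⟩ := dens_tr ε hε
  refine ⟨N0, fun N hN c hc L θ hL => ?_⟩
  by_cases hθ : IsAlgebraic ℚ θ
  · refine le_trans ?_ (h0 N hN c hc L (Real.pi : ℂ) hL
      Pool.Agent.H335R2.piC_transcendental)
    have : (Finset.Icc 1 N).filter (fun n : ℕ => ExcN c L θ n) ⊆
        (Finset.Icc 1 N).filter (fun n : ℕ => ExcN c L (Real.pi : ℂ) n) := by
      intro n hn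
      rw [Finset.mem_filter] at hn ⊢
      exact ⟨hn.1, alg_adjoin_any _ (alg_adjoin_of_alg hθ hn.2)⟩
    exact_mod_cast Finset.card_le_card this
  · exact h0 N hN c hc L θ hL hθ

end Pool.Agent.W242.GG
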