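import Pool.Agent.W242.GG.FourNum2
import Pool.Agent.W242.GG.Pow

/-!
# Numbers algebraically independent of `e` (or of another number `θ`)
-/

set_option autoImplicit false

namespace Pool.Agent.W242.GG

open Finset
open Pool.Agent.H301R2.SSE Pool.Agent.H335R2 Pool.Agent.H137R5.Tow Pool.Agent.H462R2.PiE

/-- `GelG 2 3` with first row `1, x` -/
theorem gel23 {θ : ℂ} (hθ : Transcendental ℚ θ) {x : ℂ} (hx : ∀ q : ℚ, x ≠ q)
    (hxa : IsAlgebraic (IntermediateField.adjoin ℚ {θ}) x) (y : Fin 3 → ℂ)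
    (hy : LinearIndependent ℚ y) (hya : ∀ j, IsAlgebraic (IntermediateField.adjoin ℚ {θ}) (y j))
    (e1 : ∀ j, IsAlgebraic (IntermediateField.adjoin ℚ {θ}) (Complex.exp (y j)))
    (e2 : ∀ j, IsAlgebraic (IntermediateField.adjoin ℚ {θ}) (Complex.exp (x * y j))) : False := by
  refine Pool.Agent.W252.gelG 2 3 (by norm_num) θ hθ ![1, x] y (li_one_x hx) hy ?_ hya ?_
  · intro i; fin_cases i
    · exact isAlgebraic_one
    · exact hxa
  · intro i j; fin_cases i
    · simpa using e1 j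
    · simpa using e2 j

theorem rho_ne_rat {t : ℂ} (ht : Transcendental ℚ t) {s : ℚ} (hs : s ≠ 0) (q : ℚ) :
    1 / (1 - (s : ℂ) * t) ≠ q := by
  intro h
  have h1 := rho_tr ht (ratC_alg s) (by exact_mod_cast hs)
  rw [h] at h1
  exact h1 (ratC_alg q)

theorem li_of_ind3 {y0 y1 y2 : ℂ} (h : Ind3 y0 y1 y2) : LinearIndependent ℚ ![y0, y1, y2] := by
  rw [Fintype.linearIndependent_iff]
  intro g hg
  rw [Fin.sum_univ_three] at hg
  simp only [Matrix.cons_val_zero, Matrix.cons_val_one, Matrix.cons_val, Rat.smul_def] at hg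
  have h1 := h (g 0) (g 1) (g 2) (ratC_alg _) (ratC_alg _) (ratC_alg _) hg
  intro i
  fin_cases i
  · exact_mod_cast h1.1
  · exact_mod_cast h1.2.1
  · exact_mod_cast h1.2.2

section K

variable {θ t lam : ℂ} (hθ : Transcendental ℚ θ) (ht : Transcendental ℚ t)
  (htθ : IsAlgebraic (IntermediateField.adjoin ℚ {θ}) t) (hl : lam ≠ 0)
  (hlθ : IsAlgebraic (IntermediateField.adjoin ℚ {θ}) lam)

include hθ ht htθ hl hlθ

/-- three members over the field, `e^λ` in the field -/
theorem three_K (el : IsAlgebraic (IntermediateField.adjoin ℚ {θ}) (Complex.exp lam))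
    {s1 s2 s3 : ℚ} (h12 : s1 ≠ s2) (h13 : s1 ≠ s3) (h23 : s2 ≠ s3) (h30 : s3 ≠ 0)
    (e1 : IsAlgebraic (IntermediateField.adjoin ℚ {θ}) (Complex.exp (lam * fs t s1)))
    (e2 : IsAlgebraic (IntermediateField.adjoin ℚ {θ}) (Complex.exp (lam * fs t s2)))
    (e3 : IsAlgebraic (IntermediateField.adjoin ℚ {θ}) (Complex.exp (lam * fs t s3))) :
    False := by
  have h12' : (s1 : ℂ) ≠ s2 := by exact_mod_cast h12
  have n3 := tr_ne ht (ratC_alg s3)
  have hfs : ∀ q : ℚ, IsAlgebraic (IntermediateField.adjoin ℚ {θ}) (fs t q) := fun q =>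
    htθ.mul (isAlgebraic_one.sub ((alg_rat q).mul htθ)).inv
  have hρ : IsAlgebraic (IntermediateField.adjoin ℚ {θ}) (1 / (1 - (s3 : ℂ) * t)) := by
    rw [fs_one n3]
    exact isAlgebraic_one.add ((alg_rat s3).mul (hfs s3))
  have key : ∀ s : ℚ, s ≠ s3 →
      IsAlgebraic (IntermediateField.adjoin ℚ {θ}) (Complex.exp (lam * fs t s)) →
      IsAlgebraic (IntermediateField.adjoin ℚ {θ})
        (Complex.exp (1 / (1 - (s3 : ℂ) * t) * (lam * fs t s))) := by
    intro s hs hm
    have e := fs_rho (tr_ne ht (ratC_alg s)) n3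
    have d : ((s : ℂ) - s3) ≠ 0 := sub_ne_zero.2 (by exact_mod_cast hs)
    have : 1 / (1 - (s3 : ℂ) * t) * (lam * fs t s) =
        ((s * (s - s3)⁻¹ : ℚ) : ℂ) * (lam * fs t s) +
          ((-(s3 * (s - s3)⁻¹) : ℚ) : ℂ) * (lam * fs t s3) := by
      push_cast
      apply mul_left_cancel₀ d
      have e5 : ((s : ℂ) - s3) * ((s : ℂ) - s3)⁻¹ = 1 := mul_inv_cancel₀ d
      linear_combination lam * e - (s * (lam * fs t s) - s3 * (lam * fs t s3)) * e5
    rw [this]
    exact exp_add_alg (exp_rat hm _) (exp_rat e3 _)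
  refine gel23 hθ (rho_ne_rat ht h30) hρ ![lam * 1, lam * fs t s1, lam * fs t s2]
    (li_of_ind3 ((ind_one ht (ratC_alg s1) (ratC_alg s2) h12').smul hl)) ?_ ?_ ?_
  · intro j; fin_cases j
    · simpa using hlθ
    · exact hlθ.mul (hfs s1)
    · exact hlθ.mul (hfs s2)
  · intro j; fin_cases j
    · simpa using el
    · exact e1
    · exact e2
  · intro j; fin_cases j
    · show IsAlgebraic _ (Complex.exp (1 / (1 - (s3 : ℂ) * t) * (lam * 1)))
      have : 1 / (1 - (s3 : ℂ) * t) * (lam * 1) = lam + (s3 : ℂ) * (lam * fs t s3) := by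
        rw [fs_one n3]; ring
      rw [this]
      exact exp_add_alg el (exp_rat e3 _)
    · exact key s1 h13 e1
    · exact key s2 h23 e2

/-- four members over the field -/
theorem four_K {s1 s2 s3 s4 : ℚ} (h12 : s1 ≠ s2) (h13 : s1 ≠ s3) (h23 : s2 ≠ s3) (h14 : s1 ≠ s4)
    (h24 : s2 ≠ s4) (h34 : s3 ≠ s4) (h40 : s4 ≠ 0)
    (e1 : IsAlgebraic (IntermediateField.adjoin ℚ {θ}) (Complex.exp (lam * fs t s1)))
    (e2 : IsAlgebraic (IntermediateField.adjoin ℚ {θ}) (Complex.exp (lam * fs t s2)))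
    (e3 : IsAlgebraic (IntermediateField.adjoin ℚ {θ}) (Complex.exp (lam * fs t s3)))
    (e4 : IsAlgebraic (IntermediateField.adjoin ℚ {θ}) (Complex.exp (lam * fs t s4))) :
    False := by
  have h12' : (s1 : ℂ) ≠ s2 := by exact_mod_cast h12
  have h13' : (s1 : ℂ) ≠ s3 := by exact_mod_cast h13
  have h23' : (s2 : ℂ) ≠ s3 := by exact_mod_cast h23
  have n4 := tr_ne ht (ratC_alg s4)
  have hfs : ∀ q : ℚ, IsAlgebraic (IntermediateField.adjoin ℚ {θ}) (fs t q) := fun q =>
    htθ.mul (isAlgebraic_one.sub ((alg_rat q).mul htθ)).inv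
  have hρ : IsAlgebraic (IntermediateField.adjoin ℚ {θ}) (1 / (1 - (s4 : ℂ) * t)) := by
    rw [fs_one n4]
    exact isAlgebraic_one.add ((alg_rat s4).mul (hfs s4))
  have key : ∀ s : ℚ, s ≠ s4 →
      IsAlgebraic (IntermediateField.adjoin ℚ {θ}) (Complex.exp (lam * fs t s)) →
      IsAlgebraic (IntermediateField.adjoin ℚ {θ})
        (Complex.exp (1 / (1 - (s4 : ℂ) * t) * (lam * fs t s))) := by
    intro s hs hm
    have e := fs_rho (tr_ne ht (ratC_alg s)) n4
    have d : ((s : ℂ) - s4) ≠ 0 := sub_ne_zero.2 (by exact_mod_cast hs)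
    have : 1 / (1 - (s4 : ℂ) * t) * (lam * fs t s) =
        ((s * (s - s4)⁻¹ : ℚ) : ℂ) * (lam * fs t s) +
          ((-(s4 * (s - s4)⁻¹) : ℚ) : ℂ) * (lam * fs t s4) := by
      push_cast
      apply mul_left_cancel₀ d
      have e5 : ((s : ℂ) - s4) * ((s : ℂ) - s4)⁻¹ = 1 := mul_inv_cancel₀ d
      linear_combination lam * e - (s * (lam * fs t s) - s4 * (lam * fs t s4)) * e5
    rw [this]
    exact exp_add_alg (exp_rat hm _) (exp_rat e4 _)
  refine gel23 hθ (rho_ne_rat ht h40) hρ ![lam * fs t s1, lam * fs t s2, lam * fs t s3]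
    (li_of_ind3 ((ind_three ht (ratC_alg s1) (ratC_alg s2) (ratC_alg s3) h12' h13' h23').smul hl))
    ?_ ?_ ?_
  · intro j; fin_cases j
    · exact hlθ.mul (hfs s1)
    · exact hlθ.mul (hfs s2)
    · exact hlθ.mul (hfs s3)
  · intro j; fin_cases j
    · exact e1
    · exact e2
    · exact e3
  · intro j; fin_cases j
    · exact key s1 h14 e1
    · exact key s2 h24 e2
    · exact key s3 h34 e3

end K

theorem dep_alg {a b : ℂ} (ha : Transcendental ℚ a) (h : ¬ AlgebraicIndependent ℚ ![a, b]) :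
    IsAlgebraic (IntermediateField.adjoin ℚ {a}) b := by
  by_contra hb
  exact h (algInd_pair ha hb)

theorem cexp_one : ((Real.exp 1 : ℝ) : ℂ) = Complex.exp 1 := by push_cast; rfl

theorem cexp1_alg : IsAlgebraic (IntermediateField.adjoin ℚ {Complex.exp 1}) (Complex.exp 1) :=
  self_alg _

/-- `e` and `e^{e/(1 - s e)}` -/
theorem count_ee_K : {s : ℚ | ¬ AlgebraicIndependent ℚ
    ![Complex.exp 1, Complex.exp (Complex.exp 1 / (1 - s * Complex.exp 1))]}.encard ≤ 2 := by
  apply encard_le_two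
  intro a ha b hb c hc hab hac hbc
  have key : ∀ q : ℚ, ¬ AlgebraicIndependent ℚ
      ![Complex.exp 1, Complex.exp (Complex.exp 1 / (1 - q * Complex.exp 1))] →
      IsAlgebraic (IntermediateField.adjoin ℚ {Complex.exp 1})
        (Complex.exp ((1 : ℂ) * fs (Complex.exp 1) q)) := by
    intro q hq
    rw [one_mul]
    exact dep_alg exp_one_tr hq
  have fin : ∀ {a b c : ℚ}, a ≠ b → a ≠ c → b ≠ c → c ≠ 0 → _ → _ → _ → False :=
    fun {a b c} => three_K (s1 := a) (s2 := b) (s3 := c) exp_one_tr exp_one_tr cexp1_alg (lam := 1)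
      one_ne_zero isAlgebraic_one cexp1_alg
  by_cases hc0 : c = 0
  · have ha0 : a ≠ 0 := fun h => hac (by rw [h, hc0])
    exact fin hbc hab.symm hac.symm ha0 (key b hb) (key c hc) (key a ha)
  · exact fin hab hac hbc hc0 (key a ha) (key b hb) (key c hc)

open Classical in
/-- `e` and `e^{e^n}` -/
theorem count_een (N : ℕ) : (((Icc 1 N).filter (fun n : ℕ => ¬ AlgebraicIndependent ℚ
    ![Complex.exp 1, Complex.exp (Complex.exp 1 ^ n)])).card : ℝ) ≤ 2 * Real.sqrt N + 1 := by
  refine le_trans ?_ (pow_self' exp_one_tr (L := 1) one_ne_zero isAlgebraic_one N)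
  have : (Icc 1 N).filter (fun n : ℕ => ¬ AlgebraicIndependent ℚ
      ![Complex.exp 1, Complex.exp (Complex.exp 1 ^ n)]) ⊆
      (Icc 1 N).filter (fun k : ℕ => IsAlgebraic (IntermediateField.adjoin ℚ {Complex.exp 1})
      (Complex.exp (1 * (Complex.exp 1) ^ k))) := by
    intro n hn
    rw [Finset.mem_filter] at hn ⊢
    rw [one_mul]
    exact ⟨hn.1, dep_alg exp_one_tr hn.2⟩
  exact_mod_cast Finset.card_le_card this

/-- every difference of two exponents `m` with `e^{e^m}` algebraic occurs once -/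
theorem sidon_e {m n m' n' : ℕ} (hmn : m < n) (hm' : m' ≠ m) (hd : n + m' = n' + m)
    (hm : IsAlgebraic ℚ (Complex.exp (Complex.exp 1 ^ m)))
    (hn : IsAlgebraic ℚ (Complex.exp (Complex.exp 1 ^ n)))
    (em' : IsAlgebraic (IntermediateField.adjoin ℚ {Complex.exp 1})
      (Complex.exp (Complex.exp 1 ^ m')))
    (en' : IsAlgebraic (IntermediateField.adjoin ℚ {Complex.exp 1})
      (Complex.exp (Complex.exp 1 ^ n'))) : False := by
  set t : ℂ := Complex.exp 1 with ht
  have htt : Transcendental ℚ t := exp_one_tr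
  have ht0 : t ≠ 0 := tr_ne0 htt
  have hpow : ∀ k : ℕ, IsAlgebraic (IntermediateField.adjoin ℚ {t}) (t ^ k) := fun k => mem_base k
  have hx : ∀ q : ℚ, t ^ m' / t ^ m ≠ q := by
    intro q hq
    have h1 : t ^ m' = q * t ^ m := by
      rw [div_eq_iff (pow_ne_zero _ ht0)] at hq
      exact hq
    have h2 := li_pow htt ![m', m] (by
      intro i j hij
      fin_cases i <;> fin_cases j
      · rfl
      · exact absurd hij hm'
      · exact absurd hij hm'.symm
      · rfl) 1 one_ne_zero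
    rw [Fintype.linearIndependent_iff] at h2
    have h3 := h2 ![1, -q] (by
      rw [Fin.sum_univ_two]
      simp only [Matrix.cons_val_zero, Matrix.cons_val_one, one_mul, Rat.smul_def, Rat.cast_one,
        Rat.cast_neg]
      linear_combination h1) 0
    exact one_ne_zero h3
  have huv : LinearIndependent ℚ ![t ^ m, t ^ n] := by
    have h2 := li_pow htt ![m, n] (by
      intro i j hij
      fin_cases i <;> fin_cases j
      · rfl
      · exact absurd hij hmn.ne
      · exact absurd hij hmn.ne'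
      · rfl) 1 one_ne_zero
    convert h2 using 1
    funext i
    fin_cases i <;> simp
  refine bw' htt huv hx (hpow m) (hpow n) ((hpow m').mul (hpow m).inv) hm hn ?_ ?_
  · rw [div_mul_cancel₀ _ (pow_ne_zero _ ht0)]
    exact em'
  · have : t ^ m' / t ^ m * t ^ n = t ^ n' := by
      rw [div_mul_eq_mul_div, div_eq_iff (pow_ne_zero _ ht0), ← pow_add, ← pow_add]
      congr 1
      omega
    rw [this]
    exact en'

end Pool.Agent.W242.GG
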