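import Pool.Agent.W242.GG.Gen
import Pool.Agent.W252.BWFinal
import Pool.Agent.W252.GelFinal
import Pool.Agent.H335R2.MThm
import Pool.Agent.H137R5.TowFam

/-!
# The families `e^{λ t / (1 - s t)}`
-/

set_option autoImplicit false

namespace Pool.Agent.W242.GG

open Pool.Agent.H301R2.SSE Pool.Agent.H335R2 Pool.Agent.H137R5.Tow

/-- `t / (1 - s t)`; the inverses of these numbers are `1 / t - s`. -/
noncomputable def fs (t s : ℂ) : ℂ := t / (1 - s * t)

theorem fs_zero (t : ℂ) : fs t 0 = t := by simp [fs]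

theorem tr_ne {t : ℂ} (ht : Transcendental ℚ t) {s : ℂ} (hs : IsAlgebraic ℚ s) :
    1 - s * t ≠ 0 := by
  intro h
  by_cases hs0 : s = 0
  · rw [hs0] at h
    simp at h
  · apply ht
    have : t = s⁻¹ := by
      field_simp
      linear_combination -h
    rw [this]
    exact hs.inv

theorem tr_ne0 {t : ℂ} (ht : Transcendental ℚ t) : t ≠ 0 := by
  rintro rfl
  exact ht isAlgebraic_zero

theorem fs_mul {t s : ℂ} (hs : 1 - s * t ≠ 0) : fs t s * (1 - s * t) = t :=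
  div_mul_cancel₀ t hs

/-- `f_i - f_j = (s_i - s_j) f_i f_j` -/
theorem fs_sub {t s r : ℂ} (hs : 1 - s * t ≠ 0) (hr : 1 - r * t ≠ 0) :
    fs t s - fs t r = (s - r) * (fs t s * fs t r) := by
  have es := fs_mul hs
  have er := fs_mul hr
  apply mul_left_cancel₀ (mul_ne_zero hs hr)
  linear_combination (1 - r * t) * es - (1 - s * t) * er - (s - r) * (fs t r * (1 - r * t)) * es -
    (s - r) * t * er

/-- `f_i / (1 - s_j t) = (s_i f_i - s_j f_j) / (s_i - s_j)`, in a form without division -/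
theorem fs_rho {t s r : ℂ} (hs : 1 - s * t ≠ 0) (hr : 1 - r * t ≠ 0) :
    (s - r) * (1 / (1 - r * t) * fs t s) = s * fs t s - r * fs t r := by
  have es := fs_mul hs
  have er := fs_mul hr
  have eg : 1 / (1 - r * t) * (1 - r * t) = 1 := div_mul_cancel₀ 1 hr
  apply mul_left_cancel₀ (mul_ne_zero hs hr)
  linear_combination (s - r) * (fs t s * (1 - s * t)) * eg + (s - r) * es -
    s * (1 - r * t) * es + r * (1 - s * t) * er

theorem fs_one {t r : ℂ} (hr : 1 - r * t ≠ 0) : 1 / (1 - r * t) = 1 + r * fs t r := by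
  have er := fs_mul hr
  have eg : 1 / (1 - r * t) * (1 - r * t) = 1 := div_mul_cancel₀ 1 hr
  apply mul_left_cancel₀ hr
  linear_combination eg - r * er

/-- `t (s_i f_i - s_j f_j) = f_i - f_j` -/
theorem fs_t {t s r : ℂ} (hs : 1 - s * t ≠ 0) (hr : 1 - r * t ≠ 0) :
    t * (s * fs t s - r * fs t r) = fs t s - fs t r := by
  have es := fs_mul hs
  have er := fs_mul hr
  apply mul_left_cancel₀ (mul_ne_zero hs hr)
  linear_combination t * s * (1 - r * t) * es - t * r * (1 - s * t) * er - (1 - r * t) * es +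
    (1 - s * t) * er

theorem quad_zero {t : ℂ} (ht : Transcendental ℚ t) {A B C : ℂ} (hA : IsAlgebraic ℚ A)
    (hB : IsAlgebraic ℚ B) (hC : IsAlgebraic ℚ C) (h : A + B * t + C * t ^ 2 = 0) :
    A = 0 ∧ B = 0 ∧ C = 0 :=
  powers t ht 0 1 2 (by norm_num) (by norm_num) (by norm_num) A B C hA hB hC
    (by rw [← h]; ring)

/-- independence of `1, f_1, f_2` over the algebraic numbers -/
theorem ind_one {t : ℂ} (ht : Transcendental ℚ t) {s1 s2 : ℂ} (h1 : IsAlgebraic ℚ s1)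
    (h2 : IsAlgebraic ℚ s2) (h12 : s1 ≠ s2) : Ind3 1 (fs t s1) (fs t s2) := by
  intro a b c ha hb hc h
  have n1 := tr_ne ht h1
  have n2 := tr_ne ht h2
  have e : a * ((1 - s1 * t) * (1 - s2 * t)) + b * (t * (1 - s2 * t)) + c * (t * (1 - s1 * t)) = 0 := by
    have e1 := fs_mul n1
    have e2 := fs_mul n2
    linear_combination (1 - s1 * t) * (1 - s2 * t) * h - b * (1 - s2 * t) * e1 -
      c * (1 - s1 * t) * e2
  obtain ⟨g0, g1, g2⟩ := quad_zero ht (A := a) (B := -a * (s1 + s2) + b + c)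
    (C := a * s1 * s2 - b * s2 - c * s1) ha
    (((ha.neg.mul (h1.add h2)).add hb).add hc)
    (((ha.mul h1).mul h2).sub (hb.mul h2) |>.sub (hc.mul h1)) (by linear_combination e)
  have hbc : b = -c := by
    rw [g0] at g1
    linear_combination g1
  have hc0 : c * (s2 - s1) = 0 := by
    rw [g0, hbc] at g2
    linear_combination g2
  have hc0' : c = 0 := (mul_eq_zero.1 hc0).resolve_right (sub_ne_zero.2 (Ne.symm h12))
  exact ⟨g0, by rw [hbc, hc0', neg_zero], hc0'⟩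

/-- independence of `f_1, f_2, f_3` over the algebraic numbers -/
theorem ind_three {t : ℂ} (ht : Transcendental ℚ t) {s1 s2 s3 : ℂ} (h1 : IsAlgebraic ℚ s1)
    (h2 : IsAlgebraic ℚ s2) (h3 : IsAlgebraic ℚ s3) (h12 : s1 ≠ s2) (h13 : s1 ≠ s3)
    (h23 : s2 ≠ s3) : Ind3 (fs t s1) (fs t s2) (fs t s3) := by
  intro a b c ha hb hc h
  have n1 := tr_ne ht h1
  have n2 := tr_ne ht h2
  have n3 := tr_ne ht h3
  have t0 := tr_ne0 ht
  have e : a * ((1 - s2 * t) * (1 - s3 * t)) + b * ((1 - s1 * t) * (1 - s3 * t)) +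
      c * ((1 - s1 * t) * (1 - s2 * t)) = 0 := by
    have e1 := fs_mul n1
    have e2 := fs_mul n2
    have e3 := fs_mul n3
    apply mul_left_cancel₀ t0
    linear_combination (1 - s1 * t) * (1 - s2 * t) * (1 - s3 * t) * h -
      a * (1 - s2 * t) * (1 - s3 * t) * e1 - b * (1 - s1 * t) * (1 - s3 * t) * e2 -
      c * (1 - s1 * t) * (1 - s2 * t) * e3
  obtain ⟨g0, g1, g2⟩ := quad_zero ht (A := a + b + c)
    (B := -(a * (s2 + s3) + b * (s1 + s3) + c * (s1 + s2)))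
    (C := a * (s2 * s3) + b * (s1 * s3) + c * (s1 * s2)) ((ha.add hb).add hc)
    (((ha.mul (h2.add h3)).add (hb.mul (h1.add h3))).add (hc.mul (h1.add h2))).neg
    (((ha.mul (h2.mul h3)).add (hb.mul (h1.mul h3))).add (hc.mul (h1.mul h2)))
    (by linear_combination e)
  have ea : a * ((s1 - s2) * (s1 - s3)) = 0 := by
    linear_combination s1 ^ 2 * g0 + s1 * g1 + g2
  have eb : b * ((s2 - s1) * (s2 - s3)) = 0 := by
    linear_combination s2 ^ 2 * g0 + s2 * g1 + g2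
  have ec : c * ((s3 - s1) * (s3 - s2)) = 0 := by
    linear_combination s3 ^ 2 * g0 + s3 * g1 + g2
  have d12 := sub_ne_zero.2 h12
  have d13 := sub_ne_zero.2 h13
  have d23 := sub_ne_zero.2 h23
  have d21 := sub_ne_zero.2 h12.symm
  have d31 := sub_ne_zero.2 h13.symm
  have d32 := sub_ne_zero.2 h23.symm
  exact ⟨(mul_eq_zero.1 ea).resolve_right (mul_ne_zero d12 d13),
    (mul_eq_zero.1 eb).resolve_right (mul_ne_zero d21 d23),
    (mul_eq_zero.1 ec).resolve_right (mul_ne_zero d31 d32)⟩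

theorem rho_tr {t : ℂ} (ht : Transcendental ℚ t) {s : ℂ} (hs : IsAlgebraic ℚ s) (hs0 : s ≠ 0) :
    Transcendental ℚ (1 / (1 - s * t)) := by
  intro h
  apply ht
  have n := tr_ne ht hs
  have : t = (1 - (1 / (1 - s * t))⁻¹) * s⁻¹ := by
    field_simp
    ring
  rw [this]
  exact (isAlgebraic_one.sub h.inv).mul hs.inv

/-- strong six exponentials with rows `1, ρ` -/
theorem core' (ρ : ℂ) (hρ : Transcendental ℚ ρ) (y0 y1 y2 : ℂ) (hy : Ind3 y0 y1 y2)
    (h0 : y0 ∈ Lt) (h1 : y1 ∈ Lt) (h2 : y2 ∈ Lt)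
    (k0 : ρ * y0 ∈ Lt) (k1 : ρ * y1 ∈ Lt) (k2 : ρ * y2 ∈ Lt) : False := by
  refine roy 1 ρ y0 y1 y2 ?_ (fun a b c ha hb hc h => hy a b c ha hb hc h)
    (by rw [one_mul]; exact h0) (by rw [one_mul]; exact h1) (by rw [one_mul]; exact h2) k0 k1 k2
  intro a b ha hb h
  by_cases hb0 : b = 0
  · rw [hb0] at h
    exact ⟨by simpa using h, hb0⟩
  · exfalso
    apply hρ
    have : ρ = -a / b := by
      rw [eq_div_iff hb0]; linear_combination h
    rw [this, div_eq_mul_inv]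
    exact ha.neg.mul hb.inv

/-- four members of the family -/
theorem four_false {t lam : ℂ} (ht : Transcendental ℚ t) (hl : lam ≠ 0) {s1 s2 s3 s4 : ℂ}
    (h1 : IsAlgebraic ℚ s1) (h2 : IsAlgebraic ℚ s2) (h3 : IsAlgebraic ℚ s3)
    (h4 : IsAlgebraic ℚ s4) (h12 : s1 ≠ s2) (h13 : s1 ≠ s3) (h23 : s2 ≠ s3) (h14 : s1 ≠ s4)
    (h24 : s2 ≠ s4) (h34 : s3 ≠ s4) (h40 : s4 ≠ 0)
    (m1 : lam * fs t s1 ∈ Lt) (m2 : lam * fs t s2 ∈ Lt) (m3 : lam * fs t s3 ∈ Lt)
    (m4 : lam * fs t s4 ∈ Lt) : False := by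
  have n4 := tr_ne ht h4
  have key : ∀ s : ℂ, IsAlgebraic ℚ s → s ≠ s4 → lam * fs t s ∈ Lt →
      1 / (1 - s4 * t) * (lam * fs t s) ∈ Lt := by
    intro s hs hs4 hm
    have e := fs_rho (tr_ne ht hs) n4
    have d := sub_ne_zero.2 hs4
    have : 1 / (1 - s4 * t) * (lam * fs t s) =
        (s * (s - s4)⁻¹) * (lam * fs t s) - (s4 * (s - s4)⁻¹) * (lam * fs t s4) := by
      apply mul_left_cancel₀ d
      have e5 : (s - s4) * (s - s4)⁻¹ = 1 := mul_inv_cancel₀ d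
      linear_combination lam * e - (s * (lam * fs t s) - s4 * (lam * fs t s4)) * e5
    rw [this]
    exact Lt.sub_mem (Lt_mul (hs.mul (hs.sub h4).inv) hm) (Lt_mul (h4.mul (hs.sub h4).inv) m4)
  exact core' _ (rho_tr ht h4 h40) _ _ _ ((ind_three ht h1 h2 h3 h12 h13 h23).smul hl) m1 m2 m3
    (key s1 h1 h14 m1) (key s2 h2 h24 m2) (key s3 h3 h34 m3)

/-- three members of the family, when `λ` is a linear form in logarithms -/
theorem three_false {t lam : ℂ} (ht : Transcendental ℚ t) (hl : lam ≠ 0) (hlt : lam ∈ Lt)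
    {s1 s2 s3 : ℂ}
    (h1 : IsAlgebraic ℚ s1) (h2 : IsAlgebraic ℚ s2) (h3 : IsAlgebraic ℚ s3)
    (h12 : s1 ≠ s2) (h13 : s1 ≠ s3) (h23 : s2 ≠ s3) (h30 : s3 ≠ 0)
    (m1 : lam * fs t s1 ∈ Lt) (m2 : lam * fs t s2 ∈ Lt) (m3 : lam * fs t s3 ∈ Lt) : False := by
  have n3 := tr_ne ht h3
  have key : ∀ s : ℂ, IsAlgebraic ℚ s → s ≠ s3 → lam * fs t s ∈ Lt →
      1 / (1 - s3 * t) * (lam * fs t s) ∈ Lt := by
    intro s hs hs4 hm
    have e := fs_rho (tr_ne ht hs) n3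
    have d := sub_ne_zero.2 hs4
    have : 1 / (1 - s3 * t) * (lam * fs t s) =
        (s * (s - s3)⁻¹) * (lam * fs t s) - (s3 * (s - s3)⁻¹) * (lam * fs t s3) := by
      apply mul_left_cancel₀ d
      have e5 : (s - s3) * (s - s3)⁻¹ = 1 := mul_inv_cancel₀ d
      linear_combination lam * e - (s * (lam * fs t s) - s3 * (lam * fs t s3)) * e5
    rw [this]
    exact Lt.sub_mem (Lt_mul (hs.mul (hs.sub h3).inv) hm) (Lt_mul (h3.mul (hs.sub h3).inv) m3)
  refine core' _ (rho_tr ht h3 h30) (lam * 1) _ _ ((ind_one ht h1 h2 h12).smul hl)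
    (by rw [mul_one]; exact hlt) m1 m2 ?_ (key s1 h1 h13 m1) (key s2 h2 h23 m2)
  have : 1 / (1 - s3 * t) * (lam * 1) = lam + s3 * (lam * fs t s3) := by
    rw [fs_one n3]; ring
  rw [this]
  exact Lt.add_mem hlt (Lt_mul h3 m3)

end Pool.Agent.W242.GG
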