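import Pool.Agent.W242.GG.Conic

/-!
# Families through `e^e`, `π^π`, `π^e`
-/

set_option autoImplicit false

namespace Pool.Agent.W242.GG

open Pool.Agent.H301R2.SSE Pool.Agent.H335R2 Pool.Agent.H137R5.Tow Pool.Agent.H462R2.PiE

theorem eC_tr : Transcendental ℚ ((Real.exp 1 : ℝ) : ℂ) := trC Pool.Agent.H340R2.LW.transcendental_exp_one

theorem piC_tr : Transcendental ℚ ((Real.pi : ℝ) : ℂ) := piC_transcendental

theorem self_alg (t : ℂ) : IsAlgebraic (IntermediateField.adjoin ℚ {t}) t := by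
  have h1 : t ∈ IntermediateField.adjoin ℚ {t} :=
    IntermediateField.subset_adjoin _ _ (Set.mem_singleton t)
  exact isAlgebraic_algebraMap (⟨t, h1⟩ : IntermediateField.adjoin ℚ {t})

theorem exp_one_alg : IsAlgebraic (IntermediateField.adjoin ℚ {((Real.exp 1 : ℝ) : ℂ)})
    (Complex.exp 1) := by
  have : Complex.exp 1 = ((Real.exp 1 : ℝ) : ℂ) := by push_cast; rfl
  rw [this]
  exact self_alg _

theorem exp_one_tr : Transcendental ℚ (Complex.exp 1) := by
  have : Complex.exp 1 = ((Real.exp 1 : ℝ) : ℂ) := by push_cast; rfl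
  rw [this]
  exact eC_tr

/-- the conic theorem over `ℚ(e)` -/
theorem conic_e {u v : ℂ}
    (hu : IsAlgebraic (IntermediateField.adjoin ℚ {((Real.exp 1 : ℝ) : ℂ)}) u)
    (hv : IsAlgebraic (IntermediateField.adjoin ℚ {((Real.exp 1 : ℝ) : ℂ)}) v)
    (eu : IsAlgebraic ℚ (Complex.exp u)) (ev : IsAlgebraic ℚ (Complex.exp v))
    (huv : LinearIndependent ℚ ![u, v]) (a b c d f : ℚ)
    (h : a * u ^ 2 + b * (u * v) + c * v ^ 2 + d * u + f * v = 0) :
    a = 0 ∧ b = 0 ∧ c = 0 ∧ d = 0 ∧ f = 0 :=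
  conic eC_tr isAlgebraic_one hu hv exp_one_alg exp_one_tr eu ev huv a b c d f
    (by linear_combination h)

theorem ratC_alg (s : ℚ) : IsAlgebraic ℚ (s : ℂ) := alg_rat s

theorem fs_alg {t s : ℂ} (hs : IsAlgebraic ℚ s) :
    IsAlgebraic (IntermediateField.adjoin ℚ {t}) (fs t s) := by
  have h1 := self_alg t
  have h2 : IsAlgebraic (IntermediateField.adjoin ℚ {t}) s := hs.tower_top _
  exact h1.mul (isAlgebraic_one.sub (h2.mul h1)).inv

/-- linear independence over the rationals of two members of the family -/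
theorem li_fs {t lam : ℂ} (ht : Transcendental ℚ t) (hl : lam ≠ 0) {s r : ℂ}
    (hs : IsAlgebraic ℚ s) (hr : IsAlgebraic ℚ r) (hsr : s ≠ r) :
    LinearIndependent ℚ ![lam * fs t s, lam * fs t r] := by
  rw [LinearIndependent.pair_iff]
  intro p q hpq
  have h1 := (ind_one ht hs hr hsr).smul hl 0 p q isAlgebraic_zero (ratC_alg p) (ratC_alg q) (by
    simp only [Rat.smul_def] at hpq
    linear_combination hpq)
  exact ⟨by exact_mod_cast h1.2.1, by exact_mod_cast h1.2.2⟩

/-- two members with `λ` in the field and `e^λ` transcendental and in the field -/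
theorem two_false {θ t lam : ℂ} (hθ : Transcendental ℚ θ) (ht : Transcendental ℚ t)
    (htθ : IsAlgebraic (IntermediateField.adjoin ℚ {θ}) t)
    (hl : lam ≠ 0) (hlθ : IsAlgebraic (IntermediateField.adjoin ℚ {θ}) lam)
    (el : IsAlgebraic (IntermediateField.adjoin ℚ {θ}) (Complex.exp lam))
    (el' : Transcendental ℚ (Complex.exp lam)) {s r : ℚ} (hsr : s ≠ r)
    (es : IsAlgebraic ℚ (Complex.exp (lam * fs t s)))
    (er : IsAlgebraic ℚ (Complex.exp (lam * fs t r))) : False := by
  have hsr' : (s : ℂ) ≠ r := by exact_mod_cast hsr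
  have ns := tr_ne ht (ratC_alg s)
  have nr := tr_ne ht (ratC_alg r)
  have hfs : ∀ q : ℚ, IsAlgebraic (IntermediateField.adjoin ℚ {θ}) (fs t q) := by
    intro q
    exact htθ.mul (isAlgebraic_one.sub ((alg_rat q).mul htθ)).inv
  have h := conic hθ hlθ (hlθ.mul (hfs s)) (hlθ.mul (hfs r)) el el' es er
    (li_fs ht hl (ratC_alg s) (ratC_alg r) hsr') 0 (s - r) 0 (-1) 1 (by
      have e := fs_sub ns nr
      push_cast
      linear_combination (-lam ^ 2) * e)
  exact one_ne_zero h.2.2.2.2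

/-- `e^{e/(1 - s e)}` -/
theorem ee_two {s r : ℚ} (hsr : s ≠ r)
    (es : IsAlgebraic ℚ (Complex.exp (fs ((Real.exp 1 : ℝ) : ℂ) s)))
    (er : IsAlgebraic ℚ (Complex.exp (fs ((Real.exp 1 : ℝ) : ℂ) r))) : False :=
  two_false eC_tr eC_tr (self_alg _) (lam := 1) one_ne_zero isAlgebraic_one exp_one_alg exp_one_tr
    hsr (by rw [one_mul]; exact es) (by rw [one_mul]; exact er)

/-- `π^{π/(1 - s π)}` -/
theorem pipi_three {s1 s2 s3 : ℚ} (h12 : s1 ≠ s2) (h13 : s1 ≠ s3) (h23 : s2 ≠ s3)
    (e1 : IsAlgebraic ℚ (Complex.exp (((Real.log Real.pi : ℝ) : ℂ) * fs (Real.pi : ℂ) s1)))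
    (e2 : IsAlgebraic ℚ (Complex.exp (((Real.log Real.pi : ℝ) : ℂ) * fs (Real.pi : ℂ) s2)))
    (e3 : IsAlgebraic ℚ (Complex.exp (((Real.log Real.pi : ℝ) : ℂ) * fs (Real.pi : ℂ) s3))) :
    False := by
  set lam : ℂ := ((Real.log Real.pi : ℝ) : ℂ) with hlam
  set t : ℂ := (Real.pi : ℂ) with ht
  have htt : Transcendental ℚ t := piC_tr
  have hl0 : lam ≠ 0 := by
    rw [hlam]
    exact_mod_cast log_pi_pos.ne'
  have hel : Complex.exp lam = t := by
    rw [hlam, ← Complex.ofReal_exp, Real.exp_log Real.pi_pos]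
  have h12' : (s1 : ℂ) ≠ s2 := by exact_mod_cast h12
  have h13' : (s1 : ℂ) ≠ s3 := by exact_mod_cast h13
  have h23' : (s2 : ℂ) ≠ s3 := by exact_mod_cast h23
  have n1 := tr_ne htt (ratC_alg s1)
  have n2 := tr_ne htt (ratC_alg s2)
  have n3 := tr_ne htt (ratC_alg s3)
  by_cases hlt : IsAlgebraic (IntermediateField.adjoin ℚ {t}) lam
  · exact two_false htt htt (self_alg t) hl0 hlt (by rw [hel]; exact self_alg t)
      (by rw [hel]; exact htt) h12 e1 e2
  · -- the columns `1, λ (s1 f1 - s2 f2), λ (s1 f1 - s3 f3)`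
    refine core' t htt 1 (lam * (s1 * fs t s1 - s2 * fs t s2))
      (lam * (s1 * fs t s1 - s3 * fs t s3)) ?_ Lt_one ?_ ?_ ?_ ?_ ?_
    · intro a b c ha hb hc h
      set G : ℂ := b * (s1 * fs t s1 - s2 * fs t s2) + c * (s1 * fs t s1 - s3 * fs t s3) with hG
      by_cases hG0 : G = 0
      · have ha0 : a = 0 := by
          rw [hG] at hG0
          linear_combination h - lam * hG0
        have h3 := ind_three htt (ratC_alg s1) (ratC_alg s2) (ratC_alg s3) h12' h13' h23'
          ((b + c) * s1) (-b * s2) (-c * s3) ((hb.add hc).mul (ratC_alg s1))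
          (hb.neg.mul (ratC_alg s2)) (hc.neg.mul (ratC_alg s3)) (by
            rw [hG] at hG0
            linear_combination hG0)
        obtain ⟨g1, g2, g3⟩ := h3
        refine ⟨ha0, ?_⟩
        by_cases z1 : (s1 : ℂ) = 0
        · have z2 : (s2 : ℂ) ≠ 0 := fun h => h12' (by rw [z1, h])
          have z3 : (s3 : ℂ) ≠ 0 := fun h => h13' (by rw [z1, h])
          exact ⟨neg_eq_zero.1 ((mul_eq_zero.1 g2).resolve_right z2),
            neg_eq_zero.1 ((mul_eq_zero.1 g3).resolve_right z3)⟩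
        · have hbc := (mul_eq_zero.1 g1).resolve_right z1
          by_cases z2 : (s2 : ℂ) = 0
          · have z3 : (s3 : ℂ) ≠ 0 := fun h => h23' (by rw [z2, h])
            have hc0 : c = 0 := neg_eq_zero.1 ((mul_eq_zero.1 g3).resolve_right z3)
            exact ⟨by rw [hc0, add_zero] at hbc; exact hbc, hc0⟩
          · have hb0 : b = 0 := neg_eq_zero.1 ((mul_eq_zero.1 g2).resolve_right z2)
            exact ⟨hb0, by rw [hb0, zero_add] at hbc; exact hbc⟩
      · exfalso
        apply hlt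
        have hlG : lam = -a * G⁻¹ := by
          field_simp
          rw [hG]
          linear_combination h
        have hfa : ∀ s : ℚ, IsAlgebraic (IntermediateField.adjoin ℚ {t}) (fs t s) :=
          fun s => fs_alg (ratC_alg s)
        have up : ∀ {z : ℂ}, IsAlgebraic ℚ z → IsAlgebraic (IntermediateField.adjoin ℚ {t}) z :=
          fun hz => hz.tower_top _
        rw [hlG]
        refine (up ha).neg.mul (IsAlgebraic.inv ?_)
        exact ((up hb).mul (((up (ratC_alg s1)).mul (hfa s1)).sub ((up (ratC_alg s2)).mul (hfa s2)))).add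
          ((up hc).mul (((up (ratC_alg s1)).mul (hfa s1)).sub ((up (ratC_alg s3)).mul (hfa s3))))
    · have : lam * (s1 * fs t s1 - s2 * fs t s2) = s1 * (lam * fs t s1) - s2 * (lam * fs t s2) := by
        ring
      rw [this]
      exact Lt.sub_mem (Lt_mul (ratC_alg s1) (Lt_log e1)) (Lt_mul (ratC_alg s2) (Lt_log e2))
    · have : lam * (s1 * fs t s1 - s3 * fs t s3) = s1 * (lam * fs t s1) - s3 * (lam * fs t s3) := by
        ring
      rw [this]
      exact Lt.sub_mem (Lt_mul (ratC_alg s1) (Lt_log e1)) (Lt_mul (ratC_alg s3) (Lt_log e3))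
    · rw [mul_one]
      exact pi_mem
    · have : t * (lam * (s1 * fs t s1 - s2 * fs t s2)) = lam * fs t s1 - lam * fs t s2 := by
        linear_combination lam * fs_t n1 n2
      rw [this]
      exact Lt.sub_mem (Lt_log e1) (Lt_log e2)
    · have : t * (lam * (s1 * fs t s1 - s3 * fs t s3)) = lam * fs t s1 - lam * fs t s3 := by
        linear_combination lam * fs_t n1 n3
      rw [this]
      exact Lt.sub_mem (Lt_log e1) (Lt_log e3)

end Pool.Agent.W242.GG
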