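import Pool.Agent.W242.GG.FourNum

/-!
# Counting forms
-/

set_option autoImplicit false

namespace Pool.Agent.W242.GG

open Pool.Agent.H301R2.SSE Pool.Agent.H335R2 Pool.Agent.H137R5.Tow Pool.Agent.H462R2.PiE

/-- four real members -/
theorem four_false_real {t : ℝ} {lam : ℂ} (ht : Transcendental ℚ t) (hl : lam ≠ 0) (S : Finset ℝ)
    (hS : S.card = 4) (ha : ∀ s ∈ S, IsAlgebraic ℚ s)
    (hm : ∀ s ∈ S, lam * fs (t : ℂ) (s : ℂ) ∈ Lt) : False := by
  classical
  have h0 : ∃ s4 ∈ S, s4 ≠ 0 := by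
    by_contra hcon
    push Not at hcon
    have : S ⊆ {0} := fun s hs => Finset.mem_singleton.2 (hcon s hs)
    have := Finset.card_le_card this
    rw [hS, Finset.card_singleton] at this
    omega
  obtain ⟨s4, hs4, h40⟩ := h0
  have hc : (S.erase s4).card = 3 := by rw [Finset.card_erase_of_mem hs4, hS]
  obtain ⟨s1, s2, s3, h12, h13, h23, hE⟩ := Finset.card_eq_three.1 hc
  have m1 : s1 ∈ S.erase s4 := by rw [hE]; simp
  have m2 : s2 ∈ S.erase s4 := by rw [hE]; simp
  have m3 : s3 ∈ S.erase s4 := by rw [hE]; simp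
  rw [Finset.mem_erase] at m1 m2 m3
  have cast : ∀ {a b : ℝ}, a ≠ b → (a : ℂ) ≠ (b : ℂ) := fun h => by exact_mod_cast h
  exact four_false (trC ht) hl (alg_ofReal (ha s1 m1.2)) (alg_ofReal (ha s2 m2.2))
    (alg_ofReal (ha s3 m3.2)) (alg_ofReal (ha s4 hs4)) (cast h12) (cast h13) (cast h23)
    (cast m1.1) (cast m2.1) (cast m3.1) (by exact_mod_cast h40) (hm _ m1.2) (hm _ m2.2)
    (hm _ m3.2) (hm _ hs4)

theorem encard_le_three {α : Type*} (A : Set α)
    (h : ∀ S : Finset α, S.card = 4 → (∀ s ∈ S, s ∈ A) → False) : A.encard ≤ 3 := by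
  classical
  by_contra hcon
  push Not at hcon
  have h4 : (4 : ℕ∞) ≤ A.encard := by
    have := Order.add_one_le_of_lt hcon
    have h34 : (3 : ℕ∞) + 1 = 4 := by norm_num
    rw [h34] at this
    exact this
  obtain ⟨T, hT, hc⟩ := Set.exists_subset_encard_eq h4
  have hfin : T.Finite := Set.finite_of_encard_eq_coe (k := 4) hc
  refine h hfin.toFinset ?_ (fun s hs => hT (hfin.mem_toFinset.1 hs))
  have := hfin.encard_eq_coe_toFinset_card
  rw [this] at hc
  exact_mod_cast hc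

theorem encard_le_two {α : Type*} (A : Set α)
    (h : ∀ a ∈ A, ∀ b ∈ A, ∀ c ∈ A, a ≠ b → a ≠ c → b ≠ c → False) : A.encard ≤ 2 := by
  classical
  by_contra hcon
  push Not at hcon
  have h4 : (3 : ℕ∞) ≤ A.encard := by
    have := Order.add_one_le_of_lt hcon
    norm_num at this
    exact this
  obtain ⟨T, hT, hc⟩ := Set.exists_subset_encard_eq h4
  obtain ⟨a, b, c, hab, hac, hbc, rfl⟩ := Set.encard_eq_three.1 hc
  exact h a (hT (by simp)) b (hT (by simp)) c (hT (by simp)) hab hac hbc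

theorem log_ne_of {t : ℝ} (ht : 0 < t) (ht1 : t ≠ 1) : ((Real.log t : ℝ) : ℂ) ≠ 0 := by
  exact_mod_cast log_ne_zero_aux ht ht1
where
  log_ne_zero_aux {t : ℝ} (ht : 0 < t) (ht1 : t ≠ 1) : Real.log t ≠ 0 := by
    intro h0
    rcases Real.log_eq_zero.mp h0 with h1 | h1 | h1
    · exact ht.ne' h1
    · exact ht1 h1
    · linarith

/-- real powers as complex exponentials -/
theorem rpow_exp {b : ℝ} (hb : 0 < b) (t s : ℝ) :
    ((b ^ (t / (1 - s * t)) : ℝ) : ℂ) = Complex.exp (((Real.log b : ℝ) : ℂ) * fs (t : ℂ) (s : ℂ)) := by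
  rw [Real.rpow_def_of_pos hb, Complex.ofReal_exp]
  unfold fs
  push_cast
  rfl

theorem count_ee : {s : ℚ | IsAlgebraic ℚ
    (Real.exp (Real.exp 1 / (1 - s * Real.exp 1)))}.encard ≤ 1 := by
  rw [Set.encard_le_one_iff]
  intro s r hs hr
  by_contra hsr
  have key : ∀ q : ℚ, IsAlgebraic ℚ (Real.exp (Real.exp 1 / (1 - q * Real.exp 1))) →
      IsAlgebraic ℚ (Complex.exp (fs ((Real.exp 1 : ℝ) : ℂ) q)) := by
    intro q hq
    have h1 := alg_ofReal hq
    rw [Complex.ofReal_exp] at h1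
    unfold fs
    push_cast at h1 ⊢
    exact h1
  exact ee_two hsr (key s hs) (key r hr)

theorem count_pipi : {s : ℚ | IsAlgebraic ℚ
    (Real.pi ^ (Real.pi / (1 - s * Real.pi)))}.encard ≤ 2 := by
  apply encard_le_two
  intro a ha b hb c hc hab hac hbc
  have key : ∀ q : ℚ, IsAlgebraic ℚ (Real.pi ^ (Real.pi / (1 - q * Real.pi))) →
      IsAlgebraic ℚ (Complex.exp (((Real.log Real.pi : ℝ) : ℂ) * fs (Real.pi : ℂ) q)) := by
    intro q hq
    have h1 := alg_ofReal hq
    rw [rpow_exp Real.pi_pos Real.pi q] at h1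
    simpa using h1
  exact pipi_three hab hac hbc (key a ha) (key b hb) (key c hc)

theorem count_pie : {s : ℝ | IsAlgebraic ℚ s ∧ IsAlgebraic ℚ
    (Real.pi ^ (Real.exp 1 / (1 - s * Real.exp 1)))}.encard ≤ 3 := by
  apply encard_le_three
  intro S hS hmem
  refine four_false_real Pool.Agent.H340R2.LW.transcendental_exp_one
    (lam := ((Real.log Real.pi : ℝ) : ℂ)) (by exact_mod_cast log_pi_pos.ne') S hS
    (fun s hs => (hmem s hs).1) ?_
  intro s hs
  apply Lt_log
  rw [← rpow_exp Real.pi_pos]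
  exact alg_ofReal (hmem s hs).2

theorem count_prod : {s : ℝ | IsAlgebraic ℚ s ∧ IsAlgebraic ℚ
    (Real.pi * (Real.exp 1 / (1 - s * Real.exp 1)))}.encard ≤ 1 := by
  rw [Set.encard_le_one_iff]
  rintro s r ⟨hs, hs'⟩ ⟨hr, hr'⟩
  by_contra hsr
  have het := Pool.Agent.H340R2.LW.transcendental_exp_one
  set t : ℝ := Real.exp 1 with ht
  have ht0 : t ≠ 0 := (Real.exp_pos 1).ne'
  have hp0 := Real.pi_ne_zero
  have nn : ∀ q : ℝ, IsAlgebraic ℚ q → 1 - q * t ≠ 0 := by
    intro q hq h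
    have := tr_ne (trC het) (alg_ofReal hq)
    apply this
    exact_mod_cast h
  -- the ratio `ρ` is algebraic
  set ρ : ℝ := (Real.pi * (t / (1 - s * t))) / (Real.pi * (t / (1 - r * t))) with hρ
  have hρa : IsAlgebraic ℚ ρ := by
    rw [hρ, div_eq_mul_inv]
    exact hs'.mul hr'.inv
  have n1 := nn s hs
  have n2 := nn r hr
  have e : ρ * (1 - s * t) = 1 - r * t := by
    rw [hρ]
    have h1 : t / (1 - r * t) ≠ 0 := div_ne_zero ht0 n2
    have e1 : t / (1 - s * t) * (1 - s * t) = t := div_mul_cancel₀ t n1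
    have e2 : t / (1 - r * t) * (1 - r * t) = t := div_mul_cancel₀ t n2
    rw [mul_div_mul_left _ _ hp0, div_mul_eq_mul_div, e1, div_eq_iff h1]
    rw [mul_comm]
    exact e2.symm
  -- `t (ρ s - r) = ρ - 1`
  by_cases h : ρ * s - r = 0
  · have h1 : ρ = 1 := by linear_combination e + t * h
    apply hsr
    rw [h1] at h
    linear_combination h
  · apply het
    have : t = (ρ - 1) * (ρ * s - r)⁻¹ := by
      rw [eq_mul_inv_iff_mul_eq₀ h]
      linear_combination -e
    rw [this]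
    exact (hρa.sub isAlgebraic_one).mul ((hρa.mul hs).sub hr).inv

end Pool.Agent.W242.GG
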