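import Pool.Agent.W252.GelG
import Pool.Agent.W669.GelA1

/-!
# A general Gel'fond type theorem

Parameters `(ρ, τ, a, b, N)`: degree in `z`, number of derivatives, degree in the exponentials,
number of points. Adapted from `Pool.Agent.W252.GelG` (helper252).
-/

set_option autoImplicit false

namespace Pool.Agent.W242.GG

open Polynomial Finset Filter
open Pool.Agent.W252

/-- Representation data for the numbers `e^{x_i y_j}` and, if they are algebraic over the field,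
for the `x_i` and for the `y_j`. -/
theorem exists_RDg {θ : ℂ} (hθ : Transcendental ℚ θ) {d l : ℕ} (x : Fin d → ℂ) (y : Fin l → ℂ)
    (p q : Prop)
    (hx : p ∨ ∀ i, IsAlgebraic (IntermediateField.adjoin ℚ {θ}) (x i))
    (hy : q ∨ ∀ j, IsAlgebraic (IntermediateField.adjoin ℚ {θ}) (y j))
    (hxy : ∀ i j, IsAlgebraic (IntermediateField.adjoin ℚ {θ}) (Complex.exp (x i * y j))) :
    ∃ R : RD θ, (p ∨ ∀ i, R.Rep 1 1 (x i)) ∧ (q ∨ ∀ j, R.Rep 1 1 (y j)) ∧
      ∀ i j, R.Rep 1 1 (Complex.exp (x i * y j)) := by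
  classical
  let J := Fin d ⊕ Fin l ⊕ (Fin d × Fin l)
  let x' : Fin d → ℂ := fun i => if p then 0 else x i
  let y' : Fin l → ℂ := fun i => if q then 0 else y i
  let f : J → ℂ := Sum.elim x' (Sum.elim y' (fun p => Complex.exp (x p.1 * y p.2)))
  let e := Fintype.equivFin J
  obtain ⟨R, hR⟩ := exists_RD hθ (fun k => f (e.symm k)) (by
    intro k
    rcases h : e.symm k with i | j | p
    · show IsAlgebraic _ (x' i)
      by_cases hp : p
      · simp only [x', hp, if_true]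
        exact isAlgebraic_zero
      · simp only [x', hp, if_false]
        exact hx.resolve_left hp i
    · show IsAlgebraic _ (y' j)
      by_cases hq : q
      · simp only [y', hq, if_true]
        exact isAlgebraic_zero
      · simp only [y', hq, if_false]
        exact hy.resolve_left hq j
    · exact hxy p.1 p.2)
  refine ⟨R, ?_, ?_, fun i j => ?_⟩
  · by_cases hp : p
    · exact Or.inl hp
    · refine Or.inr (fun i => ?_)
      have := hR (e (Sum.inl i))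
      simpa [f, x', hp] using this
  · by_cases hq : q
    · exact Or.inl hq
    · refine Or.inr (fun j => ?_)
      have := hR (e (Sum.inr (Sum.inl j)))
      simpa [f, y', hq] using this
  · have := hR (e (Sum.inr (Sum.inr (i, j))))
    simpa [f] using this

/-- General Gel'fond type theorem. -/
theorem gel_general {θ : ℂ} (hθ : Transcendental ℚ θ) {d l : ℕ} (x : Fin d → ℂ) (y : Fin l → ℂ)
    (hx : LinearIndependent ℚ x) (hy : LinearIndependent ℚ y) (ρ τ a b N : ℕ)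
    (hax : ρ = 0 ∨ ∀ i, IsAlgebraic (IntermediateField.adjoin ℚ {θ}) (x i))
    (hay : τ = 0 ∨ ∀ j, IsAlgebraic (IntermediateField.adjoin ℚ {θ}) (y j))
    (haxy : ∀ i j, IsAlgebraic (IntermediateField.adjoin ℚ {θ}) (Complex.exp (x i * y j)))
    (hd : 2 ≤ d) (hl : 1 ≤ l) (h1 : τ + d * b = ρ + l * a)
    (hρN : ρ + 1 ≤ N) (hτN : τ + 1 ≤ N) (habN : a + b + 1 ≤ N) (hN : 2 * N + 1 ≤ τ + d * b) :
    False := by
  obtain ⟨R, hRx, hRy, hRxy⟩ := exists_RDg hθ x y (ρ = 0) (τ = 0) hax hay haxy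
  -- constants
  set X : ℝ := 1 + ∑ i, ‖x i‖ with hX
  set Y : ℝ := 1 + ∑ j, ‖y j‖ with hY
  have hX1 : 1 ≤ X := by
    have : 0 ≤ ∑ i, ‖x i‖ := Finset.sum_nonneg (fun _ _ => norm_nonneg _)
    linarith
  have hY1 : 1 ≤ Y := by
    have : 0 ≤ ∑ j, ‖y j‖ := Finset.sum_nonneg (fun _ _ => norm_nonneg _)
    linarith
  set Θ : ℝ := 1 + ‖θ‖ with hΘ
  have hΘ1 : 1 ≤ Θ := by linarith [norm_nonneg θ]
  set C0 : ℕ := 4 * (R.ν + 1) with hC0
  have hC01 : 1 ≤ C0 := by omega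
  have hC0' : (1 : ℝ) ≤ C0 := by exact_mod_cast hC01
  obtain ⟨C1, hC1⟩ := exists_nat_ge (3 * (C0 : ℝ) ^ l + 9 * (Y * X * C0) + 1)
  have hC0l : (1 : ℝ) ≤ (C0 : ℝ) ^ l := one_le_pow₀ hC0'
  have hYX : 0 ≤ Y * X * C0 := by positivity
  have hC1' : (1 : ℝ) ≤ C1 := by nlinarith
  have hC1n : 1 ≤ C1 := by exact_mod_cast hC1'
  -- parameters
  let T0 : ℕ → ℕ := fun M => M ^ τ - 1
  let L0 : ℕ → ℕ := fun M => M ^ ρ - 1
  let L : ℕ → ℕ := fun M => C0 * M ^ a
  let S : ℕ → ℕ := fun M => M ^ b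
  let S1 : ℕ → ℕ := fun M => C1 * M ^ b
  let D : ℕ → ℕ := fun M => L0 M + T0 M + d * l * S1 M * L M
  let K : ℕ → ℝ := fun M => (R.ν + 1 : ℝ) ^ (d * l + 3) * (d * S1 M : ℕ) ^ L0 M *
      ((L0 M + l * L M : ℕ) : ℝ) ^ T0 M
  let B : ℕ → ℝ := fun M => (((L0 M + 1) * L M ^ l : ℕ) : ℝ) * (R.δ * D M : ℕ) *
    (K M * R.H ^ D M)
  let r' : ℕ → ℝ := fun M => 10 * X * S1 M
  have hT01 : ∀ M, 1 ≤ M → T0 M + 1 = M ^ τ := by
    intro M hM
    have : 1 ≤ M ^ τ := Nat.one_le_pow _ _ hM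
    show M ^ τ - 1 + 1 = M ^ τ
    omega
  have hL01 : ∀ M, 1 ≤ M → L0 M + 1 = M ^ ρ := by
    intro M hM
    have h1 : 1 ≤ M ^ ρ := Nat.one_le_pow _ _ hM
    show M ^ ρ - 1 + 1 = _
    omega
  have key : ∀ M : ℕ, 1 ≤ M → ∃ P : ℤ[X], aeval θ P ≠ 0 ∧
      P.natDegree ≤ (R.ν + 1) * (2 * (R.δ * D M)) ∧
      (∀ i, |(P.coeff i : ℝ)| ≤ (B M ^ 2) ^ (R.ν + 1)) ∧
      ‖aeval θ P‖ * ‖R.v 0‖ * 3 ^ ((T0 M + 1) * S M ^ d) ≤ ‖aeval θ R.b‖ ^ D M *
        ((T0 M).factorial *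
        ((((L0 M + 1) * L M ^ l : ℕ) : ℝ) * (B M * (R.δ * D M : ℕ) * Θ ^ (R.δ * D M)) *
          (r' M ^ L0 M * Real.exp (Y * L M * r' M)))) *
        (∑ i, ‖R.v i‖) * (B M ^ 2 * Θ ^ (2 * (R.δ * D M))) ^ R.ν := by
    intro M hM
    have hS1 : 1 ≤ S M := Nat.one_le_pow _ _ hM
    have hSS : S M ≤ S1 M := Nat.le_mul_of_pos_left _ (by omega)
    have hL1 : 1 ≤ L M := Nat.one_le_iff_ne_zero.2 (Nat.mul_ne_zero (by omega)
      (by have := Nat.one_le_pow a M hM; omega))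
    have hM1 : (1 : ℝ) ≤ M := by exact_mod_cast hM
    refine core hθ R (by omega) (by omega) x y hx hy hRxy (T0 M) (L0 M) (L M) (S M) (S1 M)
      ?_ ?_ hS1 hSS hL1 ?_ X Y (by linarith) (by linarith) hX1 hY1 ?_ Θ hΘ1
      (by linarith) 3 (r' M) (by norm_num) ?_ (D M) rfl (K M) (B M) rfl rfl
    · rcases hRx with h | h
      · left
        show M ^ ρ - 1 = 0
        simp [h]
      · exact Or.inr h
    · rcases hRy with h | h
      · left
        show M ^ τ - 1 = 0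
        simp [h]
      · exact Or.inr h
    · rw [hT01 M hM, hL01 M hM]
      show 4 * (M ^ τ * (M ^ b) ^ d * (R.ν + 1)) ≤ M ^ ρ * (C0 * M ^ a) ^ l
      have e1 : M ^ τ * (M ^ b) ^ d = M ^ ρ * (M ^ a) ^ l := by
        rw [← pow_mul, ← pow_mul, ← pow_add, ← pow_add, mul_comm b d, mul_comm a l, h1]
      rw [e1, mul_pow]
      calc 4 * (M ^ ρ * (M ^ a) ^ l * (R.ν + 1)) = C0 * (M ^ ρ * (M ^ a) ^ l) := by
            rw [hC0]; ring
        _ ≤ C0 ^ l * (M ^ ρ * (M ^ a) ^ l) := by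
            apply Nat.mul_le_mul_right
            exact Nat.le_self_pow (by omega) _
        _ = M ^ ρ * (C0 ^ l * (M ^ a) ^ l) := by ring
    · rw [hT01 M hM, hL01 M hM]
      show 3 * ((M ^ ρ * (C0 * M ^ a) ^ l : ℕ) : ℝ) +
        9 * (Y * ((C0 * M ^ a : ℕ) : ℝ)) * (X * ((C1 * M ^ b : ℕ) : ℝ)) <
        ((M ^ τ * (C1 * M ^ b) ^ d : ℕ) : ℝ)
      push_cast
      have h2 : (C1 : ℝ) * (3 * (C0 : ℝ) ^ l + 9 * (Y * X * C0) + 1) ≤ (C1 : ℝ) ^ d := by
        calc (C1 : ℝ) * (3 * (C0 : ℝ) ^ l + 9 * (Y * X * C0) + 1) ≤ C1 * C1 := by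
              apply mul_le_mul_of_nonneg_left hC1 (by positivity)
          _ = (C1 : ℝ) ^ 2 := by ring
          _ ≤ (C1 : ℝ) ^ d := pow_le_pow_right₀ hC1' hd
      have h3 : 3 * (C0 : ℝ) ^ l + 9 * (Y * X * C0) * C1 < (C1 : ℝ) ^ d := by
        refine lt_of_lt_of_le ?_ h2
        nlinarith
      set E : ℝ := (M : ℝ) ^ (τ + d * b) with hE
      have hE1 : 1 ≤ E := one_le_pow₀ hM1
      have e1 : (M : ℝ) ^ ρ * ((C0 : ℝ) * (M : ℝ) ^ a) ^ l = (C0 : ℝ) ^ l * E := by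
        rw [mul_pow, ← pow_mul, hE, h1, mul_comm a l, pow_add]; ring
      have e2 : (M : ℝ) ^ τ * ((C1 : ℝ) * (M : ℝ) ^ b) ^ d = (C1 : ℝ) ^ d * E := by
        rw [mul_pow, ← pow_mul, hE, mul_comm b d, pow_add]; ring
      have e3 : (M : ℝ) ^ a * (M : ℝ) ^ b ≤ E := by
        rw [← pow_add, hE]
        exact pow_le_pow_right₀ hM1 (by omega)
      rw [e1, e2]
      calc 3 * ((C0 : ℝ) ^ l * E) +
            9 * (Y * ((C0 : ℝ) * (M : ℝ) ^ a)) * (X * ((C1 : ℝ) * (M : ℝ) ^ b))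
          = (3 * (C0 : ℝ) ^ l) * E + (9 * (Y * X * C0) * C1) *
              ((M : ℝ) ^ a * (M : ℝ) ^ b) := by ring
        _ ≤ (3 * (C0 : ℝ) ^ l) * E + (9 * (Y * X * C0) * C1) * E := by gcongr
        _ = (3 * (C0 : ℝ) ^ l + 9 * (Y * X * C0) * C1) * E := by ring
        _ < (C1 : ℝ) ^ d * E := by
            apply mul_lt_mul_of_pos_right h3
            positivity
    · show (X * (S1 M : ℝ) + 1 + X * (S M : ℝ)) * 3 + X * (S M : ℝ) ≤ 10 * X * (S1 M : ℝ)
      have h1 : (S M : ℝ) ≤ S1 M := by exact_mod_cast hSS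
      have h2 : (1 : ℝ) ≤ S1 M := by exact_mod_cast hS1.trans hSS
      have h3 : X * (S M : ℝ) ≤ X * S1 M := mul_le_mul_of_nonneg_left h1 (by linarith)
      have h4 : 1 ≤ X * (S1 M : ℝ) := by nlinarith
      nlinarith
  choose! P hP1 hP2 hP3 hP4 using key
  -- polynomial bounds
  have pT0 : Po τ (fun M => (T0 M : ℝ)) := by
    refine (Po.pow τ).mono (fun M _ => Nat.cast_nonneg _) (fun M _ => ?_)
    have : T0 M ≤ M ^ τ := Nat.sub_le _ _
    exact_mod_cast this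
  have pL0 : Po ρ (fun M => (L0 M : ℝ)) := by
    refine (Po.pow ρ).mono (fun M _ => Nat.cast_nonneg _) (fun M _ => ?_)
    have : L0 M ≤ M ^ ρ := Nat.sub_le _ _
    exact_mod_cast this
  have pL : Po a (fun M => (L M : ℝ)) := by
    refine ((Po.pow a).const_mul (C0 : ℝ) (by positivity)).mono
      (fun M _ => Nat.cast_nonneg _) (fun M _ => ?_)
    show ((C0 * M ^ a : ℕ) : ℝ) ≤ _
    push_cast
    exact le_rfl
  have pS1 : Po b (fun M => (S1 M : ℝ)) := by
    refine ((Po.pow b).const_mul (C1 : ℝ) (by positivity)).mono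
      (fun M _ => Nat.cast_nonneg _) (fun M _ => ?_)
    show ((C1 * M ^ b : ℕ) : ℝ) ≤ _
    push_cast
    exact le_rfl
  obtain ⟨p, rfl⟩ : ∃ p, N = p + 1 := ⟨N - 1, by omega⟩
  have pD : Po p (fun M => (D M : ℝ)) := by
    have h1 := ((pL0.weaken (b := p) (by omega)).add (pT0.weaken (b := p) (by omega))).add
      (((pS1.mul pL).const_mul ((d * l : ℕ) : ℝ) (by positivity)).weaken
      (b := p) (by omega))
    refine h1.mono (fun M _ => Nat.cast_nonneg _) (fun M _ => ?_)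
    show ((L0 M + T0 M + d * l * S1 M * L M : ℕ) : ℝ) ≤ _
    push_cast
    apply le_of_eq
    ring
  have pδD : Po p (fun M => ((R.δ * D M : ℕ) : ℝ)) := by
    refine (pD.const_mul (R.δ : ℝ) (Nat.cast_nonneg _)).mono (fun M _ => Nat.cast_nonneg _)
      (fun M _ => ?_)
    push_cast
    exact le_rfl
  have p2δD : Po p (fun M => ((2 * (R.δ * D M) : ℕ) : ℝ)) := by
    refine (pδD.const_mul (2 : ℝ) (by norm_num)).mono (fun M _ => Nat.cast_nonneg _)
      (fun M _ => ?_)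
    push_cast
    exact le_rfl
  have pU : Po (ρ + a * l) (fun M => (((L0 M + 1) * L M ^ l : ℕ) : ℝ)) := by
    refine (Po.pow (ρ + a * l) |>.const_mul ((C0 : ℝ) ^ l) (by positivity)).mono
      (fun M _ => Nat.cast_nonneg _) (fun M hM => ?_)
    rw [hL01 M hM]
    show ((M ^ ρ * (C0 * M ^ a) ^ l : ℕ) : ℝ) ≤ _
    push_cast
    apply le_of_eq
    rw [mul_pow, ← pow_mul, pow_add]
    ring
  have pLl : Po p (fun M => ((L0 M + l * L M : ℕ) : ℝ)) := by
    refine ((pL0.weaken (b := p) (by omega)).add ((pL.const_mul (l : ℝ)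
      (by positivity)).weaken (b := p) (by omega))).mono
      (fun M _ => Nat.cast_nonneg _) (fun M _ => ?_)
    push_cast
    exact le_rfl
  have pdS1 : Po b (fun M => ((d * S1 M : ℕ) : ℝ)) := by
    refine (pS1.const_mul (d : ℝ) (by positivity)).mono (fun M _ => Nat.cast_nonneg _)
      (fun M _ => ?_)
    push_cast
    exact le_rfl
  have pr' : Po b r' := by
    have := pS1.const_mul (10 * X) (by positivity)
    exact this
  have pYLr : Po p (fun M => Y * L M * r' M) := by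
    have h1 := ((pL.mul pr').const_mul Y (by positivity)).weaken (b := p) (by omega)
    refine h1.mono (fun M _ => ?_) (fun M _ => le_of_eq (by ring))
    show 0 ≤ Y * L M * (10 * X * S1 M)
    positivity
  -- exponential bounds
  have sK : Sm (p + 1) K :=
    ((Sm.ofPo (Po.const 0 ((R.ν + 1 : ℝ) ^ (d * l + 3)) (by positivity)) (by omega)).mul
      (Sm.powvar pdS1 pL0 (by omega))).mul (Sm.powvar pLl pT0 (by omega))
  have hH := R.hH
  have sHD : Sm (p + 1) (fun M => R.H ^ D M) :=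
    Sm.powvar (Po.const 0 R.H (by linarith)) pD le_rfl
  have sB : Sm (p + 1) B :=
    ((Sm.ofPo pU (by omega)).mul (Sm.ofPo pδD (by omega))).mul (sK.mul sHD)
  have sΘ : Sm (p + 1) (fun M => Θ ^ (R.δ * D M)) :=
    Sm.powvar (Po.const 0 Θ (by linarith)) pδD le_rfl
  have sΘ2 : Sm (p + 1) (fun M => Θ ^ (2 * (R.δ * D M))) :=
    Sm.powvar (Po.const 0 Θ (by linarith)) p2δD le_rfl
  have sb : Sm (p + 1) (fun M => ‖aeval θ R.b‖ ^ D M) :=
    Sm.powvar (Po.const 0 _ (norm_nonneg _)) pD le_rfl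
  have sRHS : Sm (p + 1) (fun M => ‖aeval θ R.b‖ ^ D M *
        ((T0 M).factorial *
        ((((L0 M + 1) * L M ^ l : ℕ) : ℝ) * (B M * (R.δ * D M : ℕ) * Θ ^ (R.δ * D M)) *
          (r' M ^ L0 M * Real.exp (Y * L M * r' M)))) *
        (∑ i, ‖R.v i‖) * (B M ^ 2 * Θ ^ (2 * (R.δ * D M))) ^ R.ν) := by
    refine ((sb.mul ((Sm.fact pT0 (by omega)).mul ?_)).mul (Sm.ofPo (Po.const 0 _
      (Finset.sum_nonneg (fun _ _ => norm_nonneg _))) (by omega))).mul
      (((sB.powc 2).mul sΘ2).powc R.ν)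
    refine ((Sm.ofPo pU (by omega)).mul ((sB.mul (Sm.ofPo pδD (by omega))).mul sΘ)).mul ?_
    exact (Sm.powvar pr' pL0 (by omega)).mul (Sm.exp pYLr (by omega))
  have sco : Sm (p + 1) (fun M => (B M ^ 2) ^ (R.ν + 1)) := (sB.powc 2).powc (R.ν + 1)
  obtain ⟨C2, hC2, hR2⟩ := sRHS
  obtain ⟨C3, hC3, hR3⟩ := sco
  obtain ⟨C4, hC4, hR4⟩ := pδD
  have hv0 : 0 < ‖R.v 0‖ := norm_pos_iff.2 R.v0_ne
  set C5 : ℝ := |Real.log ‖R.v 0‖| with hC5
  have hC50 : 0 ≤ C5 := abs_nonneg _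
  set C : ℝ := 1 + C2 + C3 + 2 * (R.ν + 1) * C4 + C5 with hC
  have hC20 : 0 ≤ 2 * ((R.ν : ℝ) + 1) * C4 := by positivity
  refine crit_of θ (Pool.Agent.W669.GelA1.coprime_bound θ) (p + 1) (by omega) C (by linarith) P
    hP1 ?_ ?_ ?_
  · intro M hM
    have h1 : ((P M).natDegree : ℝ) ≤ (((R.ν + 1) * (2 * (R.δ * D M)) : ℕ) : ℝ) := by
      exact_mod_cast hP2 M hM
    have h2 : (((R.ν + 1) * (2 * (R.δ * D M)) : ℕ) : ℝ) = 2 * ((R.ν : ℝ) + 1) *
        ((R.δ * D M : ℕ) : ℝ) := by push_cast; ring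
    have hM1 : (1 : ℝ) ≤ M := by exact_mod_cast hM
    calc ((P M).natDegree : ℝ) ≤ 2 * ((R.ν : ℝ) + 1) * ((R.δ * D M : ℕ) : ℝ) := by
          rw [← h2]; exact h1
      _ ≤ 2 * ((R.ν : ℝ) + 1) * (C4 * (M : ℝ) ^ p) :=
          mul_le_mul_of_nonneg_left (hR4 M hM).2 (by positivity)
      _ = (2 * ((R.ν : ℝ) + 1) * C4) * (M : ℝ) ^ p := by ring
      _ ≤ C * (M : ℝ) ^ (p + 1) := by
          apply mul_le_mul _ (pow_le_pow_right₀ hM1 (by omega)) (by positivity) (by linarith)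
          linarith
  · intro M hM i
    refine (hP3 M hM i).trans ((hR3 M hM).2.trans (Real.exp_le_exp.2 ?_))
    apply mul_le_mul_of_nonneg_right _ (by positivity)
    linarith
  · intro M hM
    have hM1 : (1 : ℝ) ≤ M := by exact_mod_cast hM
    have h1' := (hP4 M hM).trans (hR2 M hM).2
    set n := (T0 M + 1) * S M ^ d with hn
    have hn' : (M : ℝ) ^ (2 * (p + 1) + 1) ≤ (n : ℝ) := by
      rw [hn, hT01 M hM]
      show _ ≤ ((M ^ τ * (M ^ b) ^ d : ℕ) : ℝ)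
      push_cast
      rw [← pow_mul, ← pow_add]
      apply pow_le_pow_right₀ hM1
      rw [mul_comm b d]
      exact hN
    have h3n : Real.exp (n : ℝ) ≤ 3 ^ n := by
      have h5 : Real.exp 1 ≤ 3 := by
        have := Real.exp_one_lt_d9
        linarith
      calc Real.exp (n : ℝ) = Real.exp 1 ^ n := by rw [← Real.exp_nat_mul, mul_one]
        _ ≤ 3 ^ n := pow_le_pow_left₀ (Real.exp_nonneg _) h5 _
    have h6 : Real.exp (-C5) ≤ ‖R.v 0‖ := by
      calc Real.exp (-C5) ≤ Real.exp (Real.log ‖R.v 0‖) :=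
            Real.exp_le_exp.2 (neg_abs_le _)
        _ = ‖R.v 0‖ := Real.exp_log hv0
    have h7 : ‖aeval θ (P M)‖ * Real.exp (-C5 + n) ≤ Real.exp (C2 * (M : ℝ) ^ (p + 1)) := by
      calc ‖aeval θ (P M)‖ * Real.exp (-C5 + n)
          = ‖aeval θ (P M)‖ * Real.exp (-C5) * Real.exp n := by rw [Real.exp_add]; ring
        _ ≤ ‖aeval θ (P M)‖ * ‖R.v 0‖ * 3 ^ n := by gcongr
        _ ≤ _ := h1'
    calc ‖aeval θ (P M)‖
        = (‖aeval θ (P M)‖ * Real.exp (-C5 + n)) * Real.exp (-(-C5 + n)) := by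
          rw [mul_assoc, ← Real.exp_add]
          simp
      _ ≤ Real.exp (C2 * (M : ℝ) ^ (p + 1)) * Real.exp (-(-C5 + n)) :=
          mul_le_mul_of_nonneg_right h7 (Real.exp_nonneg _)
      _ = Real.exp (C2 * (M : ℝ) ^ (p + 1) + C5 - n) := by
          rw [← Real.exp_add]; ring_nf
      _ ≤ Real.exp (C * (M : ℝ) ^ (p + 1) - (M : ℝ) ^ (2 * (p + 1) + 1)) := by
          apply Real.exp_le_exp.2
          have h8 : C5 ≤ C5 * (M : ℝ) ^ (p + 1) := le_mul_of_one_le_right hC50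
            (one_le_pow₀ hM1)
          have h9 : (C2 + C5) * (M : ℝ) ^ (p + 1) ≤ C * (M : ℝ) ^ (p + 1) := by
            apply mul_le_mul_of_nonneg_right _ (by positivity)
            linarith
          linarith

/-- Exponentials only: `d l > 2 (d + l)`. -/
theorem gelK1 {θ : ℂ} (hθ : Transcendental ℚ θ) {d l : ℕ} (x : Fin d → ℂ) (y : Fin l → ℂ)
    (hx : LinearIndependent ℚ x) (hy : LinearIndependent ℚ y) (hdl : 2 * (d + l) < d * l)
    (haxy : ∀ i j, IsAlgebraic (IntermediateField.adjoin ℚ {θ}) (Complex.exp (x i * y j))) :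
    False := by
  have hd : 2 < d := by
    by_contra h
    have : d ≤ 2 := by omega
    interval_cases d <;> omega
  have hl : 1 ≤ l := by
    by_contra h
    have : l = 0 := by omega
    subst this
    omega
  refine gel_general hθ x y hx hy 0 0 (3 * d) (3 * l) (3 * (d + l) + 1) (Or.inl rfl) (Or.inl rfl)
    haxy (by omega) hl (by ring) (by omega) (by omega) (by omega) ?_
  have : d * (3 * l) = 3 * (d * l) := by ring
  rw [this]
  omega

/-- The `x_i` and the exponentials: `d l > d + 2 l`. -/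
theorem gelK2 {θ : ℂ} (hθ : Transcendental ℚ θ) {d l : ℕ} (x : Fin d → ℂ) (y : Fin l → ℂ)
    (hx : LinearIndependent ℚ x) (hy : LinearIndependent ℚ y) (hdl : d + 2 * l < d * l)
    (hax : ∀ i, IsAlgebraic (IntermediateField.adjoin ℚ {θ}) (x i))
    (haxy : ∀ i j, IsAlgebraic (IntermediateField.adjoin ℚ {θ}) (Complex.exp (x i * y j))) :
    False := by
  have hd : 2 < d := by
    by_contra h
    have : d ≤ 2 := by omega
    interval_cases d <;> omega
  have hl : 1 ≤ l := by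
    by_contra h
    have : l = 0 := by omega
    subst this
    omega
  obtain ⟨e, rfl⟩ : ∃ e, d = e + 1 := ⟨d - 1, by omega⟩
  -- a = 3 (d - 1), b = 3 (l + 1), ρ = a + b = 3 (d + l)
  refine gel_general hθ x y hx hy (3 * (e + 1 + l)) 0 (3 * e) (3 * (l + 1)) (3 * (e + 1 + l) + 1)
    (Or.inr hax) (Or.inl rfl) haxy (by omega) hl (by ring) (by omega) (by omega) (by omega) ?_
  have h1 : (e + 1) * (3 * (l + 1)) = 3 * ((e + 1) * l) + 3 * (e + 1) := by ring
  rw [h1]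
  omega

end Pool.Agent.W242.GG
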