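import Pool.Agent.W242.GG.PolyDim2

/-!
# Powers of a transcendental number and linear forms in logarithms
-/

set_option autoImplicit false

namespace Pool.Agent.W242.GG

open Polynomial Module Finset
open Pool.Agent.H301R2.SSE

open Classical in
/-- monomials -/
theorem lt_pow {t c : ℂ} (ht : Transcendental ℚ t) (hc : c ≠ 0) (K : ℕ) :
    ((((Icc 1 K).filter (fun k : ℕ => c * t ^ k ∈ Lt)).card : ℕ) : ℝ) ≤ 2 * Real.sqrt K + 1 := by
  have h := grid_bound (fun k : ℕ => c * t ^ k ∈ Lt) K 2 2 (by norm_num) (by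
    intro a b ha hb h
    have htB := tr_QB ht
    have hlt : LinearIndependent QB (fun n : ℕ => t ^ n) := by
      have h1 := (Polynomial.basisMonomials QB).linearIndependent
      have h2 := h1.map' (Polynomial.aeval t).toLinearMap (by
        rw [LinearMap.ker_eq_bot]
        exact transcendental_iff_injective.1 htB)
      have h3 : (fun n : ℕ => t ^ n) = (Polynomial.aeval t).toLinearMap ∘
          (Polynomial.basisMonomials QB) := by
        funext n
        simp
      rw [h3]; exact h2
    have hla := hlt.comp a ha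
    have hlb : LinearIndependent QB (fun j => c * t ^ b j) :=
      (hlt.comp b hb).map' (LinearMap.mulLeft QB c)
        (LinearMap.ker_eq_bot.2 (mul_right_injective₀ hc))
    refine strong_six (fun i => t ^ a i) (fun j => c * t ^ b j) ?_ ?_ ?_
    · intro x y hx hy hxy
      rw [Fintype.linearIndependent_iff] at hla
      have h2 := hla ![⟨x, mem_QB.2 hx⟩, ⟨y, mem_QB.2 hy⟩] (by
        rw [Fin.sum_univ_two]
        exact hxy)
      exact ⟨congrArg Subtype.val (h2 0), congrArg Subtype.val (h2 1)⟩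
    · intro g hg hs j
      rw [Fintype.linearIndependent_iff] at hlb
      have h2 := hlb (fun j => ⟨g j, mem_QB.2 (hg j)⟩) hs j
      exact congrArg Subtype.val h2
    · intro i j
      have := h i j
      rw [pow_add] at this
      convert this using 1
      ring)
  have := real_bound (by norm_num) h 2 (by norm_num) (by norm_num)
  rw [Real.sqrt_eq_rpow]
  norm_num at this ⊢
  exact this

open Classical in
/-- two variables -/
theorem lt_grid {t u : ℂ} (ht : Transcendental ℚ t) (hu : u ≠ 0) (N : ℕ) :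
    ((((Icc 1 N ×ˢ range (N + 1)).filter (fun p : ℕ × ℕ => t ^ p.1 * u ^ p.2 ∈ Lt)).card : ℕ) : ℝ) ≤
      (N + 1) * (2 * Real.sqrt N + 1) := by
  have h1 : (Icc 1 N ×ˢ range (N + 1)).filter (fun p : ℕ × ℕ => t ^ p.1 * u ^ p.2 ∈ Lt) ⊆
      (range (N + 1)).biUnion
        (fun k => ((Icc 1 N).filter (fun j : ℕ => u ^ k * t ^ j ∈ Lt)) ×ˢ {k}) := by
    rintro ⟨j, k⟩ hp
    rw [mem_filter, mem_product] at hp
    rw [mem_biUnion]
    refine ⟨k, hp.1.2, ?_⟩
    rw [mem_product, mem_singleton, mem_filter]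
    refine ⟨⟨hp.1.1, ?_⟩, rfl⟩
    have := hp.2
    rwa [mul_comm] at this
  have h2 : (((range (N + 1)).biUnion (fun k => ((Icc 1 N).filter
      (fun j : ℕ => u ^ k * t ^ j ∈ Lt)) ×ˢ {k})).card : ℝ) ≤
      ∑ k ∈ range (N + 1), (2 * Real.sqrt N + 1) := by
    refine le_trans (Nat.cast_le.2 Finset.card_biUnion_le) ?_
    push_cast
    apply Finset.sum_le_sum
    intro k _
    rw [card_product, card_singleton, mul_one]
    exact lt_pow ht (pow_ne_zero _ hu) N
  refine le_trans (by exact_mod_cast Finset.card_le_card h1) (h2.trans ?_)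
  rw [Finset.sum_const, card_range, nsmul_eq_mul]
  push_cast
  exact le_rfl

/-- `1, u, z` are linearly independent over the algebraic numbers if `u` is a transcendental
linear form in logarithms and `z` is not a linear form in logarithms -/
theorem li_three {u z : ℂ} (hu : Transcendental ℚ u) (huL : u ∈ Lt) (hz : z ∉ Lt) :
    LinearIndependent QB ![1, u, z] := by
  rw [Fintype.linearIndependent_iff]
  intro g hg
  rw [Fin.sum_univ_three] at hg
  simp only [Matrix.cons_val_zero, Matrix.cons_val_one, Matrix.cons_val] at hg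
  have h2 : g 2 = 0 := by
    by_contra h
    apply hz
    have h3 : z = (g 2)⁻¹ • (-(g 0 • (1 : ℂ) + g 1 • u)) := by
      have h4 : g 2 • z = -(g 0 • (1 : ℂ) + g 1 • u) := by
        linear_combination hg
      rw [← h4, smul_smul, inv_mul_cancel₀ h, one_smul]
    rw [h3]
    exact Lt.smul_mem _ (Lt.neg_mem (Lt.add_mem (Lt.smul_mem _ Lt_one) (Lt.smul_mem _ huL)))
  rw [h2, zero_smul, add_zero] at hg
  have huB := tr_QB hu
  have h5 := li_pow_fin huB 2
  rw [Fintype.linearIndependent_iff] at h5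
  have h6 := h5 ![g 0, g 1] (by
    rw [Fin.sum_univ_two]
    simpa using hg)
  intro i
  fin_cases i
  · exact h6 0
  · exact h6 1
  · exact h2

theorem pi_Lt : (Real.pi : ℂ) ∈ Lt := by
  have h1 : (Real.pi : ℂ) * Complex.I ∈ Lt := Lt_log (by
    rw [Complex.exp_pi_mul_I]
    exact isAlgebraic_one.neg)
  have hI : IsAlgebraic ℚ (-Complex.I) := by
    refine IsAlgebraic.neg ?_
    refine ⟨X ^ 2 + 1, ?_, by simp⟩
    intro h
    have := congrArg (Polynomial.eval 0) h
    simp at this
  have h2 := Lt_mul hI h1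
  have e : -Complex.I * ((Real.pi : ℂ) * Complex.I) = Real.pi := by
    linear_combination (-(Real.pi : ℂ)) * Complex.I_mul_I
  rwa [e] at h2

/-- the space spanned by `c, c t, ..., c t ^ n` -/
noncomputable def powSp (c t : ℂ) (n : ℕ) : Submodule QB ℂ :=
  Submodule.span QB {z : ℂ | ∃ j ≤ n, z = c * t ^ j}

theorem powSp_eq {t c : ℂ} (n : ℕ) : powSp c t n = (degreeLT QB (n + 1)).map
    ((LinearMap.mulLeft QB c).comp (aeval t : QB[X] →ₐ[QB] ℂ).toLinearMap) := by
  classical
  rw [degreeLT_eq_span_X_pow, Submodule.map_span]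
  unfold powSp
  congr 1
  ext z
  constructor
  · rintro ⟨j, hj, rfl⟩
    refine ⟨X ^ j, ?_, ?_⟩
    · rw [coe_image, Set.mem_image]
      exact ⟨j, by simpa using Nat.lt_succ_of_le hj, rfl⟩
    · simp
  · rintro ⟨P, hP, rfl⟩
    rw [coe_image, Set.mem_image] at hP
    obtain ⟨j, hj, rfl⟩ := hP
    refine ⟨j, ?_, ?_⟩
    · have : j < n + 1 := by simpa using hj
      omega
    · simp

theorem val_inj {t c : ℂ} (ht : Transcendental ℚ t) (hc : c ≠ 0) : Function.Injective
    ((LinearMap.mulLeft QB c).comp (aeval t : QB[X] →ₐ[QB] ℂ).toLinearMap) := by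
  intro a b hab
  have h3 : c * aeval t a = c * aeval t b := hab
  exact transcendental_iff_injective.1 (tr_QB ht) (mul_left_cancel₀ hc h3)

theorem powSp_finrank {t c : ℂ} (ht : Transcendental ℚ t) (hc : c ≠ 0) (n : ℕ) :
    finrank QB (powSp c t n) = n + 1 := by
  rw [powSp_eq, ← (Submodule.equivMapOfInjective _ (val_inj ht hc) _).finrank_eq,
    finrank_degreeLT]

theorem powSp_fin {t c : ℂ} (n : ℕ) : FiniteDimensional QB (powSp c t n) := by
  have := finite_degreeLT (k := QB) (n + 1)
  rw [powSp_eq]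
  infer_instance

/-- the intersection with the linear forms in logarithms -/
theorem powSp_inf {t c : ℂ} (ht : Transcendental ℚ t) (hc : c ≠ 0) (n : ℕ) :
    finrank QB (powSp c t n ⊓ Lt : Submodule QB ℂ) ≤ (n + 4) / 2 := by
  set f := (LinearMap.mulLeft QB c).comp (aeval t : QB[X] →ₐ[QB] ℂ).toLinearMap with hf
  have h1 : (powSp c t n ⊓ Lt : Submodule QB ℂ) =
      (degreeLT QB (n + 1) ⊓ polyG Lt c t).map f := by
    rw [powSp_eq]
    ext z
    constructor
    · rintro ⟨⟨P, hP, rfl⟩, hz⟩
      exact ⟨P, ⟨hP, hz⟩, rfl⟩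
    · rintro ⟨P, hP, rfl⟩
      exact ⟨⟨P, hP.1, rfl⟩, hP.2⟩
  rw [h1, ← (Submodule.equivMapOfInjective f (val_inj ht hc) _).finrank_eq]
  have h2 := span_Lt ht hc n ((degreeLT QB (n + 1) ⊓ polyG Lt c t : Submodule QB QB[X]) :
    Set QB[X]) (by
      rintro P ⟨h3, h4⟩
      refine ⟨?_, h4⟩
      have h5 : P ∈ degreeLT QB (n + 1) := h3
      rw [mem_degreeLT] at h5
      rcases eq_or_ne P 0 with h0 | h0
      · simp [h0]
      · rw [degree_eq_natDegree h0] at h5
        have : P.natDegree < n + 1 := by exact_mod_cast h5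
        omega)
  rw [Submodule.span_eq] at h2
  exact h2

/-- adding the powers to a finite list of linear forms in logarithms -/
theorem powSp_sup {t c : ℂ} (ht : Transcendental ℚ t) (hc : c ≠ 0) (n : ℕ) (Λ : Submodule QB ℂ)
    (hΛ : Λ ≤ Lt) [FiniteDimensional QB Λ] :
    finrank QB Λ + (n + 1) ≤ finrank QB (Λ ⊔ powSp c t n : Submodule QB ℂ) + (n + 4) / 2 := by
  have := powSp_fin (t := t) (c := c) n
  have h1 := Submodule.finrank_sup_add_finrank_inf_eq Λ (powSp c t n)
  rw [powSp_finrank ht hc] at h1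
  have h2 : finrank QB (Λ ⊓ powSp c t n : Submodule QB ℂ) ≤ (n + 4) / 2 := by
    refine le_trans (Submodule.finrank_mono (t := powSp c t n ⊓ Lt) ?_) (powSp_inf ht hc n)
    exact le_inf inf_le_right (inf_le_left.trans hΛ)
  omega

end Pool.Agent.W242.GG
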