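import Pool.Agent.W242.GG.LogDim
import Pool.Agent.W256.Growth
import Pool.Agent.W254.HP.Prod

/-!
# Square root bound for polynomials whose values are linear forms in logarithms
-/

set_option autoImplicit false

namespace Pool.Agent.W242.GG

open Polynomial Module
open Pool.Agent.H301R2.SSE

theorem growth_Lt (V X : Submodule QB ℂ) [FiniteDimensional QB V] [FiniteDimensional QB X]
    (hV : V ≤ Lt) (hV0 : V ≠ ⊥) (s : ℕ) (hs : s ≤ finrank QB X) :
    finrank QB X + s * finrank QB V ≤ finrank QB (X * V : Submodule QB ℂ) + s * s := by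
  have : IsAlgClosed QB := (algebraicClosure.isAlgClosure ℚ ℂ).isAlgClosed
  refine Pool.Agent.W256.growth_of X V hV0 s hs ?_
  intro Y hYX hYs
  have : FiniteDimensional QB Y := Submodule.finiteDimensional_of_le hYX
  have : FiniteDimensional QB (Y * V : Submodule QB ℂ) :=
    Module.Finite.iff_fg.mpr (Submodule.FG.mul (Module.Finite.iff_fg.mp inferInstance)
      (Module.Finite.iff_fg.mp inferInstance))
  have h := Pool.Agent.W254.HP.product_le Y V (Y * V) hV
    (fun x hx w hw => Submodule.mul_mem_mul hx hw)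
  rwa [hYs] at h

theorem powSp_mul {c t : ℂ} (k n : ℕ) (V : Submodule QB ℂ) (hV : V ≤ powSp c t n) :
    (powSp 1 t k * V : Submodule QB ℂ) ≤ powSp c t (k + n) := by
  refine (mul_le_mul' le_rfl hV).trans ?_
  unfold powSp
  rw [Submodule.span_mul_span]
  apply Submodule.span_mono
  rintro _ ⟨a, ⟨i, hi, rfl⟩, b, ⟨j, hj, rfl⟩, rfl⟩
  refine ⟨i + j, by omega, ?_⟩
  change 1 * t ^ i * (c * t ^ j) = c * t ^ (i + j)
  rw [pow_add]; ring

/-- the square root bound -/
theorem powSp_sq {t c : ℂ} (ht : Transcendental ℚ t) (hc : c ≠ 0) (n : ℕ) (V : Submodule QB ℂ)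
    (hV : V ≤ Lt) (hVn : V ≤ powSp c t n) : finrank QB V * finrank QB V ≤ 4 * n + 1 := by
  have := powSp_fin (t := t) (c := c) n
  have hVf : FiniteDimensional QB V := Submodule.finiteDimensional_of_le hVn
  have := powSp_fin (t := t) (c := 1) n
  rcases eq_or_ne V ⊥ with h0 | h0
  · rw [h0]; simp
  have hw : finrank QB V ≤ n + 1 := by
    have := Submodule.finrank_mono hVn
    rwa [powSp_finrank ht hc] at this
  have key : ∀ s, s ≤ n + 1 → s * finrank QB V ≤ n + s * s := by
    intro s hs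
    have h1 := growth_Lt V (powSp 1 t n) hV h0 s (by rwa [powSp_finrank ht one_ne_zero])
    rw [powSp_finrank ht one_ne_zero] at h1
    have h3 := powSp_fin (t := t) (c := c) (n + n)
    have h2 := Submodule.finrank_mono (powSp_mul n n V hVn)
    rw [powSp_finrank ht hc] at h2
    omega
  set w := finrank QB V with hwdef
  have hk := key (w / 2) (by omega)
  rcases Nat.even_or_odd' w with ⟨m, hm | hm⟩
  · have e : w / 2 = m := by omega
    rw [e, hm] at hk
    rw [hm]
    nlinarith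
  · have e : w / 2 = m := by omega
    rw [e, hm] at hk
    rw [hm]
    nlinarith

/-- adding the powers to a finite list of linear forms in logarithms -/
theorem powSp_sup_sq {t c : ℂ} (ht : Transcendental ℚ t) (hc : c ≠ 0) (n : ℕ)
    (Λ : Submodule QB ℂ) (hΛ : Λ ≤ Lt) [FiniteDimensional QB Λ] :
    ∃ w : ℕ, w * w ≤ 4 * n + 1 ∧
      finrank QB (Λ ⊔ powSp c t n : Submodule QB ℂ) + w = finrank QB Λ + (n + 1) := by
  have := powSp_fin (t := t) (c := c) n
  have h1 := Submodule.finrank_sup_add_finrank_inf_eq Λ (powSp c t n)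
  rw [powSp_finrank ht hc] at h1
  exact ⟨_, powSp_sq ht hc n (Λ ⊓ powSp c t n) (inf_le_left.trans hΛ) inf_le_right, h1⟩

/-- polynomials -/
theorem poly_sq {t c : ℂ} (ht : Transcendental ℚ t) (hc : c ≠ 0) (n : ℕ) (S : Set QB[X])
    (hS : ∀ P ∈ S, P.natDegree ≤ n ∧ c * aeval t P ∈ Lt) :
    finrank QB (Submodule.span QB S) * finrank QB (Submodule.span QB S) ≤ 4 * n + 1 := by
  set f := (LinearMap.mulLeft QB c).comp (aeval t : QB[X] →ₐ[QB] ℂ).toLinearMap with hf
  rw [(Submodule.equivMapOfInjective f (val_inj ht hc) (Submodule.span QB S)).finrank_eq]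
  apply powSp_sq ht hc n
  · rw [Submodule.map_span, Submodule.span_le]
    rintro _ ⟨P, hP, rfl⟩
    exact (hS P hP).2
  · rw [powSp_eq, ← hf]
    apply Submodule.map_mono
    rw [Submodule.span_le]
    intro P hP
    change P ∈ degreeLT QB (n + 1)
    rw [mem_degreeLT]
    refine degree_le_natDegree.trans_lt ?_
    exact_mod_cast Nat.lt_succ_of_le (hS P hP).1

theorem poly_alg_sq {t c : ℂ} (ht : Transcendental ℚ t) (hc : c ≠ 0) (n : ℕ) (S : Set QB[X])
    (hS : ∀ P ∈ S, P.natDegree ≤ n ∧ IsAlgebraic ℚ (Complex.exp (c * aeval t P))) :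
    finrank QB (Submodule.span QB S) * finrank QB (Submodule.span QB S) ≤ 4 * n + 1 :=
  poly_sq ht hc n S (fun P hP => ⟨(hS P hP).1, Lt_log (hS P hP).2⟩)

/-- the space spanned by the `t ^ j u ^ k`, `j ≤ a`, `k ≤ b` -/
noncomputable def gridSp (t u : ℂ) (a b : ℕ) : Submodule QB ℂ :=
  Submodule.span QB {z : ℂ | ∃ j ≤ a, ∃ k ≤ b, z = t ^ j * u ^ k}

theorem gridSp_eq (t u : ℂ) (a b : ℕ) : gridSp t u a b = Submodule.span QB
    (Set.range (fun p : Fin (a + 1) × Fin (b + 1) => t ^ (p.1 : ℕ) * u ^ (p.2 : ℕ))) := by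
  unfold gridSp
  congr 1
  ext z
  constructor
  · rintro ⟨j, hj, k, hk, rfl⟩
    exact ⟨(⟨j, by omega⟩, ⟨k, by omega⟩), rfl⟩
  · rintro ⟨⟨j, k⟩, rfl⟩
    exact ⟨j, by omega, k, by omega, rfl⟩

theorem gridSp_fin (t u : ℂ) (a b : ℕ) : FiniteDimensional QB (gridSp t u a b) := by
  rw [gridSp_eq]
  exact FiniteDimensional.span_of_finite QB (Set.finite_range _)

theorem gridSp_le (t u : ℂ) (a b : ℕ) : finrank QB (gridSp t u a b) ≤ (a + 1) * (b + 1) := by
  rw [gridSp_eq]
  refine (finrank_range_le_card _).trans ?_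
  simp

/-- two variables -/
theorem grid_dim {t : ℂ} (ht : Transcendental ℚ t) (u : ℂ) (N : ℕ) :
    finrank QB (gridSp t u N N ⊓ Lt : Submodule QB ℂ) ≤ 3 * N + 1 := by
  have := gridSp_fin t u N N
  have h4 := gridSp_fin t u (N + N) N
  have := powSp_fin (t := t) (c := 1) N
  set V : Submodule QB ℂ := gridSp t u N N ⊓ Lt with hV
  have hVf : FiniteDimensional QB V := Submodule.finiteDimensional_of_le inf_le_left
  rcases eq_or_ne V ⊥ with h0 | h0
  · rw [h0]; simp
  have h1 := growth_Lt V (powSp 1 t N) inf_le_right h0 (N + 1) (by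
    rw [powSp_finrank ht one_ne_zero])
  rw [powSp_finrank ht one_ne_zero] at h1
  have h2 : (powSp 1 t N * V : Submodule QB ℂ) ≤ gridSp t u (N + N) N := by
    refine (mul_le_mul' le_rfl inf_le_left).trans ?_
    unfold powSp gridSp
    rw [Submodule.span_mul_span]
    apply Submodule.span_mono
    rintro _ ⟨a, ⟨i, hi, rfl⟩, b, ⟨j, hj, k, hk, rfl⟩, rfl⟩
    refine ⟨i + j, by omega, k, hk, ?_⟩
    change 1 * t ^ i * (t ^ j * u ^ k) = t ^ (i + j) * u ^ k
    rw [pow_add]; ring
  have h3 := (Submodule.finrank_mono h2).trans (gridSp_le t u (N + N) N)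
  nlinarith

end Pool.Agent.W242.GG
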