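import Pool.Agent.W242.GG.EE
import Pool.Agent.H137R5.TowTop

/-!
# Families through `π^π`
-/

set_option autoImplicit false

namespace Pool.Agent.W242.GG

open Finset
open Pool.Agent.H301R2.SSE Pool.Agent.H335R2 Pool.Agent.H137R5.Tow Pool.Agent.H462R2.PiE

open Polynomial in
/-- a polynomial relation with algebraic coefficients for a transcendental number is trivial -/
theorem coeffs_zero {t : ℂ} (ht : Transcendental ℚ t) {m : ℕ} (c : Fin m → ℂ)
    (hc : ∀ i, IsAlgebraic ℚ (c i)) (h : ∑ i, c i * t ^ (i : ℕ) = 0) : ∀ i, c i = 0 := by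
  let c' : Fin m → QB := fun i => ⟨c i, mem_QB.mpr (hc i)⟩
  let p : Polynomial QB := ∑ i : Fin m, Polynomial.C (c' i) * Polynomial.X ^ (i : ℕ)
  have hp : Polynomial.aeval t p = 0 := by
    simp only [p, map_sum, map_mul, map_pow, Polynomial.aeval_C, Polynomial.aeval_X]
    exact h
  have hp0 : p = 0 := by
    by_contra hne
    have h1 : IsAlgebraic QB t := ⟨p, hne, hp⟩
    have : Algebra.IsAlgebraic ℚ QB := algebraicClosure.isAlgebraic ℚ ℂ
    exact ht (h1.restrictScalars ℚ)
  intro i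
  have h2 := congrArg (fun q => Polynomial.coeff q (i : ℕ)) hp0
  simp only [p, Polynomial.finsetSum_coeff, Polynomial.coeff_C_mul, Polynomial.coeff_X_pow,
    Polynomial.coeff_zero] at h2
  rw [Finset.sum_eq_single i] at h2
  · simp only [if_true, mul_one] at h2
    exact congrArg Subtype.val h2
  · intro j _ hj
    rw [if_neg (fun h => hj (Fin.ext h.symm)), mul_zero]
  · intro h; exact absurd (Finset.mem_univ i) h

/-- independence of `1, f_1, f_2, f_3` over the algebraic numbers -/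
theorem li_four {t : ℂ} (ht : Transcendental ℚ t) {s1 s2 s3 : ℂ} (h1 : IsAlgebraic ℚ s1)
    (h2 : IsAlgebraic ℚ s2) (h3 : IsAlgebraic ℚ s3) (h12 : s1 ≠ s2) (h13 : s1 ≠ s3)
    (h23 : s2 ≠ s3) (a b c d : ℂ) (ha : IsAlgebraic ℚ a) (hb : IsAlgebraic ℚ b)
    (hc : IsAlgebraic ℚ c) (hd : IsAlgebraic ℚ d)
    (h : a + b * fs t s1 + c * fs t s2 + d * fs t s3 = 0) : a = 0 ∧ b = 0 ∧ c = 0 ∧ d = 0 := by
  have n1 := tr_ne ht h1
  have n2 := tr_ne ht h2
  have n3 := tr_ne ht h3
  have e1 := fs_mul n1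
  have e2 := fs_mul n2
  have e3 := fs_mul n3
  have e : a * ((1 - s1 * t) * (1 - s2 * t) * (1 - s3 * t)) +
      b * (t * ((1 - s2 * t) * (1 - s3 * t))) + c * (t * ((1 - s1 * t) * (1 - s3 * t))) +
      d * (t * ((1 - s1 * t) * (1 - s2 * t))) = 0 := by
    linear_combination (1 - s1 * t) * (1 - s2 * t) * (1 - s3 * t) * h -
      b * (1 - s2 * t) * (1 - s3 * t) * e1 - c * (1 - s1 * t) * (1 - s3 * t) * e2 -
      d * (1 - s1 * t) * (1 - s2 * t) * e3
  -- the polynomial in `t`
  have ha0 : a = 0 := by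
    have hp := coeffs_zero ht ![a, b + c + d - a * (s1 + s2 + s3),
      a * (s1 * s2 + s1 * s3 + s2 * s3) - b * (s2 + s3) - c * (s1 + s3) - d * (s1 + s2),
      -a * (s1 * s2 * s3) + b * (s2 * s3) + c * (s1 * s3) + d * (s1 * s2)] (by
        intro i
        fin_cases i
        · exact ha
        · exact ((hb.add hc).add hd).sub (ha.mul ((h1.add h2).add h3))
        · exact (((ha.mul (((h1.mul h2).add (h1.mul h3)).add (h2.mul h3))).sub
            (hb.mul (h2.add h3))).sub (hc.mul (h1.add h3))).sub (hd.mul (h1.add h2))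
        · exact (((ha.neg.mul ((h1.mul h2).mul h3)).add (hb.mul (h2.mul h3))).add
            (hc.mul (h1.mul h3))).add (hd.mul (h1.mul h2)))
      (by
        rw [Fin.sum_univ_four]
        simp only [Matrix.cons_val_zero, Matrix.cons_val_one, Matrix.cons_val, Fin.val_zero,
          Fin.val_one, Fin.val_two, Fin.isValue, Fin.coe_ofNat_eq_mod, Nat.reduceMod]
        linear_combination e)
    exact hp 0
  rw [ha0, zero_add] at h
  obtain ⟨g1, g2, g3⟩ := ind_three ht h1 h2 h3 h12 h13 h23 b c d hb hc hd h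
  exact ⟨ha0, g1, g2, g3⟩

section K2

variable {t lam : ℂ} (ht : Transcendental ℚ t) (hl : lam ≠ 0)

include ht hl

/-- five members of the family over the field generated by `t`; `λ` arbitrary with `e^λ` in the
field -/
theorem five_K (el : IsAlgebraic (IntermediateField.adjoin ℚ {t}) (Complex.exp lam))
    {s1 s2 s3 s4 s5 : ℚ} (h12 : s1 ≠ s2) (h13 : s1 ≠ s3) (h14 : s1 ≠ s4) (h15 : s1 ≠ s5)
    (h23 : s2 ≠ s3) (h24 : s2 ≠ s4) (h25 : s2 ≠ s5) (h34 : s3 ≠ s4) (h35 : s3 ≠ s5)
    (h45 : s4 ≠ s5) (h40 : s4 ≠ 0) (h50 : s5 ≠ 0)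
    (e1 : IsAlgebraic (IntermediateField.adjoin ℚ {t}) (Complex.exp (lam * fs t s1)))
    (e2 : IsAlgebraic (IntermediateField.adjoin ℚ {t}) (Complex.exp (lam * fs t s2)))
    (e3 : IsAlgebraic (IntermediateField.adjoin ℚ {t}) (Complex.exp (lam * fs t s3)))
    (e4 : IsAlgebraic (IntermediateField.adjoin ℚ {t}) (Complex.exp (lam * fs t s4)))
    (e5 : IsAlgebraic (IntermediateField.adjoin ℚ {t}) (Complex.exp (lam * fs t s5))) :
    False := by
  have cst : ∀ {a b : ℚ}, a ≠ b → (a : ℂ) ≠ (b : ℂ) := fun h => by exact_mod_cast h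
  have hfs : ∀ q : ℚ, IsAlgebraic (IntermediateField.adjoin ℚ {t}) (fs t q) := fun q =>
    fs_alg (ratC_alg q)
  have hρ : ∀ r : ℚ, IsAlgebraic (IntermediateField.adjoin ℚ {t}) (1 / (1 - (r : ℂ) * t)) := by
    intro r
    rw [fs_one (tr_ne ht (ratC_alg r))]
    exact isAlgebraic_one.add ((alg_rat r).mul (hfs r))
  have key : ∀ s r : ℚ, s ≠ r →
      IsAlgebraic (IntermediateField.adjoin ℚ {t}) (Complex.exp (lam * fs t s)) →
      IsAlgebraic (IntermediateField.adjoin ℚ {t}) (Complex.exp (lam * fs t r)) →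
      IsAlgebraic (IntermediateField.adjoin ℚ {t})
        (Complex.exp (1 / (1 - (r : ℂ) * t) * (lam * fs t s))) := by
    intro s r hs hm hr
    have e := fs_rho (tr_ne ht (ratC_alg s)) (tr_ne ht (ratC_alg r))
    have d : ((s : ℂ) - r) ≠ 0 := sub_ne_zero.2 (by exact_mod_cast hs)
    have : 1 / (1 - (r : ℂ) * t) * (lam * fs t s) =
        ((s * (s - r)⁻¹ : ℚ) : ℂ) * (lam * fs t s) +
          ((-(r * (s - r)⁻¹) : ℚ) : ℂ) * (lam * fs t r) := by
      push_cast
      apply mul_left_cancel₀ d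
      have e5 : ((s : ℂ) - r) * ((s : ℂ) - r)⁻¹ = 1 := mul_inv_cancel₀ d
      linear_combination lam * e - (s * (lam * fs t s) - r * (lam * fs t r)) * e5
    rw [this]
    exact exp_add_alg (exp_rat hm _) (exp_rat hr _)
  have key1 : ∀ r : ℚ, IsAlgebraic (IntermediateField.adjoin ℚ {t}) (Complex.exp (lam * fs t r)) →
      IsAlgebraic (IntermediateField.adjoin ℚ {t})
        (Complex.exp (1 / (1 - (r : ℂ) * t) * (lam * 1))) := by
    intro r hr
    have : 1 / (1 - (r : ℂ) * t) * (lam * 1) = lam + (r : ℂ) * (lam * fs t r) := by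
      rw [fs_one (tr_ne ht (ratC_alg r))]; ring
    rw [this]
    exact exp_add_alg el (exp_rat hr _)
  have hX : LinearIndependent ℚ ![(1 : ℂ), 1 / (1 - (s4 : ℂ) * t), 1 / (1 - (s5 : ℂ) * t)] := by
    apply li_of_ind3
    intro a b c ha hb hc h
    rw [fs_one (tr_ne ht (ratC_alg s4)), fs_one (tr_ne ht (ratC_alg s5))] at h
    have h1 := ind_one ht (ratC_alg s4) (ratC_alg s5) (cst h45) (a + b + c) (b * s4) (c * s5)
      ((ha.add hb).add hc) (hb.mul (ratC_alg s4)) (hc.mul (ratC_alg s5)) (by linear_combination h)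
    have hb0 : b = 0 := (mul_eq_zero.1 h1.2.1).resolve_right (by exact_mod_cast h40)
    have hc0 : c = 0 := (mul_eq_zero.1 h1.2.2).resolve_right (by exact_mod_cast h50)
    refine ⟨?_, hb0, hc0⟩
    have := h1.1
    rw [hb0, hc0] at this
    simpa using this
  have hY : LinearIndependent ℚ ![lam * 1, lam * fs t s1, lam * fs t s2, lam * fs t s3] := by
    rw [Fintype.linearIndependent_iff]
    intro g hg
    rw [Fin.sum_univ_four] at hg
    simp only [Matrix.cons_val_zero, Matrix.cons_val_one, Matrix.cons_val, Rat.smul_def] at hg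
    have h1 := li_four ht (ratC_alg s1) (ratC_alg s2) (ratC_alg s3) (cst h12) (cst h13) (cst h23)
      (g 0) (g 1) (g 2) (g 3) (ratC_alg _) (ratC_alg _) (ratC_alg _) (ratC_alg _) (by
        apply mul_left_cancel₀ hl
        linear_combination hg)
    intro i
    fin_cases i
    · exact_mod_cast h1.1
    · exact_mod_cast h1.2.1
    · exact_mod_cast h1.2.2.1
    · exact_mod_cast h1.2.2.2
  refine gelK2 ht _ _ hX hY (by norm_num) ?_ ?_
  · intro i
    fin_cases i
    · exact isAlgebraic_one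
    · exact hρ s4
    · exact hρ s5
  · intro i j
    fin_cases i <;> fin_cases j
    · simpa using el
    · simpa using e1
    · simpa using e2
    · simpa using e3
    · exact key1 s4 e4
    · exact key s1 s4 h14 e1 e4
    · exact key s2 s4 h24 e2 e4
    · exact key s3 s4 h34 e3 e4
    · exact key1 s5 e5
    · exact key s1 s5 h15 e1 e5
    · exact key s2 s5 h25 e2 e5
    · exact key s3 s5 h35 e3 e5

end K2

theorem encard_le_nat {α : Type*} (A : Set α) (k : ℕ)
    (h : ∀ S : Finset α, S.card = k + 1 → (∀ s ∈ S, s ∈ A) → False) : A.encard ≤ k := by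
  classical
  by_contra hcon
  push Not at hcon
  have h4 : ((k + 1 : ℕ) : ℕ∞) ≤ A.encard := by
    have := Order.add_one_le_of_lt hcon
    push_cast
    exact this
  obtain ⟨T, hT, hc⟩ := Set.exists_subset_encard_eq h4
  have hfin : T.Finite := Set.finite_of_encard_eq_coe hc
  refine h hfin.toFinset ?_ (fun s hs => hT (hfin.mem_toFinset.1 hs))
  have := hfin.encard_eq_coe_toFinset_card
  rw [this] at hc
  exact_mod_cast hc

theorem five_K_finset {t lam : ℂ} (ht : Transcendental ℚ t) (hl : lam ≠ 0)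
    (el : IsAlgebraic (IntermediateField.adjoin ℚ {t}) (Complex.exp lam))
    (S : Finset ℚ) (hS : S.card = 5)
    (h : ∀ s ∈ S, IsAlgebraic (IntermediateField.adjoin ℚ {t}) (Complex.exp (lam * fs t s))) :
    False := by
  classical
  have h1 : 4 ≤ (S.erase 0).card := by
    have := Finset.pred_card_le_card_erase (s := S) (a := 0)
    omega
  obtain ⟨U, hU, hUc⟩ := Finset.exists_subset_card_eq (show 2 ≤ (S.erase 0).card by omega)
  obtain ⟨s4, s5, h45, rfl⟩ := Finset.card_eq_two.1 hUc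
  have m4 := hU (show s4 ∈ ({s4, s5} : Finset ℚ) by simp)
  have m5 := hU (show s5 ∈ ({s4, s5} : Finset ℚ) by simp)
  rw [Finset.mem_erase] at m4 m5
  have h2 : (S \ {s4, s5}).card = 3 := by
    rw [Finset.card_sdiff_of_subset, hS, hUc]
    intro x hx
    exact Finset.mem_of_mem_erase (hU hx)
  obtain ⟨s1, s2, s3, h12, h13, h23, hE⟩ := Finset.card_eq_three.1 h2
  have g1 : s1 ∈ S \ {s4, s5} := by rw [hE]; simp
  have g2 : s2 ∈ S \ {s4, s5} := by rw [hE]; simp
  have g3 : s3 ∈ S \ {s4, s5} := by rw [hE]; simp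
  rw [Finset.mem_sdiff, Finset.mem_insert, Finset.mem_singleton, not_or] at g1 g2 g3
  exact five_K ht hl el h12 h13 g1.2.1 g1.2.2 h23 g2.2.1 g2.2.2 g3.2.1 g3.2.2 h45 m4.1 m5.1
    (h _ g1.1) (h _ g2.1) (h _ g3.1) (h _ m4.2) (h _ m5.2)

/-- `π^x` for complex `x` -/
noncomputable def piPow (x : ℂ) : ℂ := Complex.exp (((Real.log Real.pi : ℝ) : ℂ) * x)

theorem log_pi_ne : ((Real.log Real.pi : ℝ) : ℂ) ≠ 0 := by exact_mod_cast log_pi_pos.ne'

theorem exp_log_pi : Complex.exp ((Real.log Real.pi : ℝ) : ℂ) = (Real.pi : ℂ) := by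
  rw [← Complex.ofReal_exp, Real.exp_log Real.pi_pos]

theorem count_pipi_K : {s : ℚ | ¬ AlgebraicIndependent ℚ
    ![(Real.pi : ℂ), ((Real.pi ^ (Real.pi / (1 - s * Real.pi)) : ℝ) : ℂ)]}.encard ≤ 4 := by
  apply encard_le_nat _ 4
  intro S hS hmem
  refine five_K_finset piC_tr log_pi_ne (by rw [exp_log_pi]; exact self_alg _) S hS ?_
  intro s hs
  have h1 := dep_alg piC_tr (hmem s hs)
  rw [rpow_exp Real.pi_pos Real.pi s] at h1
  simpa using h1

theorem rpow_pow_exp {b : ℝ} (hb : 0 < b) (t : ℝ) (n : ℕ) :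
    ((b ^ (t ^ n) : ℝ) : ℂ) = Complex.exp (((Real.log b : ℝ) : ℂ) * (t : ℂ) ^ n) := by
  rw [Real.rpow_def_of_pos hb, Complex.ofReal_exp]
  push_cast
  rfl

open Classical in
theorem count_pipow (N : ℕ) : (((Icc 1 N).filter (fun n : ℕ => ¬ AlgebraicIndependent ℚ
    ![(Real.pi : ℂ), ((Real.pi ^ (Real.pi ^ n) : ℝ) : ℂ)])).card : ℝ) ≤
      3 * (N : ℝ) ^ (2 / 3 : ℝ) + 2 := by
  refine le_trans ?_ (pow_self piC_tr log_pi_ne N)
  have : (Icc 1 N).filter (fun n : ℕ => ¬ AlgebraicIndependent ℚ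
      ![(Real.pi : ℂ), ((Real.pi ^ (Real.pi ^ n) : ℝ) : ℂ)]) ⊆
      (Icc 1 N).filter (fun k : ℕ => IsAlgebraic (IntermediateField.adjoin ℚ {(Real.pi : ℂ)})
      (Complex.exp (((Real.log Real.pi : ℝ) : ℂ) * (Real.pi : ℂ) ^ k))) := by
    intro n hn
    rw [Finset.mem_filter] at hn ⊢
    have h1 := dep_alg piC_tr hn.2
    rw [rpow_pow_exp Real.pi_pos] at h1
    exact ⟨hn.1, h1⟩
  exact_mod_cast Finset.card_le_card this

open Classical in
theorem count_pipow_alg (N : ℕ) : (((Icc 1 N).filter (fun n : ℕ =>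
    IsAlgebraic ℚ (Real.pi ^ (Real.pi ^ n)))).card : ℝ) ≤ 2 * Real.sqrt N + 1 := by
  refine le_trans ?_ (topCount Real.pi (Real.log Real.pi)
    (fun h => piC_tr (alg_ofReal h)) log_pi_pos.ne' N)
  have : (Icc 1 N).filter (fun n : ℕ => IsAlgebraic ℚ (Real.pi ^ (Real.pi ^ n))) ⊆
      (Icc 1 N).filter (fun k : ℕ => InE Real.pi (Real.log Real.pi) k) := by
    intro n hn
    rw [Finset.mem_filter] at hn ⊢
    refine ⟨hn.1, ?_⟩
    apply Lt_log
    have h1 := alg_ofReal hn.2
    rw [rpow_pow_exp Real.pi_pos] at h1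
    convert h1 using 2
    push_cast
    ring
  exact_mod_cast Finset.card_le_card this

/-- two different consecutive pairs -/
theorem consecutive {m n : ℕ} (hmn : m ≠ n)
    (e1 : IsAlgebraic ℚ (Real.pi ^ (Real.pi ^ m))) (e2 : IsAlgebraic ℚ (Real.pi ^ (Real.pi ^ (m + 1))))
    (e3 : IsAlgebraic ℚ (Real.pi ^ (Real.pi ^ n)))
    (e4 : IsAlgebraic ℚ (Real.pi ^ (Real.pi ^ (n + 1)))) : False := by
  have g : ∀ k : ℕ, IsAlgebraic ℚ (Real.pi ^ (Real.pi ^ k)) →
      IsAlgebraic ℚ (Complex.exp (((Real.log Real.pi : ℝ) : ℂ) * (Real.pi : ℂ) ^ k)) := by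
    intro k hk
    have h1 := alg_ofReal hk
    rwa [rpow_pow_exp Real.pi_pos] at h1
  have g1 := g _ e1
  have g2 := g _ e2
  have g3 := g _ e3
  have g4 := g _ e4
  set lam : ℂ := ((Real.log Real.pi : ℝ) : ℂ) with hlam
  set t : ℂ := (Real.pi : ℂ) with ht
  have htt : Transcendental ℚ t := piC_tr
  have hl0 : lam ≠ 0 := log_pi_ne
  have ht0 := tr_ne0 htt
  by_cases hlt : IsAlgebraic (IntermediateField.adjoin ℚ {t}) lam
  · -- Brownawell-Waldschmidt
    have huv : LinearIndependent ℚ ![lam * t ^ m, lam * t ^ (m + 1)] := by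
      have h2 := li_pow htt ![m, m + 1] (by
        intro i j hij
        fin_cases i <;> fin_cases j
        · rfl
        · exact absurd hij (Nat.lt_succ_self m).ne
        · exact absurd hij (Nat.lt_succ_self m).ne'
        · rfl) lam hl0
      convert h2 using 1
      funext i
      fin_cases i <;> rfl
    have hx : ∀ q : ℚ, t ^ n / t ^ m ≠ q := by
      intro q hq
      rw [div_eq_iff (pow_ne_zero _ ht0)] at hq
      have h2 := li_pow htt ![n, m] (by
        intro i j hij
        fin_cases i <;> fin_cases j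
        · rfl
        · exact absurd hij hmn.symm
        · exact absurd hij hmn
        · rfl) 1 one_ne_zero
      rw [Fintype.linearIndependent_iff] at h2
      have h3 := h2 ![1, -q] (by
        rw [Fin.sum_univ_two]
        simp only [Matrix.cons_val_zero, Matrix.cons_val_one, one_mul, Rat.smul_def, Rat.cast_one,
          Rat.cast_neg]
        linear_combination hq) 0
      exact one_ne_zero h3
    refine bw' htt huv hx (hlt.mul (mem_base m)) (hlt.mul (mem_base (m + 1)))
      ((mem_base n).mul (mem_base m).inv) g1 g2 ?_ ?_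
    · have : t ^ n / t ^ m * (lam * t ^ m) = lam * t ^ n := by
        rw [div_mul_eq_mul_div, div_eq_iff (pow_ne_zero _ ht0)]; ring
      rw [this]
      exact g3.tower_top _
    · have : t ^ n / t ^ m * (lam * t ^ (m + 1)) = lam * t ^ (n + 1) := by
        rw [div_mul_eq_mul_div, div_eq_iff (pow_ne_zero _ ht0)]; ring
      rw [this]
      exact g4.tower_top _
  · refine core' t htt 1 (lam * t ^ m) (lam * t ^ n) ?_ Lt_one (Lt_log g1) (Lt_log g3)
      (by rw [mul_one]; exact pi_mem) ?_ ?_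
    · intro a b c ha hb hc h
      set G : ℂ := b * t ^ m + c * t ^ n with hG
      by_cases hG0 : G = 0
      · have ha0 : a = 0 := by
          rw [hG] at hG0
          linear_combination h - lam * hG0
        obtain ⟨k, hkm, hkn⟩ : ∃ k : ℕ, m ≠ k ∧ n ≠ k := ⟨m + n + 1, by omega, by omega⟩
        have h3 := powers t htt m n k hmn hkm hkn b c 0 hb hc isAlgebraic_zero (by
          rw [hG] at hG0; linear_combination hG0)
        exact ⟨ha0, h3.1, h3.2.1⟩
      · exfalso
        apply hlt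
        have hlG : lam = -a * G⁻¹ := by
          field_simp
          rw [hG]
          linear_combination h
        rw [hlG]
        exact (ha.tower_top _).neg.mul (((hb.tower_top _).mul (mem_base m)).add
          ((hc.tower_top _).mul (mem_base n))).inv
    · have : t * (lam * t ^ m) = lam * t ^ (m + 1) := by ring
      rw [this]
      exact Lt_log g2
    · have : t * (lam * t ^ n) = lam * t ^ (n + 1) := by ring
      rw [this]
      exact Lt_log g4

end Pool.Agent.W242.GG
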