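import Pool.Agent.W242.GG.Shift
import Pool.Agent.W242.GG.EE
import Pool.Agent.W242.GG.Tower

/-!
# Exponentials of polynomials: the exceptional polynomials form a space of small dimension
-/

set_option autoImplicit false

namespace Pool.Agent.W242.GG

open Polynomial Module
open Pool.Agent.H301R2.SSE

/-- the logarithms of the numbers algebraic over `ℚ(θ)` -/
def Gth (θ : ℂ) : Submodule ℚ ℂ where
  carrier := {z | IsAlgebraic (IntermediateField.adjoin ℚ {θ}) (Complex.exp z)}
  zero_mem' := by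
    change IsAlgebraic _ (Complex.exp 0)
    rw [Complex.exp_zero]; exact isAlgebraic_one
  add_mem' := fun ha hb => exp_add_alg ha hb
  smul_mem' := fun q z hz => by
    change IsAlgebraic _ (Complex.exp (q • z))
    rw [Rat.smul_def]
    exact exp_rat hz q

theorem mem_Gth {θ z : ℂ} :
    z ∈ Gth θ ↔ IsAlgebraic (IntermediateField.adjoin ℚ {θ}) (Complex.exp z) := Iff.rfl

/-- the polynomials `P` with `c * P(t)` in a given space -/
noncomputable def polyG {k : Type*} [Field k] [Algebra k ℂ] (G : Submodule k ℂ) (c t : ℂ) :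
    Submodule k k[X] :=
  G.comap ((LinearMap.mulLeft k c).comp (aeval t : k[X] →ₐ[k] ℂ).toLinearMap)

theorem mem_polyG {k : Type*} [Field k] [Algebra k ℂ] {G : Submodule k ℂ} {c t : ℂ} {P : k[X]} :
    P ∈ polyG G c t ↔ c * aeval t P ∈ G := Iff.rfl

theorem li_val {k : Type*} [Field k] [Algebra k ℂ] {c t : ℂ} (ht : Transcendental k t)
    (hc : c ≠ 0) {l : ℕ} {Q : Fin l → k[X]} (hQ : LinearIndependent k Q) :
    LinearIndependent k (fun j => c * aeval t (Q j)) := by
  have h2 := hQ.map' ((LinearMap.mulLeft k c).comp (aeval t : k[X] →ₐ[k] ℂ).toLinearMap) (by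
    rw [LinearMap.ker_eq_bot]
    intro a b hab
    have h3 : c * aeval t a = c * aeval t b := hab
    exact transcendental_iff_injective.1 ht (mul_left_cancel₀ hc h3))
  exact h2

theorem li_pow_fin {k : Type*} [Field k] [Algebra k ℂ] {t : ℂ} (ht : Transcendental k t) (d : ℕ) :
    LinearIndependent k (fun i : Fin d => t ^ (i : ℕ)) := by
  have h1 := (Polynomial.basisMonomials k).linearIndependent
  have h2 := h1.map' (Polynomial.aeval t).toLinearMap (by
    rw [LinearMap.ker_eq_bot]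
    exact transcendental_iff_injective.1 ht)
  have h3 : (fun n : ℕ => t ^ n) = (Polynomial.aeval t).toLinearMap ∘
      (Polynomial.basisMonomials k) := by
    funext n
    simp
  have h4 : LinearIndependent k (fun n : ℕ => t ^ n) := by rw [h3]; exact h2
  exact h4.comp _ Fin.val_injective

theorem aeval_alg {F : Type*} [Field F] [CharZero F] [Algebra F ℂ] {t : ℂ} (h : IsAlgebraic F t)
    (P : ℚ[X]) : IsAlgebraic F (aeval t P) := by
  rw [aeval_eq_sum_range]
  refine Finset.sum_induction _ (fun z => IsAlgebraic F z) (fun a b ha hb => ha.add hb)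
    isAlgebraic_zero (fun i _ => ?_)
  rw [Rat.smul_def]
  exact (alg_rat _).mul (h.pow _)

/-- `GelG 2 3`: at most about half -/
theorem half_K {t c : ℂ} (ht : Transcendental ℚ t) (hc : c ≠ 0)
    (hca : IsAlgebraic (IntermediateField.adjoin ℚ {t}) c) {m n : ℕ} (P : Fin m → ℚ[X])
    (hP : LinearIndependent ℚ P) (hdeg : ∀ i, (P i).natDegree ≤ n)
    (h : ∀ i, IsAlgebraic (IntermediateField.adjoin ℚ {t}) (Complex.exp (c * aeval t (P i)))) :
    2 * m ≤ n + 4 := by
  by_contra hcon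
  obtain ⟨Q, hQ, hQG⟩ := exists_shifts (polyG (Gth t) c t) P hP hdeg (fun i => h i)
    (d := 1) (l := 3) (by omega)
  have hta : IsAlgebraic (IntermediateField.adjoin ℚ {t}) t := self_alg t
  refine Pool.Agent.W252.gelG 2 3 (by norm_num) t ht (fun i : Fin 2 => t ^ (i : ℕ))
    (fun j => c * aeval t (Q j)) (li_pow_fin ht 2) (li_val ht hc hQ) (fun i => hta.pow _) ?_ ?_
  · intro j
    exact hca.mul (aeval_alg hta (Q j))
  · intro i j
    have h1 : X ^ (i : ℕ) * Q j ∈ polyG (Gth t) c t := hQG i (by omega) j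
    rw [mem_polyG, mem_Gth, map_mul, map_pow, aeval_X] at h1
    have e : t ^ (i : ℕ) * (c * aeval t (Q j)) = c * (t ^ (i : ℕ) * aeval t (Q j)) := by ring
    rw [e]
    exact h1

/-- `K₂`: any nonzero multiplier -/
theorem third_K {t c : ℂ} (ht : Transcendental ℚ t) (hc : c ≠ 0) {m n : ℕ} (P : Fin m → ℚ[X])
    (hP : LinearIndependent ℚ P) (hdeg : ∀ i, (P i).natDegree ≤ n)
    (h : ∀ i, IsAlgebraic (IntermediateField.adjoin ℚ {t}) (Complex.exp (c * aeval t (P i)))) :
    3 * m ≤ 2 * n + 7 := by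
  by_contra hcon
  obtain ⟨Q, hQ, hQG⟩ := exists_shifts (polyG (Gth t) c t) P hP hdeg (fun i => h i)
    (d := 2) (l := 4) (by omega)
  have hta : IsAlgebraic (IntermediateField.adjoin ℚ {t}) t := self_alg t
  refine gelK2 ht (d := 3) (l := 4) (fun i : Fin 3 => t ^ (i : ℕ))
    (fun j => c * aeval t (Q j)) (li_pow_fin ht 3) (li_val ht hc hQ) (by norm_num)
    (fun i => hta.pow _) ?_
  intro i j
  have h1 : X ^ (i : ℕ) * Q j ∈ polyG (Gth t) c t := hQG i (by omega) j
  rw [mem_polyG, mem_Gth, map_mul, map_pow, aeval_X] at h1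
  have e : t ^ (i : ℕ) * (c * aeval t (Q j)) = c * (t ^ (i : ℕ) * aeval t (Q j)) := by ring
  rw [e]
  exact h1

/-- `K₁`: any field of transcendence degree one -/
theorem third_any {t c : ℂ} (θ : ℂ) (ht : Transcendental ℚ t) (hc : c ≠ 0) {m n : ℕ}
    (P : Fin m → ℚ[X]) (hP : LinearIndependent ℚ P) (hdeg : ∀ i, (P i).natDegree ≤ n)
    (h : ∀ i, IsAlgebraic (IntermediateField.adjoin ℚ {θ}) (Complex.exp (c * aeval t (P i)))) :
    3 * m ≤ 2 * n + 10 := by
  by_contra hcon
  obtain ⟨θ', hθ', hh⟩ := exists_tr θ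
  obtain ⟨Q, hQ, hQG⟩ := exists_shifts (polyG (Gth θ) c t) P hP hdeg (fun i => h i)
    (d := 2) (l := 7) (by omega)
  refine gelK1 hθ' (d := 3) (l := 7) (fun i : Fin 3 => t ^ (i : ℕ))
    (fun j => c * aeval t (Q j)) (li_pow_fin ht 3) (li_val ht hc hQ) (by norm_num) ?_
  intro i j
  have h1 : X ^ (i : ℕ) * Q j ∈ polyG (Gth θ) c t := hQG i (by omega) j
  rw [mem_polyG, mem_Gth, map_mul, map_pow, aeval_X] at h1
  have e : t ^ (i : ℕ) * (c * aeval t (Q j)) = c * (t ^ (i : ℕ) * aeval t (Q j)) := by ring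
  rw [e]
  exact hh _ h1

theorem tr_QB {t : ℂ} (ht : Transcendental ℚ t) : Transcendental QB t := by
  intro h
  have : Algebra.IsAlgebraic ℚ QB := ⟨fun a => by
    have h1 : IsAlgebraic ℚ (a : ℂ) := mem_QB.1 a.2
    exact (isAlgebraic_algebraMap_iff (R := ℚ) (S := QB) (A := ℂ)
      (algebraMap QB ℂ).injective).1 h1⟩
  exact ht (h.restrictScalars ℚ)

/-- linear forms in logarithms: at most about half -/
theorem half_Lt {t c : ℂ} (ht : Transcendental ℚ t) (hc : c ≠ 0) {m n : ℕ} (P : Fin m → QB[X])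
    (hP : LinearIndependent QB P) (hdeg : ∀ i, (P i).natDegree ≤ n)
    (h : ∀ i, c * aeval t (P i) ∈ Lt) : 2 * m ≤ n + 4 := by
  by_contra hcon
  obtain ⟨Q, hQ, hQG⟩ := exists_shifts (polyG Lt c t) P hP hdeg (fun i => h i)
    (d := 1) (l := 3) (by omega)
  have htB := tr_QB ht
  have hli := li_val htB hc hQ
  refine strong_six (fun i : Fin 2 => t ^ (i : ℕ)) (fun j => c * aeval t (Q j)) ?_ ?_ ?_
  · intro a b ha hb hab
    have h1 := li_pow_fin htB 2
    rw [Fintype.linearIndependent_iff] at h1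
    have h2 := h1 ![⟨a, mem_QB.2 ha⟩, ⟨b, mem_QB.2 hb⟩] (by
      rw [Fin.sum_univ_two]
      exact hab)
    exact ⟨congrArg Subtype.val (h2 0), congrArg Subtype.val (h2 1)⟩
  · intro g hg hs j
    rw [Fintype.linearIndependent_iff] at hli
    have h2 := hli (fun j => ⟨g j, mem_QB.2 (hg j)⟩) hs j
    exact congrArg Subtype.val h2
  · intro i j
    have h1 : X ^ (i : ℕ) * Q j ∈ polyG Lt c t := hQG i (by omega) j
    rw [mem_polyG, map_mul, map_pow, aeval_X] at h1
    have e : t ^ (i : ℕ) * (c * aeval t (Q j)) = c * (t ^ (i : ℕ) * aeval t (Q j)) := by ring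
    rw [e]
    exact h1

end Pool.Agent.W242.GG
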