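import Pool.Agent.W242.GG.PolyDim
import Pool.Agent.W242.GG.PiPi

/-!
# Spans of exceptional polynomials
-/

set_option autoImplicit false

namespace Pool.Agent.W242.GG

open Polynomial Module
open Pool.Agent.H301R2.SSE

theorem finrank_bound {k : Type*} [Field k] (G : Submodule k k[X]) (n B : ℕ)
    (h : ∀ (m : ℕ) (P : Fin m → k[X]), LinearIndependent k P → (∀ i, (P i).natDegree ≤ n) →
      (∀ i, P i ∈ G) → m ≤ B) (S : Set k[X]) (hS : ∀ P ∈ S, P.natDegree ≤ n ∧ P ∈ G) :
    finrank k (Submodule.span k S) ≤ B := by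
  have := finite_degreeLT (k := k) (n + 1)
  set W : Submodule k k[X] := degreeLT k (n + 1) ⊓ G with hW
  have hWf : FiniteDimensional k W := Submodule.finiteDimensional_of_le inf_le_left
  have h1 : Submodule.span k S ≤ W := by
    apply Submodule.span_le.2
    intro P hP
    obtain ⟨h2, h3⟩ := hS P hP
    refine ⟨?_, h3⟩
    change P ∈ degreeLT k (n + 1)
    rw [mem_degreeLT]
    refine degree_le_natDegree.trans_lt ?_
    exact_mod_cast Nat.lt_succ_of_le h2
  refine (Submodule.finrank_mono h1).trans ?_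
  let b := Module.finBasis k W
  refine h (finrank k W) (fun j => (b j : k[X])) ?_ ?_ ?_
  · exact b.linearIndependent.map' W.subtype (Submodule.ker_subtype _)
  · intro i
    have h2 : (b i : k[X]) ∈ degreeLT k (n + 1) := (b i).2.1
    rw [mem_degreeLT] at h2
    exact natDegree_le_of_degree_le (by
      rcases eq_or_ne (b i : k[X]) 0 with h0 | h0
      · rw [h0, degree_zero]; exact bot_le
      · rw [degree_eq_natDegree h0] at h2 ⊢
        have : (b i : k[X]).natDegree < n + 1 := by exact_mod_cast h2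
        exact_mod_cast Nat.lt_succ_iff.1 this)
  · intro i
    exact (b i).2.2

/-- dependence over `ℚ(t)`, multiplier algebraic over `ℚ(t)` -/
theorem span_half {t c : ℂ} (ht : Transcendental ℚ t) (hc : c ≠ 0)
    (hca : IsAlgebraic (IntermediateField.adjoin ℚ {t}) c) (n : ℕ) (S : Set ℚ[X])
    (hS : ∀ P ∈ S, P.natDegree ≤ n ∧
      IsAlgebraic (IntermediateField.adjoin ℚ {t}) (Complex.exp (c * aeval t P))) :
    finrank ℚ (Submodule.span ℚ S) ≤ (n + 4) / 2 := by
  refine finrank_bound (polyG (Gth t) c t) n _ ?_ _ hS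
  intro m P hP hd hG
  have := half_K ht hc hca P hP hd hG
  omega

theorem span_third {t c : ℂ} (ht : Transcendental ℚ t) (hc : c ≠ 0) (n : ℕ) (S : Set ℚ[X])
    (hS : ∀ P ∈ S, P.natDegree ≤ n ∧
      IsAlgebraic (IntermediateField.adjoin ℚ {t}) (Complex.exp (c * aeval t P))) :
    finrank ℚ (Submodule.span ℚ S) ≤ (2 * n + 7) / 3 := by
  refine finrank_bound (polyG (Gth t) c t) n _ ?_ _ hS
  intro m P hP hd hG
  have := third_K ht hc P hP hd hG
  omega

theorem span_any {t c : ℂ} (θ : ℂ) (ht : Transcendental ℚ t) (hc : c ≠ 0) (n : ℕ) (S : Set ℚ[X])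
    (hS : ∀ P ∈ S, P.natDegree ≤ n ∧
      IsAlgebraic (IntermediateField.adjoin ℚ {θ}) (Complex.exp (c * aeval t P))) :
    finrank ℚ (Submodule.span ℚ S) ≤ (2 * n + 10) / 3 := by
  refine finrank_bound (polyG (Gth θ) c t) n _ ?_ _ hS
  intro m P hP hd hG
  have := third_any θ ht hc P hP hd hG
  omega

theorem span_Lt {t c : ℂ} (ht : Transcendental ℚ t) (hc : c ≠ 0) (n : ℕ) (S : Set QB[X])
    (hS : ∀ P ∈ S, P.natDegree ≤ n ∧ c * aeval t P ∈ Lt) :
    finrank QB (Submodule.span QB S) ≤ (n + 4) / 2 := by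
  refine finrank_bound (polyG Lt c t) n _ ?_ _ hS
  intro m P hP hd hG
  have := half_Lt ht hc P hP hd hG
  omega

theorem span_alg {t c : ℂ} (ht : Transcendental ℚ t) (hc : c ≠ 0) (n : ℕ) (S : Set QB[X])
    (hS : ∀ P ∈ S, P.natDegree ≤ n ∧ IsAlgebraic ℚ (Complex.exp (c * aeval t P))) :
    finrank QB (Submodule.span QB S) ≤ (n + 4) / 2 :=
  span_Lt ht hc n S (fun P hP => ⟨(hS P hP).1, Lt_log (hS P hP).2⟩)

theorem tr_of_pair {a b : ℂ} (h : AlgebraicIndependent ℚ ![a, b]) :
    Transcendental (IntermediateField.adjoin ℚ {a}) b := by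
  have h0 := (AlgebraicIndependent.iff_transcendental_adjoin_image (1 : Fin 2)).1 h
  have h2 := h0.2
  have h1 : (![a, b] '' ({1}ᶜ : Set (Fin 2))) = {a} := by
    ext z
    simp only [Set.mem_image, Set.mem_compl_iff, Set.mem_singleton_iff]
    constructor
    · rintro ⟨i, hi, rfl⟩
      fin_cases i
      · rfl
      · exact absurd rfl hi
    · rintro rfl
      exact ⟨0, by decide, rfl⟩
  rw [h1] at h2
  exact (IntermediateField.transcendental_adjoin_iff).2 h2

/-- the four operations -/
theorem four_ops {a b : ℂ} (h : AlgebraicIndependent ℚ ![a, b]) :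
    Transcendental ℚ (a + b) ∧ Transcendental ℚ (a - b) ∧ Transcendental ℚ (a * b) ∧
      Transcendental ℚ (a / b) ∧ Transcendental ℚ b := by
  have hb := tr_of_pair h
  have ha := self_alg a
  have hbQ : Transcendental ℚ b := fun hb' => hb (hb'.tower_top _)
  have haQ : Transcendental ℚ a := by
    exact h.transcendental 0
  have ha0 : a ≠ 0 := by rintro rfl; exact haQ isAlgebraic_zero
  have hb0 : b ≠ 0 := by rintro rfl; exact hbQ isAlgebraic_zero
  refine ⟨?_, ?_, ?_, ?_, hbQ⟩
  · intro h1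
    have h2 : IsAlgebraic (IntermediateField.adjoin ℚ {a}) (a + b) := h1.tower_top _
    apply hb
    have := h2.sub ha
    rwa [add_sub_cancel_left] at this
  · intro h1
    have h2 : IsAlgebraic (IntermediateField.adjoin ℚ {a}) (a - b) := h1.tower_top _
    apply hb
    have := ha.sub h2
    rwa [sub_sub_cancel] at this
  · intro h1
    have h2 : IsAlgebraic (IntermediateField.adjoin ℚ {a}) (a * b) := h1.tower_top _
    apply hb
    have := ha.inv.mul h2
    rwa [inv_mul_cancel_left₀ ha0] at this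
  · intro h1
    have h2 : IsAlgebraic (IntermediateField.adjoin ℚ {a}) (a / b) := h1.tower_top _
    apply hb
    have := ha.mul h2.inv
    have e : a * (a / b)⁻¹ = b := by field_simp
    rwa [e] at this

end Pool.Agent.W242.GG
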