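import Mathlib

/-!
# Polynomials all of whose small shifts lie in a given space
-/

set_option autoImplicit false

namespace Pool.Agent.W242.GG

open Polynomial Module

variable {k : Type*} [Field k]

/-- polynomials `Q` with `Q, X Q, ..., X ^ i Q ∈ S` -/
noncomputable def shT (S : Submodule k k[X]) : ℕ → Submodule k k[X]
  | 0 => S
  | i + 1 => shT S i ⊓ S.comap (LinearMap.mulLeft k (X ^ (i + 1)))

theorem shT_le (S : Submodule k k[X]) (i : ℕ) : shT S i ≤ S := by
  induction i with
  | zero => exact le_rfl
  | succ i ih => exact inf_le_left.trans ih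

theorem shT_mem {S : Submodule k k[X]} {i j : ℕ} (hj : j ≤ i) {Q : k[X]} (hQ : Q ∈ shT S i) :
    X ^ j * Q ∈ S := by
  induction i with
  | zero =>
    have : j = 0 := by omega
    subst this
    rw [pow_zero, one_mul]
    exact hQ
  | succ i ih =>
    rcases Nat.lt_or_ge j (i + 1) with h | h
    · exact ih (by omega) hQ.1
    · have : j = i + 1 := by omega
      subst this
      exact hQ.2

theorem X_mul_mem {n : ℕ} {P : k[X]} (h : P ∈ degreeLT k n) : X * P ∈ degreeLT k (n + 1) := by
  rw [mem_degreeLT] at h ⊢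
  rcases eq_or_ne P 0 with h0 | h0
  · subst h0
    simp only [mul_zero, degree_zero]
    exact WithBot.bot_lt_coe _
  · rw [degree_mul, degree_X]
    rw [degree_eq_natDegree h0] at h ⊢
    have h1 : P.natDegree < n := by exact_mod_cast h
    have : (1 : WithBot ℕ) + (P.natDegree : WithBot ℕ) = ((1 + P.natDegree : ℕ) : WithBot ℕ) := by
      push_cast; rfl
    rw [this]
    exact_mod_cast (by omega : 1 + P.natDegree < n + 1)

theorem finite_degreeLT (n : ℕ) : Module.Finite k (degreeLT k n) :=
  Module.Finite.equiv (degreeLTEquiv k n).symm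

theorem finrank_degreeLT (n : ℕ) : finrank k (degreeLT k n) = n := by
  rw [(degreeLTEquiv k n).finrank_eq, Module.finrank_fin_fun]

theorem shT_step {S : Submodule k k[X]} {n : ℕ} (hS : S ≤ degreeLT k (n + 1)) (i : ℕ) :
    finrank k (shT S i) + finrank k S ≤ finrank k (shT S (i + 1)) + (n + 2) := by
  have := finite_degreeLT (k := k) (n + 1)
  have := finite_degreeLT (k := k) (n + 2)
  have hSf : FiniteDimensional k S := Submodule.finiteDimensional_of_le hS
  have : FiniteDimensional k (shT S i) := Submodule.finiteDimensional_of_le (shT_le S i)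
  set f : k[X] →ₗ[k] k[X] := LinearMap.mulLeft k (X ^ (i + 1)) with hf
  have hinj : Function.Injective f := by
    intro a b hab
    simp only [hf, LinearMap.mulLeft_apply] at hab
    exact mul_left_cancel₀ (pow_ne_zero _ X_ne_zero) hab
  set A := (shT S i).map f with hA
  have : FiniteDimensional k A := by rw [hA]; infer_instance
  have hA2 : A ≤ degreeLT k (n + 2) := by
    rintro _ ⟨Q, hQ, rfl⟩
    have h1 := hS (shT_mem le_rfl hQ)
    have h2 := X_mul_mem h1
    have h3 : f Q = X * (X ^ i * Q) := by
      simp only [hf, LinearMap.mulLeft_apply]; ring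
    rw [h3]
    exact h2
  have hle : degreeLT k (n + 1) ≤ degreeLT k (n + 2) := degreeLT_mono (by omega)
  have hsup : A ⊔ S ≤ degreeLT k (n + 2) := sup_le hA2 (hS.trans hle)
  have h1 : finrank k (A ⊔ S : Submodule k k[X]) ≤ n + 2 := by
    have := Submodule.finrank_mono hsup
    rwa [finrank_degreeLT] at this
  have h2 := Submodule.finrank_sup_add_finrank_inf_eq A S
  have h3 : finrank k A = finrank k (shT S i) :=
    ((Submodule.equivMapOfInjective f hinj (shT S i)).finrank_eq).symm
  have h4 : (shT S (i + 1)).map f = A ⊓ S := by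
    ext P
    constructor
    · rintro ⟨Q, hQ, rfl⟩
      exact ⟨⟨Q, hQ.1, rfl⟩, hQ.2⟩
    · rintro ⟨⟨Q, hQ, rfl⟩, hP⟩
      exact ⟨Q, ⟨hQ, hP⟩, rfl⟩
  have h5 : finrank k (A ⊓ S : Submodule k k[X]) = finrank k (shT S (i + 1)) := by
    rw [← h4]
    exact ((Submodule.equivMapOfInjective f hinj (shT S (i + 1))).finrank_eq).symm
  omega

theorem shT_finrank {S : Submodule k k[X]} {n : ℕ} (hS : S ≤ degreeLT k (n + 1)) (i : ℕ) :
    (i + 1) * finrank k S ≤ finrank k (shT S i) + i * (n + 2) := by
  induction i with
  | zero =>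
    have : finrank k (shT S 0) = finrank k S := rfl
    omega
  | succ i ih =>
    have := shT_step hS i
    have e1 : (i + 1 + 1) * finrank k S = (i + 1) * finrank k S + finrank k S := by ring
    have e2 : (i + 1) * (n + 2) = i * (n + 2) + (n + 2) := by ring
    omega

/-- from `m` independent polynomials of degree `≤ n` in `G` one gets `l` independent
polynomials `Q` with `Q, X Q, ..., X ^ d Q` in `G` -/
theorem exists_shifts (G : Submodule k k[X]) {m n : ℕ} (P : Fin m → k[X])
    (hP : LinearIndependent k P) (hdeg : ∀ i, (P i).natDegree ≤ n) (hG : ∀ i, P i ∈ G) {d l : ℕ}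
    (h : l + d * (n + 2) ≤ (d + 1) * m) :
    ∃ Q : Fin l → k[X], LinearIndependent k Q ∧ ∀ i ≤ d, ∀ j, X ^ i * Q j ∈ G := by
  classical
  set S := Submodule.span k (Set.range P) with hSdef
  have hSG : S ≤ G := Submodule.span_le.2 (by rintro _ ⟨i, rfl⟩; exact hG i)
  have hS : S ≤ degreeLT k (n + 1) := by
    apply Submodule.span_le.2
    rintro _ ⟨i, rfl⟩
    change P i ∈ degreeLT k (n + 1)
    rw [mem_degreeLT]
    refine (degree_le_natDegree).trans_lt ?_
    exact_mod_cast Nat.lt_succ_of_le (hdeg i)
  have hSr : finrank k S = m := by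
    rw [hSdef, finrank_span_eq_card hP, Fintype.card_fin]
  have h1 := shT_finrank hS d
  rw [hSr] at h1
  have h2 : l ≤ finrank k (shT S d) := by omega
  have := finite_degreeLT (k := k) (n + 1)
  have hSf : FiniteDimensional k S := Submodule.finiteDimensional_of_le hS
  have : FiniteDimensional k (shT S d) := Submodule.finiteDimensional_of_le (shT_le S d)
  let b := Module.finBasis k (shT S d)
  refine ⟨fun j => (b (Fin.castLE h2 j) : k[X]), ?_, ?_⟩
  · have h3 : LinearIndependent k (fun j => ((b j : shT S d) : k[X])) :=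
      b.linearIndependent.map' (shT S d).subtype (Submodule.ker_subtype _)
    exact h3.comp _ (Fin.castLE_injective h2)
  · intro i hi j
    exact hSG (shT_mem hi (b (Fin.castLE h2 j)).2)

end Pool.Agent.W242.GG
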