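import Pool.Agent.W242.GG.PiPi
import Pool.Agent.H137R5.TowFree

/-!
# One parameter families through `a ^ t`
-/

set_option autoImplicit false

namespace Pool.Agent.W242.GG

open Finset
open Pool.Agent.H301R2.SSE Pool.Agent.H335R2 Pool.Agent.H137R5.Tow Pool.Agent.H462R2.PiE

theorem log_ne' {a : ℝ} (ha : 0 < a) (ha1 : a ≠ 1) : ((Real.log a : ℝ) : ℂ) ≠ 0 := by
  exact_mod_cast log_ne ha ha1

theorem exp_log_c {a : ℝ} (ha : 0 < a) : Complex.exp ((Real.log a : ℝ) : ℂ) = (a : ℂ) := by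
  rw [← Complex.ofReal_exp, Real.exp_log ha]

theorem fam_free {a t : ℝ} (ha : 0 < a) (ha1 : a ≠ 1) (haa : IsAlgebraic ℚ a)
    (ht : Transcendental ℚ t) :
    {s : ℝ | IsAlgebraic ℚ s ∧ ¬ Free (a ^ (t / (1 - s * t)))}.encard ≤ 2 := by
  have hm : ∀ s : ℝ, ¬ Free (a ^ (t / (1 - s * t))) →
      ((Real.log a : ℝ) : ℂ) * fs (t : ℂ) (s : ℂ) ∈ Lt := by
    intro s hs
    have h1 := bad_rpow ha (bad_of_not_free hs)
    unfold fs
    push_cast at h1 ⊢
    rw [mul_comm]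
    exact h1
  have cst : ∀ {a b : ℝ}, a ≠ b → (a : ℂ) ≠ (b : ℂ) := fun h => by exact_mod_cast h
  apply encard_le_two
  rintro s1 ⟨a1, f1⟩ s2 ⟨a2, f2⟩ s3 ⟨a3, f3⟩ h12 h13 h23
  by_cases h30 : s3 = 0
  · have h10 : s1 ≠ 0 := fun h => h13 (by rw [h, h30])
    exact three_false (trC ht) (log_ne' ha ha1) (log_mem' ha haa) (alg_ofReal a2) (alg_ofReal a3)
      (alg_ofReal a1) (cst h23) (cst h12.symm) (cst h13.symm) (by exact_mod_cast h10)
      (hm s2 f2) (hm s3 f3) (hm s1 f1)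
  · exact three_false (trC ht) (log_ne' ha ha1) (log_mem' ha haa) (alg_ofReal a1) (alg_ofReal a2)
      (alg_ofReal a3) (cst h12) (cst h13) (cst h23) (by exact_mod_cast h30)
      (hm s1 f1) (hm s2 f2) (hm s3 f3)

theorem fam_dep {a t : ℝ} (ha : 0 < a) (ha1 : a ≠ 1) (haa : IsAlgebraic ℚ a)
    (ht : Transcendental ℚ t) :
    {s : ℚ | ¬ AlgebraicIndependent ℚ
      ![(t : ℂ), ((a ^ (t / (1 - s * t)) : ℝ) : ℂ)]}.encard ≤ 4 := by
  apply encard_le_nat _ 4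
  intro S hS hmem
  refine five_K_finset (trC ht) (log_ne' ha ha1) (by
    rw [exp_log_c ha]; exact (alg_ofReal haa).tower_top _) S hS ?_
  intro s hs
  have h1 := dep_alg (trC ht) (hmem s hs)
  rw [rpow_exp ha t s] at h1
  simpa using h1

open Classical in
theorem fam_pow_dep {a t : ℝ} (ha : 0 < a) (ha1 : a ≠ 1) (ht : Transcendental ℚ t) (N : ℕ) :
    (((Icc 1 N).filter (fun n : ℕ => ¬ AlgebraicIndependent ℚ
      ![(t : ℂ), ((a ^ (t ^ n) : ℝ) : ℂ)])).card : ℝ) ≤ 3 * (N : ℝ) ^ (2 / 3 : ℝ) + 2 := by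
  refine le_trans ?_ (pow_self (trC ht) (log_ne' ha ha1) N)
  have : (Icc 1 N).filter (fun n : ℕ => ¬ AlgebraicIndependent ℚ
      ![(t : ℂ), ((a ^ (t ^ n) : ℝ) : ℂ)]) ⊆
      (Icc 1 N).filter (fun k : ℕ => IsAlgebraic (IntermediateField.adjoin ℚ {(t : ℂ)})
      (Complex.exp (((Real.log a : ℝ) : ℂ) * (t : ℂ) ^ k))) := by
    intro n hn
    rw [Finset.mem_filter] at hn ⊢
    have h1 := dep_alg (trC ht) hn.2
    rw [rpow_pow_exp ha] at h1
    exact ⟨hn.1, h1⟩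
  exact_mod_cast Finset.card_le_card this

open Classical in
theorem fam_pow_free {a t : ℝ} (ha : 0 < a) (ha1 : a ≠ 1) (ht : Transcendental ℚ t) (N : ℕ) :
    (((Icc 1 N).filter (fun n : ℕ => ¬ Free (a ^ (t ^ n)))).card : ℝ) ≤
      2 * Real.sqrt N + 1 := by
  refine le_trans ?_ (topCount t (Real.log a) ht (log_ne ha ha1) N)
  have : (Icc 1 N).filter (fun n : ℕ => ¬ Free (a ^ (t ^ n))) ⊆
      (Icc 1 N).filter (fun k : ℕ => InE t (Real.log a) k) := by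
    intro n hn
    rw [Finset.mem_filter] at hn ⊢
    refine ⟨hn.1, ?_⟩
    have h1 := bad_rpow ha (bad_of_not_free hn.2)
    unfold InE
    push_cast at h1 ⊢
    exact h1
  exact_mod_cast Finset.card_le_card this

theorem z_tr : Transcendental ℚ (Real.sqrt 2 ^ Real.sqrt 2) := by
  have h2 : (0 : ℝ) < Real.sqrt 2 := Real.sqrt_pos.2 (by norm_num)
  have halg : IsAlgebraic ℚ (Real.sqrt 2) := by
    have h3 : IsAlgebraic ℚ (Real.sqrt 2 ^ 2) := by
      rw [Real.sq_sqrt (by norm_num)]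
      exact_mod_cast isAlgebraic_natCast 2
    exact h3.of_pow (by norm_num)
  refine gs h2 ?_ halg halg irrational_sqrt_two
  intro h
  have h3 := Real.sq_sqrt (show (0 : ℝ) ≤ 2 by norm_num)
  rw [h] at h3
  norm_num at h3

end Pool.Agent.W242.GG
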